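import Pool.Agent.Lib.MP_4e105e_co_forest.Single

/-!
MP_4e105e_co (gluing of extendable families): the gluing theorem for sequences and flags.
-/

set_option autoImplicit false

namespace Pool.Agent.Lib.MP_4e105e_co_forest

/-- no two different elements of `Z` lie in one orbit of the family `F` -/
def Sep {A : Type} (F : Set (Set (A × A))) (Z : Set A) : Prop :=
  ∀ z ∈ Z, ∀ z' ∈ Z, Relation.EqvGen (fun x y => ∃ φ ∈ F, (x, y) ∈ φ) z z' → z = z'

/-- gluing of a sequence of families -/
theorem glue_seq {A : Type} [Finite A] (r : A → A → Prop) (hr : IsTour r) (k : ℕ)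
    (X : ℕ → Set A) (F : ℕ → Set (Set (A × A)))
    (hF : ∀ i < k, Extendable r (X i) (F i))
    (hX : ∀ i < k, (X i ∩ ⋃ j < i, X j).encard ≤ 2 ∨ Sep (F i) (X i ∩ ⋃ j < i, X j) ∨
      Sep (⋃ j < i, F j) (X i ∩ ⋃ j < i, X j)) :
    Extendable r Set.univ ((⋃ i < k, F i) ∪ Small r Set.univ) := by
  refine ext_univ r hr (⋃ j < k, X j) Set.univ (Set.subset_univ _) _ ?_
  induction k with
  | zero =>
    simp only [not_lt_zero, Set.iUnion_of_empty, Set.iUnion_empty]
    exact ext_empty r
  | succ k ih =>
    have h1 := ih (fun i hi => hF i (by omega)) (fun i hi => hX i (by omega))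
    have h2 := hF k (by omega)
    have h4 : Extendable r (X k ∪ ⋃ j < k, X j) (F k ∪ (⋃ j < k, F j)) := by
      rcases hX k (by omega) with h | h | h
      · exact (glue_two r hr _ _ h _ _ h2 h1).mono (fun φ hφ => Or.inl hφ)
      · exact (glue_trans r hr _ _ _ _ h2 h1 h).mono (fun φ hφ => Or.inl hφ)
      · rw [Set.inter_comm] at h
        rw [Set.union_comm (X k), Set.union_comm (F k)]
        exact (glue_trans r hr _ _ _ _ h1 h2 h).mono (fun φ hφ => Or.inl hφ)
    have e1 : (⋃ j < k + 1, X j) = X k ∪ ⋃ j < k, X j := by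
      ext x
      simp only [Set.mem_iUnion, Set.mem_union, Order.lt_add_one_iff, exists_prop]
      constructor
      · rintro ⟨j, hj, hx⟩
        rcases Nat.lt_or_eq_of_le hj with h | h
        · exact Or.inr ⟨j, h, hx⟩
        · exact Or.inl (h ▸ hx)
      · rintro (hx | ⟨j, hj, hx⟩)
        · exact ⟨k, le_rfl, hx⟩
        · exact ⟨j, by omega, hx⟩
    rw [e1]
    refine h4.mono ?_
    intro φ hφ
    simp only [Set.mem_iUnion, Order.lt_add_one_iff, exists_prop] at hφ
    obtain ⟨j, hj, hφ⟩ := hφ
    rcases Nat.lt_or_eq_of_le hj with h | h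
    · exact Or.inr (by simp only [Set.mem_iUnion, exists_prop]; exact ⟨j, h, hφ⟩)
    · exact Or.inl (h ▸ hφ)

/-- maps which fix an initial segment of `v 0, …, v (n-1)` and have at most two more vertices -/
def Flag {A : Type} (r : A → A → Prop) (X : Set A) (v : ℕ → A) (n : ℕ) : Set (Set (A × A)) :=
  {φ | φ ∈ PA r X ∧ ∃ j ≤ n, (∀ i < j, (v i, v i) ∈ φ) ∧ {p ∈ φ | ∀ i < j, p.1 ≠ v i}.encard ≤ 2}

theorem flags {A : Type} [Finite A] (r : A → A → Prop) (hr : IsTour r) (n : ℕ) :
    ∀ (X : Set A) (v : ℕ → A), (∀ i < n, ∀ j < n, v i = v j → i = j) →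
      Extendable r X (Flag r X v n) := by
  have small : ∀ X : Set A, Extendable r X (Small r X) := by
    intro X
    exact (ext_univ r hr ∅ X (Set.empty_subset _) ∅ (ext_empty r)).mono (fun φ h => Or.inr h)
  have zero : ∀ (X : Set A) (v : ℕ → A) (φ : Set (A × A)), φ ∈ PA r X →
      {p ∈ φ | ∀ i < 0, p.1 ≠ v i}.encard ≤ 2 → φ ∈ Small r X := by
    intro X v φ h1 h2
    refine ⟨h1, ?_⟩
    have e : {p ∈ φ | ∀ i < 0, p.1 ≠ v i} = φ := by
      ext p
      simp
    rwa [e] at h2
  induction n with
  | zero =>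
    intro X v _
    refine (small X).mono ?_
    rintro φ ⟨h1, j, hj, -, h2⟩
    obtain rfl : j = 0 := by omega
    exact zero X v φ h1 h2
  | succ n ih =>
    intro X v hv
    by_cases h0 : v 0 ∈ X
    · have h1 := ih (X \ {v 0}) (fun i => v (i + 1)) (by
        intro i hi j hj h
        have := hv (i + 1) (by omega) (j + 1) (by omega) h
        omega)
      have h2 := fix_vertex r hr (X \ {v 0}) (v 0) (by simp) _ h1
      rw [Set.insert_sdiff_singleton, Set.insert_eq_of_mem h0] at h2
      refine (ext_small r hr X _ h2).mono ?_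
      rintro φ ⟨hφ, j, hj, h3, h4⟩
      rcases j with _ | j
      · exact Or.inr (zero X v φ hφ h4)
      · left
        have h00 := h3 0 (by omega)
        obtain ⟨hpa, hX⟩ := hφ
        have hne : ∀ x y, (x, y) ∈ φ \ {(v 0, v 0)} → x ≠ v 0 ∧ y ≠ v 0 := by
          rintro x y ⟨hxy, hn⟩
          have h5 := (hpa _ _ _ _ hxy h00).1
          constructor
          · intro h
            exact hn (by rw [h, h5.mp h]; rfl)
          · intro h
            exact hn (by rw [h, h5.mpr h]; rfl)
        refine ⟨hpa, φ \ {(v 0, v 0)}, ⟨⟨?_, ?_⟩, j, by omega, ?_, ?_⟩, ?_⟩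
        · intro x y x' y' h h'
          exact hpa x y x' y' h.1 h'.1
        · intro x y h
          have h5 := hX x y h.1
          have h6 := hne x y h
          exact ⟨⟨h5.1, h6.1⟩, ⟨h5.2, h6.2⟩⟩
        · intro i hi
          refine ⟨h3 (i + 1) (by omega), ?_⟩
          intro h
          have h5 : v (i + 1) = v 0 := congrArg Prod.fst h
          have := hv (i + 1) (by omega) 0 (by omega) h5
          omega
        · refine (Set.encard_le_encard ?_).trans h4
          rintro ⟨x, y⟩ ⟨h5, h6⟩
          refine ⟨h5.1, ?_⟩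
          intro i hi
          rcases i with _ | i
          · exact (hne x y h5).1
          · exact h6 i (by omega)
        · rw [Set.insert_sdiff_singleton, Set.insert_eq_of_mem h00]
    · refine (small X).mono ?_
      rintro φ ⟨hφ, j, hj, h3, h4⟩
      rcases j with _ | j
      · exact zero X v φ hφ h4
      · exact absurd (hφ.2 _ _ (h3 0 (by omega))).1 h0

end Pool.Agent.Lib.MP_4e105e_co_forest
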