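import Pool.Agent.Lib.MP_4e105e_co_forest.Crit
import Pool.Agent.Lib.MP_4e105e_co_forest.Seq

/-!
MP_4e105e_co (gluing of extendable families): reduction to orbits, gluing orbit by orbit, families
invariant under a group of automorphisms.
-/

set_option autoImplicit false

namespace Pool.Agent.Lib.MP_4e105e_co_forest

/-- the orbit equivalence of a family -/
def Orb {A : Type} (F : Set (Set (A × A))) : A → A → Prop :=
  Relation.EqvGen (fun x y => ∃ φ ∈ F, (x, y) ∈ φ)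

/-- restriction of a map to a set of vertices -/
def res {A : Type} (C : Set A) (φ : Set (A × A)) : Set (A × A) := {p ∈ φ | p.1 ∈ C ∧ p.2 ∈ C}

/-- restriction of a family -/
def Res {A : Type} (C : Set A) (F : Set (Set (A × A))) : Set (Set (A × A)) := {ψ | ∃ φ ∈ F, ψ = res C φ}

theorem ext_res {A : Type} {r : A → A → Prop} {X : Set A} {F : Set (Set (A × A))}
    (h : Extendable r X F) (C : Set A) : Extendable r (X ∩ C) (Res C F) := by
  obtain ⟨B, hB, s, hs, e, he, hr, hφ⟩ := h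
  refine ⟨B, hB, s, hs, fun x => e ⟨x.1, x.2.1⟩, ?_, fun x y => hr ⟨x.1, x.2.1⟩ ⟨y.1, y.2.1⟩, ?_⟩
  · intro x y hxy
    exact Subtype.ext (Subtype.mk.inj (he hxy))
  · rintro ψ ⟨φ, hF, rfl⟩
    obtain ⟨σ, hσ, hD⟩ := hφ φ hF
    refine ⟨σ, hσ, ?_⟩
    rintro x y ⟨hxy, hx, hy⟩
    obtain ⟨hx', hy', h1⟩ := hD x y hxy
    exact ⟨⟨hx', hx⟩, ⟨hy', hy⟩, h1⟩

theorem odd_card_of_orders {G : Type} [Group G] [Finite G] (h : ∀ g : G, Odd (orderOf g)) :
    Odd (Nat.card G) := by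
  rw [← Nat.not_even_iff_odd]
  intro he
  have : Fact (Nat.Prime 2) := ⟨Nat.prime_two⟩
  obtain ⟨x, hx⟩ := exists_prime_orderOf_dvd_card' (G := G) 2 he.two_dvd
  have := h x
  rw [hx] at this
  exact absurd this (by decide)

/-- reduction to orbits -/
theorem odd_comp {A : Type} [Finite A] (X : Set A) (F : Set (Set (A × A)))
    (hX : ∀ φ ∈ F, ∀ x y, (x, y) ∈ φ → x ∈ X ∧ y ∈ X)
    (h : ∀ x ∈ X, OddPerm {y | y ∈ X ∧ Orb F x y} (Res {y | y ∈ X ∧ Orb F x y} F)) :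
    OddPerm X F := by
  classical
  let O : A → Set A := fun x => {y | y ∈ X ∧ Orb F x y}
  have orbX : ∀ x y, Orb F x y → (x ∈ X ↔ y ∈ X) := by
    intro x y hxy
    induction hxy with
    | rel x y h =>
      obtain ⟨φ, hF, h1⟩ := h
      have := hX φ hF x y h1
      exact ⟨fun _ => this.2, fun _ => this.1⟩
    | refl x => exact Iff.rfl
    | symm x y _ ih => exact ih.symm
    | trans x y z _ _ ih1 ih2 => exact ih1.trans ih2
  let st : Setoid A := ⟨Orb F, Relation.EqvGen.is_equivalence _⟩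
  let rep : A → A := fun x => (Quotient.mk st x).out
  have rep1 : ∀ x, Orb F (rep x) x := fun x => Quotient.exact (Quotient.out_eq (Quotient.mk st x))
  have rep2 : ∀ x y, Orb F x y → rep x = rep y := by
    intro x y hxy
    show (Quotient.mk st x).out = (Quotient.mk st y).out
    rw [Quotient.sound (s := st) hxy]
  have repX : ∀ x ∈ X, rep x ∈ X := fun x hx => (orbX _ _ (rep1 x)).mpr hx
  choose B hB G hG e he hφ using (fun c : X => h c.1 c.2)
  have hfin : ∀ c, Finite (B c) := hB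
  have hfin2 : Finite X := inferInstance
  have : Fintype X := Fintype.ofFinite X
  have : Finite (Σ c, B c) := inferInstance
  let π := Equiv.Perm.sigmaCongrRightHom B
  let P : Subgroup (∀ c, Equiv.Perm (B c)) := Subgroup.pi Set.univ G
  have hodd : Odd (Nat.card (P.map π)) := by
    refine odd_card_of_orders ?_
    intro g
    obtain ⟨f, hf, hfg⟩ := g.2
    rw [← Subgroup.orderOf_coe, ← hfg]
    have h1 : (π f) ^ (∏ c, Nat.card (G c)) = 1 := by
      rw [← map_pow]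
      have h2 : f ^ (∏ c, Nat.card (G c)) = 1 := by
        funext c
        rw [Pi.pow_apply, Pi.one_apply]
        obtain ⟨k, hk⟩ := Finset.dvd_prod_of_mem (fun c => Nat.card (G c)) (Finset.mem_univ c)
        have h3 : (f c) ^ Nat.card (G c) = 1 := by
          have h4 : f c ∈ G c := hf c trivial
          have h5 : (⟨f c, h4⟩ : G c) ^ Nat.card (G c) = 1 := pow_card_eq_one'
          exact congrArg Subtype.val h5
        rw [hk, pow_mul, h3, one_pow]
      rw [h2, map_one]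
    have h2 : Odd (∏ c, Nat.card (G c)) :=
      Finset.prod_induction _ Odd (fun _ _ => Odd.mul) odd_one (fun c _ => hG c)
    exact Odd.of_dvd_nat h2 (orderOf_dvd_of_pow_eq_one h1)
  have memO : ∀ (x : A) (hx : x ∈ X), x ∈ O (rep x) := fun x hx => ⟨hx, rep1 x⟩
  let E : (c : X) → (y : A) → y ∈ O c.1 → Σ c, B c := fun c y hy => ⟨c, e c ⟨y, hy⟩⟩
  have Econg : ∀ (c c' : X) (y : A) (hy : y ∈ O c.1) (hy' : y ∈ O c'.1), c = c' →
      E c y hy = E c' y hy' := by
    rintro c c' y hy hy' rfl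
    rfl
  refine ⟨Σ c, B c, inferInstance, P.map π, hodd,
    fun x => E ⟨rep x.1, repX x.1 x.2⟩ x.1 (memO x.1 x.2), ?_, ?_⟩
  · rintro ⟨x, hx⟩ ⟨y, hy⟩ hxy
    have h1 : (⟨rep x, repX x hx⟩ : X) = ⟨rep y, repX y hy⟩ := congrArg Sigma.fst hxy
    have h2 : rep x = rep y := congrArg Subtype.val h1
    have hy' : y ∈ O (rep x) := by rw [h2]; exact memO y hy
    have h3 : E ⟨rep x, repX x hx⟩ x (memO x hx) = E ⟨rep x, repX x hx⟩ y hy' := by
      refine (show _ = _ from hxy).trans ?_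
      exact Econg _ _ _ _ _ h1.symm
    have h4 := he _ (sigma_mk_injective h3)
    exact Subtype.ext (Subtype.mk.inj h4)
  · intro φ hF
    have hc : ∀ c : X, ∃ σ ∈ G c, ∀ x y : A, (x, y) ∈ res (O c.1) φ →
        ∃ (hx : x ∈ O c.1) (hy : y ∈ O c.1), σ (e c ⟨x, hx⟩) = e c ⟨y, hy⟩ := fun c =>
      hφ c (res (O c.1) φ) ⟨φ, hF, rfl⟩
    choose σ hσG hσ using hc
    refine ⟨π σ, ⟨σ, fun c _ => hσG c, rfl⟩, ?_⟩
    intro x y hxy
    obtain ⟨hx, hy⟩ := hX φ hF x y hxy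
    refine ⟨hx, hy, ?_⟩
    have hxy' : Orb F x y := Relation.EqvGen.rel _ _ ⟨φ, hF, hxy⟩
    have hrep : rep x = rep y := rep2 x y hxy'
    have hy' : y ∈ O (rep x) := by rw [hrep]; exact memO y hy
    obtain ⟨hx1, hy1, h1⟩ := hσ ⟨rep x, repX x hx⟩ x y ⟨hxy, memO x hx, hy'⟩
    show (⟨⟨rep x, repX x hx⟩, σ ⟨rep x, repX x hx⟩ (e _ ⟨x, _⟩)⟩ : Σ c, B c) = _
    rw [h1]
    exact Econg ⟨rep x, repX x hx⟩ ⟨rep y, repX y hy⟩ y hy' (memO y hy) (Subtype.ext hrep)

theorem PA_mono {A : Type} {r : A → A → Prop} {X Y : Set A} (h : X ⊆ Y) : PA r X ⊆ PA r Y :=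
  fun _ hφ => ⟨hφ.1, fun x y hxy => ⟨h (hφ.2 x y hxy).1, h (hφ.2 x y hxy).2⟩⟩

/-- extendability can be checked orbit by orbit -/
theorem ext_comp {A : Type} [Finite A] (r : A → A → Prop) (hr : IsTour r) (X : Set A)
    (F : Set (Set (A × A))) (hF : ∀ φ ∈ F, φ ∈ PA r X)
    (h : ∀ x ∈ X, Extendable r {y | y ∈ X ∧ Orb F x y} (Res {y | y ∈ X ∧ Orb F x y} F)) :
    Extendable r X F :=
  (ext_of_odd r hr X F hF (odd_comp X F (fun φ hφ => (hF φ hφ).2)
    (fun x hx => odd_of_ext (h x hx)))).mono (fun _ hφ => Or.inl hφ)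

/-- the gluing condition for a set `C` of common vertices -/
def Cond {A : Type} (F F' : Set (Set (A × A))) (C : Set A) : Prop :=
  C.encard ≤ 2 ∨ Sep F C ∨ Sep F' C

theorem Sep.res {A : Type} {F : Set (Set (A × A))} {Z : Set A} (h : Sep F Z) (C : Set A) :
    Sep (Res C F) Z := by
  intro z hz z' hz' hzz
  refine h z hz z' hz' ?_
  clear hz hz'
  induction hzz with
  | rel a b hab =>
    obtain ⟨ψ, ⟨φ, hφ, rfl⟩, hab⟩ := hab
    exact Relation.EqvGen.rel _ _ ⟨φ, hφ, hab.1⟩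
  | refl a => exact Relation.EqvGen.refl a
  | symm a b _ ih => exact Relation.EqvGen.symm _ _ ih
  | trans a b c _ _ ih1 ih2 => exact Relation.EqvGen.trans _ _ _ ih1 ih2

/-- gluing of two families, orbit by orbit -/
theorem glue_comp {A : Type} [Finite A] (r : A → A → Prop) (hr : IsTour r) (X1 X2 : Set A)
    (F1 F2 : Set (Set (A × A))) (h1 : Extendable r X1 F1) (h2 : Extendable r X2 F2)
    (hZ : ∀ z ∈ X1 ∩ X2, Cond F1 F2 {y | y ∈ X1 ∩ X2 ∧ Orb (F1 ∪ F2) z y}) :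
    Extendable r (X1 ∪ X2) (F1 ∪ F2) := by
  refine ext_comp r hr (X1 ∪ X2) (F1 ∪ F2) ?_ ?_
  · rintro φ (hφ | hφ)
    · exact PA_mono Set.subset_union_left (ext_PA h1 φ hφ)
    · exact PA_mono Set.subset_union_right (ext_PA h2 φ hφ)
  · intro x hx
    let C : Set A := {y | Orb (F1 ∪ F2) x y}
    have hcond : Cond F1 F2 ((X1 ∩ C) ∩ (X2 ∩ C)) := by
      by_cases hne : ((X1 ∩ C) ∩ (X2 ∩ C)).Nonempty
      · obtain ⟨z, ⟨z1, zC⟩, z2, -⟩ := hne
        have e1 : (X1 ∩ C) ∩ (X2 ∩ C) = {y | y ∈ X1 ∩ X2 ∧ Orb (F1 ∪ F2) z y} := by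
          ext y
          constructor
          · rintro ⟨⟨y1, yC⟩, y2, -⟩
            exact ⟨⟨y1, y2⟩, (zC.symm _ _).trans _ _ _ yC⟩
          · rintro ⟨⟨y1, y2⟩, yz⟩
            have yC : Orb (F1 ∪ F2) x y := zC.trans _ _ _ yz
            exact ⟨⟨y1, yC⟩, y2, yC⟩
        rw [e1]
        exact hZ z ⟨z1, z2⟩
      · rw [Set.not_nonempty_iff_eq_empty] at hne
        rw [hne]
        exact Or.inl (by simp)
    have g1 := ext_res h1 C
    have g2 := ext_res h2 C
    have g3 : Extendable r ((X1 ∩ C) ∪ (X2 ∩ C)) (Res C F1 ∪ Res C F2) := by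
      rcases hcond with h | h | h
      · exact (glue_two r hr _ _ h _ _ g1 g2).mono (fun φ hφ => Or.inl hφ)
      · exact (glue_trans r hr _ _ _ _ g1 g2 (h.res C)).mono (fun φ hφ => Or.inl hφ)
      · rw [Set.inter_comm] at h
        rw [Set.union_comm (X1 ∩ C), Set.union_comm (Res C F1)]
        exact (glue_trans r hr _ _ _ _ g2 g1 (h.res C)).mono (fun φ hφ => Or.inl hφ)
    have e2 : {y | y ∈ X1 ∪ X2 ∧ Orb (F1 ∪ F2) x y} = (X1 ∩ C) ∪ (X2 ∩ C) := by
      ext y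
      constructor
      · rintro ⟨y1 | y2, yC⟩
        · exact Or.inl ⟨y1, yC⟩
        · exact Or.inr ⟨y2, yC⟩
      · rintro (⟨y1, yC⟩ | ⟨y2, yC⟩)
        · exact ⟨Or.inl y1, yC⟩
        · exact ⟨Or.inr y2, yC⟩
    rw [e2]
    refine g3.mono ?_
    rintro ψ ⟨φ, hφ | hφ, rfl⟩
    · left
      refine ⟨φ, hφ, ?_⟩
      ext ⟨a, b⟩
      constructor
      · rintro ⟨h3, h4, h5⟩
        exact ⟨h3, h4.elim (fun h => h.2) (fun h => h.2), h5.elim (fun h => h.2) (fun h => h.2)⟩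
      · rintro ⟨h3, h4, h5⟩
        have := (ext_PA h1 φ hφ).2 a b h3
        exact ⟨h3, Or.inl ⟨this.1, h4⟩, Or.inl ⟨this.2, h5⟩⟩
    · right
      refine ⟨φ, hφ, ?_⟩
      ext ⟨a, b⟩
      constructor
      · rintro ⟨h3, h4, h5⟩
        exact ⟨h3, h4.elim (fun h => h.2) (fun h => h.2), h5.elim (fun h => h.2) (fun h => h.2)⟩
      · rintro ⟨h3, h4, h5⟩
        have := (ext_PA h2 φ hφ).2 a b h3
        exact ⟨h3, Or.inr ⟨this.1, h4⟩, Or.inr ⟨this.2, h5⟩⟩

/-- gluing of a sequence of families, orbit by orbit -/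
theorem glue_seq_comp {A : Type} [Finite A] (r : A → A → Prop) (hr : IsTour r) (k : ℕ)
    (X : ℕ → Set A) (F : ℕ → Set (Set (A × A)))
    (hF : ∀ i < k, Extendable r (X i) (F i))
    (hX : ∀ i < k, ∀ z ∈ X i ∩ ⋃ j < i, X j, Cond (F i) (⋃ j < i, F j)
      {y | y ∈ X i ∩ ⋃ j < i, X j ∧ Orb (F i ∪ ⋃ j < i, F j) z y}) :
    Extendable r Set.univ ((⋃ i < k, F i) ∪ Small r Set.univ) := by
  refine ext_univ r hr (⋃ j < k, X j) Set.univ (Set.subset_univ _) _ ?_
  induction k with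
  | zero =>
    simp only [not_lt_zero, Set.iUnion_of_empty, Set.iUnion_empty]
    exact ext_empty r
  | succ k ih =>
    have h1 := ih (fun i hi => hF i (by omega)) (fun i hi => hX i (by omega))
    have h4 := glue_comp r hr _ _ _ _ (hF k (by omega)) h1 (hX k (by omega))
    have e1 : (⋃ j < k + 1, X j) = X k ∪ ⋃ j < k, X j := by
      ext x
      simp only [Set.mem_iUnion, Set.mem_union, Order.lt_add_one_iff, exists_prop]
      constructor
      · rintro ⟨j, hj, hx⟩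
        rcases Nat.lt_or_eq_of_le hj with h | h
        · exact Or.inr ⟨j, h, hx⟩
        · exact Or.inl (h ▸ hx)
      · rintro (hx | ⟨j, hj, hx⟩)
        · exact ⟨k, le_rfl, hx⟩
        · exact ⟨j, by omega, hx⟩
    rw [e1]
    refine h4.mono ?_
    intro φ hφ
    simp only [Set.mem_iUnion, Order.lt_add_one_iff, exists_prop] at hφ
    obtain ⟨j, hj, hφ⟩ := hφ
    rcases Nat.lt_or_eq_of_le hj with h | h
    · exact Or.inr (by simp only [Set.mem_iUnion, exists_prop]; exact ⟨j, h, hφ⟩)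
    · exact Or.inl (h ▸ hφ)

/-- families which are invariant under a group of automorphisms -/
theorem odd_inv {A : Type} [Finite A] (r : A → A → Prop) (hr : IsTour r)
    (H : Subgroup (Equiv.Perm A)) (hH : ∀ h ∈ H, ∀ x y, r x y ↔ r (h x) (h y))
    (F : Set (Set (A × A))) (hF : OddPerm Set.univ F)
    (hinv : ∀ h ∈ H, ∀ φ ∈ F, {p : A × A | (h p.1, h p.2) ∈ φ} ∈ F) :
    OddPerm Set.univ (F ∪ {φ | ∃ h ∈ H, φ = {p : A × A | p.2 = h p.1}}) := by
  classical
  obtain ⟨B, hB, G, hG, e, he, hφ⟩ := hF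
  have hHle : H ≤ Aut r := fun h hh => hH h hh
  have hHodd : Odd (Nat.card H) :=
    Odd.of_dvd_nat (card_aut_odd r hr) (Subgroup.card_dvd_of_le hHle)
  let W := RegularWreathProduct G H
  let ψ : W →* Function.End (H → B) :=
    { toFun := fun k f x => (k.left x).1 (f (k.right⁻¹ * x))
      map_one' := by
        funext f x
        show f ((1 : H)⁻¹ * x) = f x
        rw [inv_one, one_mul]
      map_mul' := by
        intro k k'
        funext f x
        show (k.left x * k'.left (k.right⁻¹ * x)).1 (f ((k.right * k'.right)⁻¹ * x)) =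
          (k.left x).1 ((k'.left (k.right⁻¹ * x)).1 (f (k'.right⁻¹ * (k.right⁻¹ * x))))
        rw [mul_inv_rev, mul_assoc]
        rfl }
  let Ψ : W →* Equiv.Perm (H → B) := ψ.toHomPerm
  have hΨ : ∀ (k : W) (f : H → B) (x : H), Ψ k f x = (k.left x).1 (f (k.right⁻¹ * x)) :=
    fun k f x => rfl
  have hodd : Odd (Nat.card Ψ.range) := by
    have hc : Odd (Nat.card W) := by
      show Odd (Nat.card (RegularWreathProduct G H))
      rw [RegularWreathProduct.card]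
      exact hG.pow.mul hHodd
    exact Odd.of_dvd_nat hc (Subgroup.card_range_dvd Ψ)
  refine ⟨H → B, inferInstance, Ψ.range, hodd, fun a x => e ⟨x.1⁻¹ a.1, trivial⟩, ?_, ?_⟩
  · intro a b hab
    have h1 := congrFun hab 1
    have h2 := Subtype.mk.inj (he h1)
    exact Subtype.ext h2
  · rintro φ (hF | ⟨h, hh, rfl⟩)
    · choose σ hσG hσ using (fun x : H => hφ _ (hinv x.1 x.2 φ hF))
      refine ⟨Ψ ⟨fun x => ⟨σ x, hσG x⟩, 1⟩, ⟨_, rfl⟩, ?_⟩
      intro a b hab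
      refine ⟨trivial, trivial, ?_⟩
      funext x
      rw [hΨ]
      show σ x (e ⟨((1 : H)⁻¹ * x).1⁻¹ a, trivial⟩) = e ⟨x.1⁻¹ b, trivial⟩
      rw [inv_one, one_mul]
      obtain ⟨_, _, h1⟩ := hσ x (x.1⁻¹ a) (x.1⁻¹ b) (by
        show (x.1 (x.1⁻¹ a), x.1 (x.1⁻¹ b)) ∈ φ
        simpa using hab)
      exact h1
    · refine ⟨Ψ ⟨1, ⟨h, hh⟩⟩, ⟨_, rfl⟩, ?_⟩
      intro a b hab
      have hab' : b = h a := hab
      refine ⟨trivial, trivial, ?_⟩
      funext x
      rw [hΨ, hab']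
      show e ⟨((⟨h, hh⟩ : H)⁻¹ * x).1⁻¹ a, trivial⟩ = e ⟨x.1⁻¹ (h a), trivial⟩
      congr 2

/-- families which are invariant under a group of automorphisms -/
theorem ext_inv {A : Type} [Finite A] (r : A → A → Prop) (hr : IsTour r)
    (H : Subgroup (Equiv.Perm A)) (hH : ∀ h ∈ H, ∀ x y, r x y ↔ r (h x) (h y))
    (F : Set (Set (A × A))) (hF : Extendable r Set.univ F)
    (hinv : ∀ h ∈ H, ∀ φ ∈ F, {p : A × A | (h p.1, h p.2) ∈ φ} ∈ F) :
    Extendable r Set.univ ((F ∪ {φ | ∃ h ∈ H, φ = {p : A × A | p.2 = h p.1}}) ∪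
      Small r Set.univ) := by
  refine ext_of_odd r hr _ _ ?_ (odd_inv r hr H hH F (odd_of_ext hF) hinv)
  rintro φ (h1 | ⟨h, hh, rfl⟩)
  · exact ext_PA hF φ h1
  · refine ⟨?_, fun _ _ _ => ⟨trivial, trivial⟩⟩
    intro x y x' y' h1 h2
    have h1' : y = h x := h1
    have h2' : y' = h x' := h2
    subst h1'
    subst h2'
    exact ⟨h.injective.eq_iff.symm, hH h hh x x'⟩

end Pool.Agent.Lib.MP_4e105e_co_forest
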