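import Pool.Agent.Lib.MP_4e105e_co_forest.Poly

/-!
MP_4e105e_co (forest-like families): integer configurations with prescribed signs of bilinear forms.
-/

set_option autoImplicit false

namespace Pool.Agent.Lib.MP_4e105e_co_forest

/-- the bilinear form -/
def bil (x0 x1 x2 y0 y1 y2 : ℤ) : ℤ := (y2 - y0) * (x1 - x0) - (x2 - x0) * (y1 - y0)

theorem dvd_bil (m x0 x1 x2 y0 y1 y2 x0' x1' x2' y0' y1' y2' : ℤ) (a0 : m ∣ x0 - x0')
    (a1 : m ∣ x1 - x1') (a2 : m ∣ x2 - x2') (b0 : m ∣ y0 - y0') (b1 : m ∣ y1 - y1')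
    (b2 : m ∣ y2 - y2') : m ∣ bil x0 x1 x2 y0 y1 y2 - bil x0' x1' x2' y0' y1' y2' := by
  obtain ⟨c0, c0e⟩ := a0
  obtain ⟨c1, c1e⟩ := a1
  obtain ⟨c2, c2e⟩ := a2
  obtain ⟨d0, d0e⟩ := b0
  obtain ⟨d1, d1e⟩ := b1
  obtain ⟨d2, d2e⟩ := b2
  obtain rfl : x0 = x0' + m * c0 := by linarith
  obtain rfl : x1 = x1' + m * c1 := by linarith
  obtain rfl : x2 = x2' + m * c2 := by linarith
  obtain rfl : y0 = y0' + m * d0 := by linarith
  obtain rfl : y1 = y1' + m * d1 := by linarith
  obtain rfl : y2 = y2' + m * d2 := by linarith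
  unfold bil
  exact ⟨(y2' - y0') * (c1 - c0) + (d2 - d0) * (x1' - x0') + m * (d2 - d0) * (c1 - c0)
    - ((x2' - x0') * (d1 - d0) + (c2 - c0) * (y1' - y0') + m * (c2 - c0) * (d1 - d0)), by ring⟩

section

variable {σ1 σ2 : Type}

/-- the value of the form at an assignment -/
def FF (x0 x1 x2 : σ1) (y0 y1 y2 : σ2) (v : σ1 ⊕ σ2 → ℤ) : ℤ :=
  bil (v (Sum.inl x0)) (v (Sum.inl x1)) (v (Sum.inl x2)) (v (Sum.inr y0)) (v (Sum.inr y1))
    (v (Sum.inr y2))

theorem FF_poly (ρ : σ1 ⊕ σ2 → Option ℤ) (x0 x1 x2 : σ1) (y0 y1 y2 : σ2) :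
    IsPoly (fun v => FF x0 x1 x2 y0 y1 y2 (fun s => (ρ s).getD (v s))) := by
  unfold FF bil
  exact (((IsPoly.over ρ _).sub (IsPoly.over ρ _)).mul ((IsPoly.over ρ _).sub (IsPoly.over ρ _))).sub
    (((IsPoly.over ρ _).sub (IsPoly.over ρ _)).mul ((IsPoly.over ρ _).sub (IsPoly.over ρ _)))

/-- free second variables -/
theorem free2 (x0 x1 x2 : σ1) (y0 y1 y2 : σ2) (h01 : y0 ≠ y1) (h02 : y0 ≠ y2) (h12 : y1 ≠ y2)
    (v0 : σ1 ⊕ σ2 → ℤ)
    (hX : v0 (Sum.inl x1) - v0 (Sum.inl x0) ≠ 0 ∨ v0 (Sum.inl x2) - v0 (Sum.inl x0) ≠ 0) :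
    ∃ v, (∀ s, s ≠ Sum.inr y0 → s ≠ Sum.inr y1 → s ≠ Sum.inr y2 → v s = v0 s) ∧
      FF x0 x1 x2 y0 y1 y2 v ≠ 0 := by
  classical
  have key : ∀ c1 c2 : ℤ, ∃ v : σ1 ⊕ σ2 → ℤ,
      (∀ s, s ≠ Sum.inr y0 → s ≠ Sum.inr y1 → s ≠ Sum.inr y2 → v s = v0 s) ∧
      v (Sum.inr y0) = 0 ∧ v (Sum.inr y1) = c1 ∧ v (Sum.inr y2) = c2 := by
    intro c1 c2
    refine ⟨fun s => if s = Sum.inr y0 then 0 else if s = Sum.inr y1 then c1 else
      if s = Sum.inr y2 then c2 else v0 s, ?_, ?_, ?_, ?_⟩
    · intro s h1 h2 h3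
      simp [h1, h2, h3]
    · simp
    · simp [h01.symm]
    · simp [h02.symm, h12.symm]
  rcases hX with hX | hX
  · obtain ⟨v, hv, e0, e1, e2⟩ := key 0 1
    refine ⟨v, hv, ?_⟩
    have a : ∀ x, v (Sum.inl x) = v0 (Sum.inl x) := fun x => hv _ (by simp) (by simp) (by simp)
    unfold FF bil
    rw [e0, e1, e2, a, a, a]
    intro h
    exact hX (by linarith)
  · obtain ⟨v, hv, e0, e1, e2⟩ := key 1 0
    refine ⟨v, hv, ?_⟩
    have a : ∀ x, v (Sum.inl x) = v0 (Sum.inl x) := fun x => hv _ (by simp) (by simp) (by simp)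
    unfold FF bil
    rw [e0, e1, e2, a, a, a]
    intro h
    exact hX (by linarith)

/-- free first variables -/
theorem free1 (x0 x1 x2 : σ1) (y0 y1 y2 : σ2) (h01 : x0 ≠ x1) (h02 : x0 ≠ x2) (h12 : x1 ≠ x2)
    (v0 : σ1 ⊕ σ2 → ℤ)
    (hX : v0 (Sum.inr y1) - v0 (Sum.inr y0) ≠ 0 ∨ v0 (Sum.inr y2) - v0 (Sum.inr y0) ≠ 0) :
    ∃ v, (∀ s, s ≠ Sum.inl x0 → s ≠ Sum.inl x1 → s ≠ Sum.inl x2 → v s = v0 s) ∧
      FF x0 x1 x2 y0 y1 y2 v ≠ 0 := by
  classical
  have key : ∀ c1 c2 : ℤ, ∃ v : σ1 ⊕ σ2 → ℤ,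
      (∀ s, s ≠ Sum.inl x0 → s ≠ Sum.inl x1 → s ≠ Sum.inl x2 → v s = v0 s) ∧
      v (Sum.inl x0) = 0 ∧ v (Sum.inl x1) = c1 ∧ v (Sum.inl x2) = c2 := by
    intro c1 c2
    refine ⟨fun s => if s = Sum.inl x0 then 0 else if s = Sum.inl x1 then c1 else
      if s = Sum.inl x2 then c2 else v0 s, ?_, ?_, ?_, ?_⟩
    · intro s h1 h2 h3
      simp [h1, h2, h3]
    · simp
    · simp [h01.symm]
    · simp [h02.symm, h12.symm]
  rcases hX with hX | hX
  · obtain ⟨v, hv, e0, e1, e2⟩ := key 0 1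
    refine ⟨v, hv, ?_⟩
    have a : ∀ x, v (Sum.inr x) = v0 (Sum.inr x) := fun x => hv _ (by simp) (by simp) (by simp)
    unfold FF bil
    rw [e0, e1, e2, a, a, a]
    intro h
    exact hX (by linarith)
  · obtain ⟨v, hv, e0, e1, e2⟩ := key 1 0
    refine ⟨v, hv, ?_⟩
    have a : ∀ x, v (Sum.inr x) = v0 (Sum.inr x) := fun x => hv _ (by simp) (by simp) (by simp)
    unfold FF bil
    rw [e0, e1, e2, a, a, a]
    intro h
    exact hX (by linarith)

end

/-- the configuration -/
theorem config {σ1 σ2 K : Type} [Finite σ1] [Finite σ2] [Finite K] (R1 : σ1 → σ1 → Prop)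
    (R2 : σ2 → σ2 → Prop) (h1 : ∀ s t, R1 s t → R1 t s → False)
    (h2 : ∀ s t, R2 s t → R2 t s → False) (x0 x1 x2 : K → σ1) (y0 y1 y2 : K → σ2)
    (hx : ∀ k, x0 k ≠ x1 k ∧ x0 k ≠ x2 k ∧ x1 k ≠ x2 k)
    (hy : ∀ k, y0 k ≠ y1 k ∧ y0 k ≠ y2 k ∧ y1 k ≠ y2 k)
    (hK : ∀ k k', k' ≠ k →
      (∀ s, (s = x0 k' ∨ s = x1 k' ∨ s = x2 k') → s ≠ x0 k ∧ s ≠ x1 k ∧ s ≠ x2 k) ∨
      (∀ s, (s = y0 k' ∨ s = y1 k' ∨ s = y2 k') → s ≠ y0 k ∧ s ≠ y1 k ∧ s ≠ y2 k) ∨
      (x0 k' = x0 k ∧ x1 k' = x1 k ∧ y0 k' = y0 k ∧ y1 k' = y1 k ∧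
        ((x2 k' = x2 k ∧ y2 k' ≠ y2 k) ∨ x2 k' ≠ x2 k)))
    (ε : K → ℤˣ) :
    ∃ (u : σ1 → ℤ) (w : σ2 → ℤ) (δ : ℕ → ℤˣ), δ 2 = 1 ∧
      (∀ s t, R1 s t → S δ (u t - u s) = 1) ∧ (∀ s t, R2 s t → S δ (w t - w s) = 1) ∧
      ∀ k, S δ (bil (u (x0 k)) (u (x1 k)) (u (x2 k)) (w (y0 k)) (w (y1 k)) (w (y2 k))) = ε k := by
  classical
  let σ := σ1 ⊕ σ2
  let ι := {p : σ1 × σ1 // R1 p.1 p.2} ⊕ ({p : σ2 × σ2 // R2 p.1 p.2} ⊕ K)
  let f : ι → (σ → ℤ) → ℤ := fun i v => match i with
    | Sum.inl p => v (Sum.inl p.1.2) - v (Sum.inl p.1.1)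
    | Sum.inr (Sum.inl p) => v (Sum.inr p.1.2) - v (Sum.inr p.1.1)
    | Sum.inr (Sum.inr k) => FF (x0 k) (x1 k) (x2 k) (y0 k) (y1 k) (y2 k) v
  -- an injective assignment with values at least 3
  obtain ⟨b, hb3, hbi⟩ : ∃ b : σ → ℤ, (∀ s, 3 ≤ b s) ∧ ∀ s t, b s = b t → s = t := by
    obtain ⟨n, ⟨en⟩⟩ := Finite.exists_equiv_fin σ
    refine ⟨fun s => 3 + ((en s : ℕ) : ℤ), fun s => by
      show (3 : ℤ) ≤ 3 + ((en s : ℕ) : ℤ)
      omega, ?_⟩
    intro s t h
    simp only at h
    exact en.injective (Fin.ext (by omega))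
  have ne1 : ∀ s t, R1 s t → s ≠ t := by
    rintro s t h rfl
    exact h1 s s h h
  have ne2 : ∀ s t, R2 s t → s ≠ t := by
    rintro s t h rfl
    exact h2 s s h h
  -- polynomials
  have hpoly : ∀ (ρ : σ → Option ℤ) (i : ι), IsPoly (fun v => f i (fun s => (ρ s).getD (v s))) := by
    rintro ρ (p | p | k)
    · exact (IsPoly.over ρ _).sub (IsPoly.over ρ _)
    · exact (IsPoly.over ρ _).sub (IsPoly.over ρ _)
    · exact FF_poly ρ _ _ _ _ _ _
  -- reduction to a statement on one index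
  have red : ∀ (Sp : σ → Prop) (v0 : σ → ℤ) (i : ι) (w : σ → ℤ),
      (∀ v : σ → ℤ, (∀ z, Sp z → v z = v0 z) → ∀ t : ℤ, f i (fun s => v s + t * w s) = t) →
      (∀ j, j ≠ i → ∃ v : σ → ℤ, (∀ z, Sp z → v z = v0 z) ∧ f j v ≠ 0) →
      ∃ v w : σ → ℤ, (∀ t : ℤ, f i (fun s => v s + t * w s) = t) ∧ ∀ j, j ≠ i → f j v ≠ 0 := by
    intro Sp v0 i w hw hj
    let ρ : σ → Option ℤ := fun z => if Sp z then some (v0 z) else none
    have hρ : ∀ v : σ → ℤ, ∀ z, Sp z → (ρ z).getD (v z) = v0 z := by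
      intro v z hz
      simp only [ρ, if_pos hz]
      rfl
    have hρ' : ∀ v : σ → ℤ, (∀ z, Sp z → v z = v0 z) → (fun s => (ρ s).getD (v s)) = v := by
      intro v hv
      funext z
      by_cases hz : Sp z
      · rw [hρ v z hz, hv z hz]
      · simp only [ρ, if_neg hz]
        rfl
    obtain ⟨v, hv⟩ := generic (J := {j // j ≠ i})
      (fun j v => f j.1 (fun s => (ρ s).getD (v s))) (fun j => hpoly ρ j.1)
      (fun j => by
        obtain ⟨v, hv, hv'⟩ := hj j.1 j.2
        refine ⟨v, ?_⟩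
        show f j.1 (fun s => (ρ s).getD (v s)) ≠ 0
        rw [hρ' v hv]
        exact hv')
    exact ⟨fun s => (ρ s).getD (v s), w, hw _ (fun z hz => hρ v z hz), fun j hj => hv ⟨j, hj⟩⟩
  obtain ⟨v, δ, hδ2, hS⟩ := signs f (by
    rintro (p | p | k) m v v' h
    · have e : f (Sum.inl p) v - f (Sum.inl p) v' =
          (v (Sum.inl p.1.2) - v' (Sum.inl p.1.2)) - (v (Sum.inl p.1.1) - v' (Sum.inl p.1.1)) := by
        show (v (Sum.inl p.1.2) - v (Sum.inl p.1.1)) - (v' (Sum.inl p.1.2) - v' (Sum.inl p.1.1)) = _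
        ring
      rw [e]
      exact dvd_sub (h _) (h _)
    · have e : f (Sum.inr (Sum.inl p)) v - f (Sum.inr (Sum.inl p)) v' =
          (v (Sum.inr p.1.2) - v' (Sum.inr p.1.2)) - (v (Sum.inr p.1.1) - v' (Sum.inr p.1.1)) := by
        show (v (Sum.inr p.1.2) - v (Sum.inr p.1.1)) - (v' (Sum.inr p.1.2) - v' (Sum.inr p.1.1)) = _
        ring
      rw [e]
      exact dvd_sub (h _) (h _)
    · exact dvd_bil m _ _ _ _ _ _ _ _ _ _ _ _ (h _) (h _) (h _) (h _) (h _) (h _)) (by
    rintro (⟨⟨s, t⟩, hst⟩ | ⟨⟨s, t⟩, hst⟩ | k)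
    · -- an arc in the first part
      replace hst : R1 s t := hst
      have hne := ne1 s t hst
      obtain ⟨v0, e1, e2, e3⟩ : ∃ v0 : σ → ℤ, v0 (Sum.inl s) = 0 ∧ v0 (Sum.inl t) = 0 ∧
          ∀ z, z ≠ Sum.inl s → z ≠ Sum.inl t → v0 z = b z :=
        ⟨fun z => if z = Sum.inl s then 0 else if z = Sum.inl t then 0 else b z, by simp, by simp,
          fun z hz hz' => by simp [hz, hz']⟩
      have inj1 : ∀ z z' : σ1, z ≠ z' → v0 (Sum.inl z) = v0 (Sum.inl z') →
          (z = s ∧ z' = t) ∨ (z = t ∧ z' = s) := by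
        intro z z' hzz h
        by_cases c1 : z = s
        · by_cases c2 : z' = t
          · exact Or.inl ⟨c1, c2⟩
          · rw [c1, e1, e3 _ (fun h => hzz (c1.trans (Sum.inl_injective h).symm))
              (fun h => c2 (Sum.inl_injective h))] at h
            have := hb3 (Sum.inl z')
            omega
        · by_cases c2 : z = t
          · by_cases c3 : z' = s
            · exact Or.inr ⟨c2, c3⟩
            · rw [c2, e2, e3 _ (fun h => c3 (Sum.inl_injective h))
                (fun h => hzz (c2.trans (Sum.inl_injective h).symm))] at h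
              have := hb3 (Sum.inl z')
              omega
          · rw [e3 _ (fun h => c1 (Sum.inl_injective h)) (fun h => c2 (Sum.inl_injective h))] at h
            have h3 := hb3 (Sum.inl z)
            by_cases c3 : z' = s
            · rw [c3, e1] at h; omega
            · by_cases c4 : z' = t
              · rw [c4, e2] at h; omega
              · rw [e3 _ (fun h => c3 (Sum.inl_injective h))
                  (fun h => c4 (Sum.inl_injective h))] at h
                exact absurd (Sum.inl_injective (hbi _ _ h)) hzz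
      have hr : ∀ z : σ2, v0 (Sum.inr z) = b (Sum.inr z) := fun z => e3 _ (by simp) (by simp)
      refine red (fun z => z = Sum.inl s ∨ z = Sum.inl t) v0 (Sum.inl ⟨(s, t), hst⟩)
        (fun z => if z = Sum.inl t then 1 else 0) ?_ ?_
      · intro v hv c
        show (v (Sum.inl t) + c * (if (Sum.inl t : σ) = Sum.inl t then 1 else 0)) -
          (v (Sum.inl s) + c * (if (Sum.inl s : σ) = Sum.inl t then 1 else 0)) = c
        rw [hv _ (Or.inr rfl), hv _ (Or.inl rfl), e1, e2, if_pos rfl,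
          if_neg (fun h => hne (Sum.inl_injective h))]
        ring
      · rintro (⟨⟨s', t'⟩, hst'⟩ | ⟨⟨s', t'⟩, hst'⟩ | k) hj
        · replace hst' : R1 s' t' := hst'
          refine ⟨v0, fun _ _ => rfl, ?_⟩
          show v0 (Sum.inl t') - v0 (Sum.inl s') ≠ 0
          intro h
          rcases inj1 t' s' (ne1 s' t' hst').symm (by linarith) with ⟨rfl, rfl⟩ | ⟨rfl, rfl⟩
          · exact h1 _ _ hst hst'
          · exact hj rfl
        · replace hst' : R2 s' t' := hst'
          refine ⟨v0, fun _ _ => rfl, ?_⟩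
          show v0 (Sum.inr t') - v0 (Sum.inr s') ≠ 0
          rw [hr, hr]
          intro h
          exact ne2 s' t' hst' (Sum.inr_injective (hbi _ _ (by linarith)))
        · obtain ⟨y01, y02, y12⟩ := hy k
          obtain ⟨x01, x02, x12⟩ := hx k
          obtain ⟨v, hv, hF⟩ := free2 (x0 k) (x1 k) (x2 k) (y0 k) (y1 k) (y2 k) y01 y02 y12 v0 (by
            by_contra hcon
            push Not at hcon
            obtain ⟨c1, c2⟩ := hcon
            rcases inj1 (x1 k) (x0 k) x01.symm (by linarith) with ⟨a1, a2⟩ | ⟨a1, a2⟩ <;>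
            rcases inj1 (x2 k) (x0 k) x02.symm (by linarith) with ⟨a3, a4⟩ | ⟨a3, a4⟩
            · exact x12 (a1.trans a3.symm)
            · exact hne (a4.symm.trans a2)
            · exact hne (a2.symm.trans a4)
            · exact x12 (a1.trans a3.symm))
          refine ⟨v, ?_, hF⟩
          rintro z (rfl | rfl)
          · exact hv _ (by simp) (by simp) (by simp)
          · exact hv _ (by simp) (by simp) (by simp)
    · -- an arc in the second part
      replace hst : R2 s t := hst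
      have hne := ne2 s t hst
      obtain ⟨v0, e1, e2, e3⟩ : ∃ v0 : σ → ℤ, v0 (Sum.inr s) = 0 ∧ v0 (Sum.inr t) = 0 ∧
          ∀ z, z ≠ Sum.inr s → z ≠ Sum.inr t → v0 z = b z :=
        ⟨fun z => if z = Sum.inr s then 0 else if z = Sum.inr t then 0 else b z, by simp, by simp,
          fun z hz hz' => by simp [hz, hz']⟩
      have inj1 : ∀ z z' : σ2, z ≠ z' → v0 (Sum.inr z) = v0 (Sum.inr z') →
          (z = s ∧ z' = t) ∨ (z = t ∧ z' = s) := by
        intro z z' hzz h
        by_cases c1 : z = s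
        · by_cases c2 : z' = t
          · exact Or.inl ⟨c1, c2⟩
          · rw [c1, e1, e3 _ (fun h => hzz (c1.trans (Sum.inr_injective h).symm))
              (fun h => c2 (Sum.inr_injective h))] at h
            have := hb3 (Sum.inr z')
            omega
        · by_cases c2 : z = t
          · by_cases c3 : z' = s
            · exact Or.inr ⟨c2, c3⟩
            · rw [c2, e2, e3 _ (fun h => c3 (Sum.inr_injective h))
                (fun h => hzz (c2.trans (Sum.inr_injective h).symm))] at h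
              have := hb3 (Sum.inr z')
              omega
          · rw [e3 _ (fun h => c1 (Sum.inr_injective h)) (fun h => c2 (Sum.inr_injective h))] at h
            have h3 := hb3 (Sum.inr z)
            by_cases c3 : z' = s
            · rw [c3, e1] at h; omega
            · by_cases c4 : z' = t
              · rw [c4, e2] at h; omega
              · rw [e3 _ (fun h => c3 (Sum.inr_injective h))
                  (fun h => c4 (Sum.inr_injective h))] at h
                exact absurd (Sum.inr_injective (hbi _ _ h)) hzz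
      have hr : ∀ z : σ1, v0 (Sum.inl z) = b (Sum.inl z) := fun z => e3 _ (by simp) (by simp)
      refine red (fun z => z = Sum.inr s ∨ z = Sum.inr t) v0 (Sum.inr (Sum.inl ⟨(s, t), hst⟩))
        (fun z => if z = Sum.inr t then 1 else 0) ?_ ?_
      · intro v hv c
        show (v (Sum.inr t) + c * (if (Sum.inr t : σ) = Sum.inr t then 1 else 0)) -
          (v (Sum.inr s) + c * (if (Sum.inr s : σ) = Sum.inr t then 1 else 0)) = c
        rw [hv _ (Or.inr rfl), hv _ (Or.inl rfl), e1, e2, if_pos rfl,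
          if_neg (fun h => hne (Sum.inr_injective h))]
        ring
      · rintro (⟨⟨s', t'⟩, hst'⟩ | ⟨⟨s', t'⟩, hst'⟩ | k) hj
        · replace hst' : R1 s' t' := hst'
          refine ⟨v0, fun _ _ => rfl, ?_⟩
          show v0 (Sum.inl t') - v0 (Sum.inl s') ≠ 0
          rw [hr, hr]
          intro h
          exact ne1 s' t' hst' (Sum.inl_injective (hbi _ _ (by linarith)))
        · replace hst' : R2 s' t' := hst'
          refine ⟨v0, fun _ _ => rfl, ?_⟩
          show v0 (Sum.inr t') - v0 (Sum.inr s') ≠ 0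
          intro h
          rcases inj1 t' s' (ne2 s' t' hst').symm (by linarith) with ⟨rfl, rfl⟩ | ⟨rfl, rfl⟩
          · exact h2 _ _ hst hst'
          · exact hj rfl
        · obtain ⟨y01, y02, y12⟩ := hy k
          obtain ⟨x01, x02, x12⟩ := hx k
          obtain ⟨v, hv, hF⟩ := free1 (x0 k) (x1 k) (x2 k) (y0 k) (y1 k) (y2 k) x01 x02 x12 v0 (by
            by_contra hcon
            push Not at hcon
            obtain ⟨c1, c2⟩ := hcon
            rcases inj1 (y1 k) (y0 k) y01.symm (by linarith) with ⟨a1, a2⟩ | ⟨a1, a2⟩ <;>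
            rcases inj1 (y2 k) (y0 k) y02.symm (by linarith) with ⟨a3, a4⟩ | ⟨a3, a4⟩
            · exact y12 (a1.trans a3.symm)
            · exact hne (a4.symm.trans a2)
            · exact hne (a2.symm.trans a4)
            · exact y12 (a1.trans a3.symm))
          refine ⟨v, ?_, hF⟩
          rintro z (rfl | rfl)
          · exact hv _ (by simp) (by simp) (by simp)
          · exact hv _ (by simp) (by simp) (by simp)
    · -- a mixed pair
      obtain ⟨x01, x02, x12⟩ := hx k
      obtain ⟨y01, y02, y12⟩ := hy k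
      obtain ⟨V1, a0, a1, a2, a3⟩ : ∃ V : σ1 → ℤ, V (x0 k) = 0 ∧ V (x1 k) = 1 ∧ V (x2 k) = 2 ∧
          ∀ z, z ≠ x0 k → z ≠ x1 k → z ≠ x2 k → V z = b (Sum.inl z) :=
        ⟨fun z => if z = x0 k then 0 else if z = x1 k then 1 else if z = x2 k then 2 else
          b (Sum.inl z), by simp, by simp [x01.symm], by simp [x02.symm, x12.symm],
          fun z h h' h'' => by simp [h, h', h'']⟩
      obtain ⟨V2, b0, b1, b2, b3⟩ : ∃ V : σ2 → ℤ, V (y0 k) = 0 ∧ V (y1 k) = 1 ∧ V (y2 k) = 2 ∧
          ∀ z, z ≠ y0 k → z ≠ y1 k → z ≠ y2 k → V z = b (Sum.inr z) :=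
        ⟨fun z => if z = y0 k then 0 else if z = y1 k then 1 else if z = y2 k then 2 else
          b (Sum.inr z), by simp, by simp [y01.symm], by simp [y02.symm, y12.symm],
          fun z h h' h'' => by simp [h, h', h'']⟩
      have i1 : ∀ z z', V1 z = V1 z' → z = z' := by
        intro z z' h
        have t1 : (z = x0 k ∧ V1 z = 0) ∨ (z = x1 k ∧ V1 z = 1) ∨ (z = x2 k ∧ V1 z = 2) ∨
            (V1 z = b (Sum.inl z)) := by
          by_cases c0 : z = x0 k
          · exact Or.inl ⟨c0, by rw [c0, a0]⟩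
          · by_cases c1 : z = x1 k
            · exact Or.inr (Or.inl ⟨c1, by rw [c1, a1]⟩)
            · by_cases c2 : z = x2 k
              · exact Or.inr (Or.inr (Or.inl ⟨c2, by rw [c2, a2]⟩))
              · exact Or.inr (Or.inr (Or.inr (a3 z c0 c1 c2)))
        have t2 : (z' = x0 k ∧ V1 z' = 0) ∨ (z' = x1 k ∧ V1 z' = 1) ∨ (z' = x2 k ∧ V1 z' = 2) ∨
            (V1 z' = b (Sum.inl z')) := by
          by_cases c0 : z' = x0 k
          · exact Or.inl ⟨c0, by rw [c0, a0]⟩
          · by_cases c1 : z' = x1 k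
            · exact Or.inr (Or.inl ⟨c1, by rw [c1, a1]⟩)
            · by_cases c2 : z' = x2 k
              · exact Or.inr (Or.inr (Or.inl ⟨c2, by rw [c2, a2]⟩))
              · exact Or.inr (Or.inr (Or.inr (a3 z' c0 c1 c2)))
        have hz := hb3 (Sum.inl z)
        have hz' := hb3 (Sum.inl z')
        rcases t1 with ⟨c, d⟩ | ⟨c, d⟩ | ⟨c, d⟩ | d <;>
        rcases t2 with ⟨c', d'⟩ | ⟨c', d'⟩ | ⟨c', d'⟩ | d' <;>
        first
          | exact c.trans c'.symm
          | (exfalso; omega)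
          | exact Sum.inl_injective (hbi _ _ (by rw [← d, ← d', h]))
      have i2 : ∀ z z', V2 z = V2 z' → z = z' := by
        intro z z' h
        have t1 : (z = y0 k ∧ V2 z = 0) ∨ (z = y1 k ∧ V2 z = 1) ∨ (z = y2 k ∧ V2 z = 2) ∨
            (V2 z = b (Sum.inr z)) := by
          by_cases c0 : z = y0 k
          · exact Or.inl ⟨c0, by rw [c0, b0]⟩
          · by_cases c1 : z = y1 k
            · exact Or.inr (Or.inl ⟨c1, by rw [c1, b1]⟩)
            · by_cases c2 : z = y2 k
              · exact Or.inr (Or.inr (Or.inl ⟨c2, by rw [c2, b2]⟩))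
              · exact Or.inr (Or.inr (Or.inr (b3 z c0 c1 c2)))
        have t2 : (z' = y0 k ∧ V2 z' = 0) ∨ (z' = y1 k ∧ V2 z' = 1) ∨ (z' = y2 k ∧ V2 z' = 2) ∨
            (V2 z' = b (Sum.inr z')) := by
          by_cases c0 : z' = y0 k
          · exact Or.inl ⟨c0, by rw [c0, b0]⟩
          · by_cases c1 : z' = y1 k
            · exact Or.inr (Or.inl ⟨c1, by rw [c1, b1]⟩)
            · by_cases c2 : z' = y2 k
              · exact Or.inr (Or.inr (Or.inl ⟨c2, by rw [c2, b2]⟩))
              · exact Or.inr (Or.inr (Or.inr (b3 z' c0 c1 c2)))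
        have hz := hb3 (Sum.inr z)
        have hz' := hb3 (Sum.inr z')
        rcases t1 with ⟨c, d⟩ | ⟨c, d⟩ | ⟨c, d⟩ | d <;>
        rcases t2 with ⟨c', d'⟩ | ⟨c', d'⟩ | ⟨c', d'⟩ | d' <;>
        first
          | exact c.trans c'.symm
          | (exfalso; omega)
          | exact Sum.inr_injective (hbi _ _ (by rw [← d, ← d', h]))
      refine red (fun z => z = Sum.inl (x0 k) ∨ z = Sum.inl (x1 k) ∨ z = Sum.inl (x2 k) ∨
        z = Sum.inr (y0 k) ∨ z = Sum.inr (y1 k) ∨ z = Sum.inr (y2 k)) (Sum.elim V1 V2)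
        (Sum.inr (Sum.inr k)) (fun z => if z = Sum.inr (y2 k) then 1 else 0) ?_ ?_
      · intro v hv c
        have p0 : v (Sum.inl (x0 k)) = 0 := (hv _ (Or.inl rfl)).trans a0
        have p1 : v (Sum.inl (x1 k)) = 1 := (hv _ (Or.inr (Or.inl rfl))).trans a1
        have p2 : v (Sum.inl (x2 k)) = 2 := (hv _ (Or.inr (Or.inr (Or.inl rfl)))).trans a2
        have q0 : v (Sum.inr (y0 k)) = 0 := (hv _ (Or.inr (Or.inr (Or.inr (Or.inl rfl))))).trans b0
        have q1 : v (Sum.inr (y1 k)) = 1 :=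
          (hv _ (Or.inr (Or.inr (Or.inr (Or.inr (Or.inl rfl)))))).trans b1
        have q2 : v (Sum.inr (y2 k)) = 2 :=
          (hv _ (Or.inr (Or.inr (Or.inr (Or.inr (Or.inr rfl)))))).trans b2
        show bil (v (Sum.inl (x0 k)) + c * (if (Sum.inl (x0 k) : σ) = Sum.inr (y2 k) then 1 else 0))
          (v (Sum.inl (x1 k)) + c * (if (Sum.inl (x1 k) : σ) = Sum.inr (y2 k) then 1 else 0))
          (v (Sum.inl (x2 k)) + c * (if (Sum.inl (x2 k) : σ) = Sum.inr (y2 k) then 1 else 0))
          (v (Sum.inr (y0 k)) + c * (if (Sum.inr (y0 k) : σ) = Sum.inr (y2 k) then 1 else 0))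
          (v (Sum.inr (y1 k)) + c * (if (Sum.inr (y1 k) : σ) = Sum.inr (y2 k) then 1 else 0))
          (v (Sum.inr (y2 k)) + c * (if (Sum.inr (y2 k) : σ) = Sum.inr (y2 k) then 1 else 0)) = c
        rw [p0, p1, p2, q0, q1, q2, if_neg (by simp), if_neg (by simp), if_neg (by simp),
          if_neg (fun h => y02 (Sum.inr_injective h)), if_neg (fun h => y12 (Sum.inr_injective h)),
          if_pos rfl]
        unfold bil
        ring
      · rintro (⟨⟨s', t'⟩, hst'⟩ | ⟨⟨s', t'⟩, hst'⟩ | k') hj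
        · replace hst' : R1 s' t' := hst'
          refine ⟨Sum.elim V1 V2, fun _ _ => rfl, ?_⟩
          show V1 t' - V1 s' ≠ 0
          intro h
          exact ne1 s' t' hst' (i1 _ _ (by linarith))
        · replace hst' : R2 s' t' := hst'
          refine ⟨Sum.elim V1 V2, fun _ _ => rfl, ?_⟩
          show V2 t' - V2 s' ≠ 0
          intro h
          exact ne2 s' t' hst' (i2 _ _ (by linarith))
        · have hkk : k' ≠ k := fun h => hj (by rw [h])
          obtain ⟨x01', x02', x12'⟩ := hx k'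
          obtain ⟨y01', y02', y12'⟩ := hy k'
          rcases hK k k' hkk with hA | hB | ⟨g0, g1, g2, g3, g4⟩
          · obtain ⟨v, hv, hF⟩ := free1 (x0 k') (x1 k') (x2 k') (y0 k') (y1 k') (y2 k')
              x01' x02' x12' (Sum.elim V1 V2) (Or.inl (by
                show V2 (y1 k') - V2 (y0 k') ≠ 0
                intro h
                exact y01' (i2 _ _ (by linarith))))
            refine ⟨v, ?_, hF⟩
            have A0 := hA (x0 k') (Or.inl rfl)
            have A1 := hA (x1 k') (Or.inr (Or.inl rfl))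
            have A2 := hA (x2 k') (Or.inr (Or.inr rfl))
            rintro z (rfl | rfl | rfl | rfl | rfl | rfl)
            · exact hv _ (fun h => A0.1 (Sum.inl_injective h).symm)
                (fun h => A1.1 (Sum.inl_injective h).symm) (fun h => A2.1 (Sum.inl_injective h).symm)
            · exact hv _ (fun h => A0.2.1 (Sum.inl_injective h).symm)
                (fun h => A1.2.1 (Sum.inl_injective h).symm)
                (fun h => A2.2.1 (Sum.inl_injective h).symm)
            · exact hv _ (fun h => A0.2.2 (Sum.inl_injective h).symm)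
                (fun h => A1.2.2 (Sum.inl_injective h).symm)
                (fun h => A2.2.2 (Sum.inl_injective h).symm)
            · exact hv _ (by simp) (by simp) (by simp)
            · exact hv _ (by simp) (by simp) (by simp)
            · exact hv _ (by simp) (by simp) (by simp)
          · obtain ⟨v, hv, hF⟩ := free2 (x0 k') (x1 k') (x2 k') (y0 k') (y1 k') (y2 k')
              y01' y02' y12' (Sum.elim V1 V2) (Or.inl (by
                show V1 (x1 k') - V1 (x0 k') ≠ 0
                intro h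
                exact x01' (i1 _ _ (by linarith))))
            refine ⟨v, ?_, hF⟩
            have A0 := hB (y0 k') (Or.inl rfl)
            have A1 := hB (y1 k') (Or.inr (Or.inl rfl))
            have A2 := hB (y2 k') (Or.inr (Or.inr rfl))
            rintro z (rfl | rfl | rfl | rfl | rfl | rfl)
            · exact hv _ (by simp) (by simp) (by simp)
            · exact hv _ (by simp) (by simp) (by simp)
            · exact hv _ (by simp) (by simp) (by simp)
            · exact hv _ (fun h => A0.1 (Sum.inr_injective h).symm)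
                (fun h => A1.1 (Sum.inr_injective h).symm) (fun h => A2.1 (Sum.inr_injective h).symm)
            · exact hv _ (fun h => A0.2.1 (Sum.inr_injective h).symm)
                (fun h => A1.2.1 (Sum.inr_injective h).symm)
                (fun h => A2.2.1 (Sum.inr_injective h).symm)
            · exact hv _ (fun h => A0.2.2 (Sum.inr_injective h).symm)
                (fun h => A1.2.2 (Sum.inr_injective h).symm)
                (fun h => A2.2.2 (Sum.inr_injective h).symm)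
          · refine ⟨Sum.elim V1 V2, fun _ _ => rfl, ?_⟩
            show bil (V1 (x0 k')) (V1 (x1 k')) (V1 (x2 k')) (V2 (y0 k')) (V2 (y1 k'))
              (V2 (y2 k')) ≠ 0
            rw [g0, g1, g2, g3, a0, a1, b0, b1]
            have q0 : y2 k' ≠ y0 k := fun h => y02' (g2.trans h.symm)
            have q1 : y2 k' ≠ y1 k := fun h => y12' (g3.trans h.symm)
            have p0 : x2 k' ≠ x0 k := fun h => x02' (g0.trans h.symm)
            have p1 : x2 k' ≠ x1 k := fun h => x12' (g1.trans h.symm)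
            have B1 := hb3 (Sum.inl (x2 k'))
            have B2 := hb3 (Sum.inr (y2 k'))
            unfold bil
            intro h
            have h' : V2 (y2 k') = V1 (x2 k') := by linarith
            rcases g4 with ⟨g4, g5⟩ | g4
            · rw [g4, a2, b3 _ q0 q1 g5] at h'
              omega
            · rw [a3 _ p0 p1 g4] at h'
              by_cases g5 : y2 k' = y2 k
              · rw [g5, b2] at h'
                omega
              · rw [b3 _ q0 q1 g5] at h'
                have := hbi _ _ h'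
                simp at this)
    (fun i => match i with
      | Sum.inl _ => 1
      | Sum.inr (Sum.inl _) => 1
      | Sum.inr (Sum.inr k) => ε k)
  refine ⟨fun s => v (Sum.inl s), fun s => v (Sum.inr s), δ, hδ2, ?_, ?_, ?_⟩
  · intro s t h
    exact hS (Sum.inl ⟨(s, t), h⟩)
  · intro s t h
    exact hS (Sum.inr (Sum.inl ⟨(s, t), h⟩))
  · intro k
    exact hS (Sum.inr (Sum.inr k))

end Pool.Agent.Lib.MP_4e105e_co_forest
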