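import Pool.Agent.Lib.MP_4e105e_co_forest.Trans

/-!
MP_4e105e_co (gluing of extendable families): one partial automorphism of a finite tournament
extends to an automorphism of a finite tournament; fixed vertices.
-/

set_option autoImplicit false

namespace Pool.Agent.Lib.MP_4e105e_co_forest

/-- invariant tournaments containing a given relation -/
theorem inv_tour {B : Type} [Finite B] (τ : Equiv.Perm B) (m : ℕ) (hm : Odd m) (hτ : τ ^ m = 1)
    (P : B → B → Prop) (hP : ∀ x y, P x y ↔ P (τ x) (τ y)) (hanti : ∀ x y, P x y → P y x → False) :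
    ∃ s : B → B → Prop, IsTour s ∧ (∀ x y, P x y → s x y) ∧ ∀ x y, s x y ↔ s (τ x) (τ y) := by
  classical
  let st : Setoid (B × B) := ⟨fun x y => ∃ n : ℤ, y = ((τ ^ n) x.1, (τ ^ n) x.2), by
    refine ⟨fun x => ⟨0, by simp⟩, ?_, ?_⟩
    · rintro x y ⟨n, rfl⟩
      exact ⟨-n, by simp⟩
    · rintro x y z ⟨n, rfl⟩ ⟨n', rfl⟩
      exact ⟨n' + n, by simp [zpow_add]⟩⟩
  obtain ⟨N, ⟨en⟩⟩ := Finite.exists_equiv_fin (Quotient st)
  let cls : B × B → ℕ := fun x => (en (Quotient.mk st x) : ℕ)
  have hcls : ∀ x y : B × B, (∃ n : ℤ, y = ((τ ^ n) x.1, (τ ^ n) x.2)) → cls x = cls y := by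
    intro x y h
    show (en (Quotient.mk st x) : ℕ) = en (Quotient.mk st y)
    rw [Quotient.sound (s := st) h]
  have hcls' : ∀ x y : B × B, cls x = cls y → ∃ n : ℤ, y = ((τ ^ n) x.1, (τ ^ n) x.2) := by
    intro x y h
    exact Quotient.exact (s := st) (en.injective (Fin.ext h))
  have hswap : ∀ x y : B, cls (x, y) = cls (y, x) → x = y := by
    intro x y h
    obtain ⟨n, hn⟩ := hcls' _ _ h
    have h1 : (τ ^ n) x = y := (congrArg Prod.fst hn).symm
    have h2 : (τ ^ n) y = x := (congrArg Prod.snd hn).symm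
    obtain ⟨k, hk⟩ := hm
    have h3 : (τ ^ (n * m)) x = x := by
      rw [mul_comm, zpow_mul, zpow_natCast, hτ, one_zpow]
      rfl
    have h4 : ∀ j : ℕ, (τ ^ (n * (2 * (j : ℤ)))) x = x := by
      intro j
      induction j with
      | zero => simp
      | succ j ih =>
        have e : n * (2 * ((j + 1 : ℕ) : ℤ)) = n + (n + n * (2 * (j : ℤ))) := by push_cast; ring
        rw [e, zpow_add, zpow_add, Equiv.Perm.mul_apply, Equiv.Perm.mul_apply, ih, h1, h2]
    have h5 : (τ ^ (n * m)) x = y := by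
      have e : n * (m : ℤ) = n + n * (2 * (k : ℤ)) := by rw [hk]; push_cast; ring
      rw [e, zpow_add, Equiv.Perm.mul_apply, h4, h1]
    rw [← h3, h5]
  let s : B → B → Prop := fun v w => v ≠ w ∧ (P v w ∨ (¬ P w v ∧ cls (v, w) < cls (w, v)))
  refine ⟨s, ⟨fun v h => h.1 rfl, ?_⟩, ?_, ?_⟩
  · intro v w hvw
    have hne : cls (v, w) ≠ cls (w, v) := fun h => hvw (hswap v w h)
    by_cases h1 : P v w
    · have h2 : ¬ P w v := fun h => hanti v w h1 h
      constructor
      · rintro - ⟨-, h | ⟨h, -⟩⟩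
        · exact h2 h
        · exact h h1
      · intro _
        exact ⟨hvw, Or.inl h1⟩
    · by_cases h2 : P w v
      · constructor
        · rintro ⟨-, h | ⟨h, -⟩⟩
          · exact absurd h h1
          · exact absurd h2 h
        · intro h
          exact absurd ⟨hvw.symm, Or.inl h2⟩ h
      · constructor
        · rintro ⟨-, h | ⟨-, h⟩⟩
          · exact absurd h h1
          · rintro ⟨-, h' | ⟨-, h'⟩⟩
            · exact h2 h'
            · omega
        · intro h
          refine ⟨hvw, Or.inr ⟨h2, ?_⟩⟩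
          by_contra hlt
          exact h ⟨hvw.symm, Or.inr ⟨h1, by omega⟩⟩
  · intro x y h
    refine ⟨?_, Or.inl h⟩
    rintro rfl
    exact hanti x x h h
  · intro v w
    have h1 : ∀ v w, cls (τ v, τ w) = cls (v, w) := by
      intro v w
      exact (hcls (v, w) (τ v, τ w) ⟨1, by simp⟩).symm
    show (v ≠ w ∧ (P v w ∨ (¬ P w v ∧ cls (v, w) < cls (w, v)))) ↔
      (τ v ≠ τ w ∧ (P (τ v) (τ w) ∨ (¬ P (τ w) (τ v) ∧ cls (τ v, τ w) < cls (τ w, τ v))))
    rw [← hP v w, ← hP w v, h1, h1]
    have h2 : v ≠ w ↔ τ v ≠ τ w := by rw [Ne, Ne, τ.injective.eq_iff]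
    rw [← h2]

section

variable {A : Type} {r : A → A → Prop} {D : Set A} {f : A → A}

/-- `f` moves `a` to `b` in `n` steps inside the domain `D` -/
def Path (D : Set A) (f : A → A) (n : ℕ) (a b : A) : Prop := (∀ i < n, f^[i] a ∈ D) ∧ f^[n] a = b

theorem inj_of_pres (hr : IsTour r) (hf : ∀ x ∈ D, ∀ y ∈ D, r x y → r (f x) (f y)) :
    ∀ x ∈ D, ∀ y ∈ D, f x = f y → x = y := by
  intro x hx y hy h
  by_contra hne
  by_cases h1 : r x y
  · have := hf x hx y hy h1
    rw [h] at this
    exact hr.1 _ this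
  · have h2 : r y x := by
      by_contra h2
      exact h1 ((hr.2 x y hne).mpr h2)
    have := hf y hy x hx h2
    rw [h] at this
    exact hr.1 _ this

theorem Path.pres (hf : ∀ x ∈ D, ∀ y ∈ D, r x y → r (f x) (f y)) :
    ∀ (n : ℕ) (a b a' b' : A), Path D f n a a' → Path D f n b b' → r a b → r a' b' := by
  intro n
  induction n with
  | zero =>
    intro a b a' b' h1 h2 h
    rw [← h1.2, ← h2.2]
    exact h
  | succ n ih =>
    intro a b a' b' h1 h2 h
    refine ih (f a) (f b) a' b' ⟨fun i hi => ?_, ?_⟩ ⟨fun i hi => ?_, ?_⟩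
      (hf a (h1.1 0 (by omega)) b (h2.1 0 (by omega)) h)
    · rw [← Function.iterate_succ_apply]; exact h1.1 (i + 1) (by omega)
    · rw [← Function.iterate_succ_apply]; exact h1.2
    · rw [← Function.iterate_succ_apply]; exact h2.1 (i + 1) (by omega)
    · rw [← Function.iterate_succ_apply]; exact h2.2

theorem Path.inj (hfi : ∀ x ∈ D, ∀ y ∈ D, f x = f y → x = y) :
    ∀ (n : ℕ) (a b c : A), Path D f n a c → Path D f n b c → a = b := by
  intro n
  induction n with
  | zero =>
    intro a b c h1 h2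
    exact h1.2.trans h2.2.symm
  | succ n ih =>
    intro a b c h1 h2
    refine hfi a (h1.1 0 (by omega)) b (h2.1 0 (by omega))
      (ih (f a) (f b) c ⟨fun i hi => ?_, ?_⟩ ⟨fun i hi => ?_, ?_⟩)
    · rw [← Function.iterate_succ_apply]; exact h1.1 (i + 1) (by omega)
    · rw [← Function.iterate_succ_apply]; exact h1.2
    · rw [← Function.iterate_succ_apply]; exact h2.1 (i + 1) (by omega)
    · rw [← Function.iterate_succ_apply]; exact h2.2

/-- exit times -/
noncomputable def ext (D : Set A) (f : A → A) (a : A) : ℕ := sInf {n | f^[n] a ∉ D}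

theorem ext_lt {a : A} {i : ℕ} (h : i < ext D f a) : f^[i] a ∈ D := by
  by_contra hc
  exact Nat.notMem_of_lt_sInf h hc

theorem ext_spec {a : A} (h : ∃ n, f^[n] a ∉ D) : f^[ext D f a] a ∉ D :=
  Nat.sInf_mem (s := {n | f^[n] a ∉ D}) h

theorem ext_unique {a : A} {n : ℕ} (h1 : ∀ i < n, f^[i] a ∈ D) (h2 : f^[n] a ∉ D) :
    ext D f a = n := by
  rcases Nat.lt_trichotomy (ext D f a) n with h | h | h
  · exact absurd (h1 _ h) (ext_spec ⟨n, h2⟩)
  · exact h
  · exact absurd (ext_lt h) h2

theorem ext_iter {a : A} (h : ∃ n, f^[n] a ∉ D) {i : ℕ} (hi : i ≤ ext D f a) :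
    ext D f (f^[i] a) = ext D f a - i := by
  refine ext_unique ?_ ?_
  · intro j hj
    rw [← Function.iterate_add_apply]
    exact ext_lt (by omega)
  · rw [← Function.iterate_add_apply]
    have e : ext D f a - i + i = ext D f a := by omega
    rw [e]
    exact ext_spec h

theorem ext_card [Finite A] {a : A} (h : ∃ n, f^[n] a ∉ D) : ext D f a < Nat.card A := by
  have hinj : Function.Injective (fun i : Fin (ext D f a + 1) => f^[i.1] a) := by
    intro i j hij
    have h1 := ext_iter h (i := i.1) (by omega)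
    have h2 := ext_iter h (i := j.1) (by omega)
    simp only at hij
    rw [hij, h2] at h1
    exact Fin.ext (by omega)
  have := Nat.card_le_card_of_injective _ hinj
  rw [Nat.card_fin] at this
  omega

end

/-- 1-EPPA for finite tournaments -/
theorem single_univ {A : Type} [Finite A] (r : A → A → Prop) (hr : IsTour r) (D : Set A)
    (f : A → A) (hf : ∀ x ∈ D, ∀ y ∈ D, r x y → r (f x) (f y)) :
    ∃ (B : Type) (_ : Finite B) (s : B → B → Prop), IsTour s ∧ ∃ e : A → B,
      Function.Injective e ∧ (∀ x y : A, r x y ↔ s (e x) (e y)) ∧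
      ∃ σ : B ≃ B, (∀ x y, s x y ↔ s (σ x) (σ y)) ∧ ∀ x ∈ D, σ (e x) = e (f x) := by
  classical
  have hfi := inj_of_pres hr hf
  let C : Set A := {a | ∀ n, f^[n] a ∈ D}
  have hCD : ∀ a ∈ C, a ∈ D := fun a ha => ha 0
  have hCf : ∀ a ∈ C, f a ∈ C := fun a ha n => by
    rw [← Function.iterate_succ_apply]; exact ha (n + 1)
  have hCi : ∀ a ∈ C, ∀ n, f^[n] a ∈ C := by
    intro a ha n j
    rw [← Function.iterate_add_apply]
    exact ha _
  have hnC : ∀ a, a ∉ C → ∃ n, f^[n] a ∉ D := by
    intro a ha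
    by_contra h
    push Not at h
    exact ha h
  let fC : C → C := fun a => ⟨f a.1, hCf a.1 a.2⟩
  have hfC : Function.Injective fC := by
    intro a b h
    exact Subtype.ext (hfi a.1 (hCD _ a.2) b.1 (hCD _ b.2) (congrArg Subtype.val h))
  let τC : Equiv.Perm C := Equiv.ofBijective fC (Finite.injective_iff_bijective.mp hfC)
  have hτC : ∀ n : ℕ, ∀ c : C, ((τC ^ n) c).1 = f^[n] c.1 := by
    intro n
    induction n with
    | zero => intro c; rfl
    | succ n ih =>
      intro c
      rw [pow_succ, Equiv.Perm.mul_apply, ih, Function.iterate_succ_apply]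
      rfl
  let rC : C → C → Prop := fun a b => r a.1 b.1
  have hrC : IsTour rC := ⟨fun a => hr.1 a.1, fun a b hab => hr.2 a.1 b.1 (fun h => hab (Subtype.ext h))⟩
  have hmem : τC ∈ Aut rC := by
    rw [mem_Aut]
    intro x y
    have h1 : ∀ x y : C, rC x y → rC (τC x) (τC y) := fun x y h =>
      hf x.1 (hCD _ x.2) y.1 (hCD _ y.2) h
    refine ⟨h1 x y, fun h => ?_⟩
    have hxy : x ≠ y := by
      rintro rfl
      exact hrC.1 _ h
    rw [hrC.2 x y hxy]
    intro h2
    have h3 := h1 y x h2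
    exact (hrC.2 _ _ (fun e => hxy (τC.injective e))).mp h h3
  have hodd : Odd (orderOf (⟨τC, hmem⟩ : Aut rC)) := aut_odd rC hrC _
  rw [Subgroup.orderOf_mk] at hodd
  obtain ⟨N, hN⟩ : ∃ N, N = Nat.card A := ⟨_, rfl⟩
  obtain ⟨m, hm⟩ : ∃ m, m = (2 * N + 1) * orderOf τC := ⟨_, rfl⟩
  have hmodd : Odd m := by
    rw [hm]
    exact Odd.mul ⟨N, rfl⟩ hodd
  have hmN : 2 * N < m := by
    have h1 : 0 < orderOf τC := hodd.pos
    rw [hm]
    nlinarith
  have : NeZero m := ⟨by omega⟩
  have hτm : τC ^ m = 1 := by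
    rw [hm, mul_comm, pow_mul, pow_orderOf_eq_one, one_pow]
  let B := C ⊕ ({z : A // z ∉ D} × ZMod m)
  let τ : Equiv.Perm B := Equiv.sumCongr τC (Equiv.prodCongr (Equiv.refl _) (Equiv.addRight 1))
  have hτl : ∀ n : ℕ, ∀ c : C, (τ ^ n) (Sum.inl c) = Sum.inl ((τC ^ n) c) := by
    intro n
    induction n with
    | zero => intro c; rfl
    | succ n ih =>
      intro c
      rw [pow_succ, Equiv.Perm.mul_apply, pow_succ, Equiv.Perm.mul_apply, ← ih]
      rfl
  have hτr : ∀ n : ℕ, ∀ (z : {z : A // z ∉ D}) (i : ZMod m),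
      (τ ^ n) (Sum.inr (z, i)) = Sum.inr (z, i + n) := by
    intro n
    induction n with
    | zero => intro z i; simp
    | succ n ih =>
      intro z i
      have e : τ (Sum.inr (z, i)) = Sum.inr (z, i + 1) := rfl
      rw [pow_succ, Equiv.Perm.mul_apply, e, ih]
      push_cast
      rw [add_assoc, add_comm (1 : ZMod m)]
  have hτ1 : τ ^ m = 1 := by
    refine Equiv.ext ?_
    rintro (c | ⟨z, i⟩)
    · rw [hτl, hτm]; rfl
    · rw [hτr, ZMod.natCast_self, add_zero]; rfl
  let ρ : A → B := fun a => if h : a ∈ C then Sum.inl ⟨a, h⟩ else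
    Sum.inr (⟨f^[ext D f a] a, ext_spec (hnC a h)⟩, -(ext D f a : ZMod m))
  have hρ1 : ∀ (a : A) (h : a ∈ C), ρ a = Sum.inl ⟨a, h⟩ := fun a h => by
    simp only [ρ, dif_pos h]
  have hρ2 : ∀ (a : A) (h : a ∉ C), ρ a =
      Sum.inr (⟨f^[ext D f a] a, ext_spec (hnC a h)⟩, -(ext D f a : ZMod m)) := fun a h => by
    simp only [ρ, dif_neg h]
  have hpathC : ∀ a ∈ C, ∀ n, Path D f n a (f^[n] a) := fun a ha n => ⟨fun i _ => ha i, rfl⟩
  have hpathm : ∀ a ∈ C, f^[m] a = a := by
    intro a ha
    have := hτC m ⟨a, ha⟩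
    rw [hτm] at this
    exact this.symm
  -- key lemma
  have key : ∀ n, n < m → ∀ a b, (τ ^ n) (ρ a) = ρ b →
      (a ∈ C ∧ Path D f n a b ∧ Path D f (m - n) b a) ∨
      (Path D f n a b ∧ n ≤ N) ∨ (Path D f (m - n) b a ∧ m - n ≤ N) := by
    intro n hn a b h
    by_cases ha : a ∈ C
    · left
      rw [hρ1 a ha, hτl] at h
      by_cases hb : b ∈ C
      · rw [hρ1 b hb] at h
        have h1 : f^[n] a = b := by
          rw [← hτC n ⟨a, ha⟩]
          exact congrArg Subtype.val (Sum.inl_injective h)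
        refine ⟨ha, ?_, ?_⟩
        · rw [← h1]; exact hpathC a ha n
        · refine ⟨fun i _ => hb i, ?_⟩
          rw [← h1, ← Function.iterate_add_apply]
          have e : m - n + n = m := by omega
          rw [e]
          exact hpathm a ha
      · rw [hρ2 b hb] at h
        exact absurd h (by simp)
    · right
      rw [hρ2 a ha, hτr] at h
      by_cases hb : b ∈ C
      · rw [hρ1 b hb] at h
        exact absurd h (by simp)
      · rw [hρ2 b hb] at h
        have h1 := Sum.inr_injective h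
        have h2 : f^[ext D f a] a = f^[ext D f b] b :=
          congrArg (fun z => (Prod.fst z).1) h1
        have h3 : -(ext D f a : ZMod m) + n = -(ext D f b : ZMod m) := congrArg Prod.snd h1
        have h4 : ((ext D f b + n : ℕ) : ZMod m) = ((ext D f a : ℕ) : ZMod m) := by
          push_cast
          linear_combination h3
        rw [ZMod.natCast_eq_natCast_iff'] at h4
        have ca := ext_card (hnC a ha)
        have cb := ext_card (hnC b hb)
        rw [← hN] at ca cb
        rw [Nat.mod_eq_of_lt (show ext D f a < m by omega)] at h4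
        by_cases hlt : ext D f b + n < m
        · left
          rw [Nat.mod_eq_of_lt hlt] at h4
          refine ⟨⟨fun i hi => ext_lt (by omega), ?_⟩, by omega⟩
          refine Path.inj hfi (ext D f b) _ _ (f^[ext D f b] b) ⟨fun i hi => ?_, ?_⟩
            ⟨fun i hi => ext_lt hi, rfl⟩
          · rw [← Function.iterate_add_apply]
            exact ext_lt (by omega)
          · rw [← Function.iterate_add_apply, h4, h2]
        · right
          rw [Nat.mod_eq_sub_mod (by omega), Nat.mod_eq_of_lt (by omega)] at h4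
          refine ⟨⟨fun i hi => ext_lt (by omega), ?_⟩, by omega⟩
          refine Path.inj hfi (ext D f a) _ _ (f^[ext D f a] a) ⟨fun i hi => ?_, ?_⟩
            ⟨fun i hi => ext_lt hi, rfl⟩
          · rw [← Function.iterate_add_apply]
            exact ext_lt (by omega)
          · rw [← Function.iterate_add_apply, h2]
            congr 1
            omega
  have hNpos : ∀ a : A, 0 < N := by
    intro a
    rw [hN]
    have : Nonempty A := ⟨a⟩
    exact Nat.card_pos
  -- no conflicts
  have nc0 : ∀ n, n < m → ∀ a b c d, r a b → r c d → (τ ^ n) (ρ a) = ρ d →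
      (τ ^ n) (ρ b) = ρ c → False := by
    intro n hn a b c d hab hcd h1 h2
    have fwd : Path D f n a d → Path D f n b c → False := by
      intro p1 p2
      have h3 := Path.pres hf n _ _ _ _ p1 p2 hab
      have hne : c ≠ d := by
        rintro rfl
        exact hr.1 _ hcd
      exact (hr.2 c d hne).mp hcd h3
    have bwd : Path D f (m - n) d a → Path D f (m - n) c b → False := by
      intro p1 p2
      have h3 := Path.pres hf (m - n) _ _ _ _ p2 p1 hcd
      have hne : a ≠ b := by
        rintro rfl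
        exact hr.1 _ hab
      exact (hr.2 a b hne).mp hab h3
    rcases key n hn a d h1 with ⟨-, p1, p2⟩ | ⟨p1, q1⟩ | ⟨p1, q1⟩
    · rcases key n hn b c h2 with ⟨-, p3, p4⟩ | ⟨p3, q3⟩ | ⟨p3, q3⟩
      · exact fwd p1 p3
      · exact fwd p1 p3
      · exact bwd p2 p3
    · rcases key n hn b c h2 with ⟨-, p3, p4⟩ | ⟨p3, q3⟩ | ⟨p3, q3⟩
      · exact fwd p1 p3
      · exact fwd p1 p3
      · omega
    · rcases key n hn b c h2 with ⟨-, p3, p4⟩ | ⟨p3, q3⟩ | ⟨p3, q3⟩
      · exact bwd p1 p4
      · omega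
      · exact bwd p1 p3
  let P : B → B → Prop := fun x y => ∃ n a b, n < m ∧ r a b ∧ x = (τ ^ n) (ρ a) ∧ y = (τ ^ n) (ρ b)
  have hτmod : ∀ n : ℕ, τ ^ (n % m) = τ ^ n := by
    intro n
    conv_rhs => rw [← Nat.mod_add_div n m, pow_add, pow_mul, hτ1, one_pow, mul_one]
  have hP' : ∀ n x y, P x y → P ((τ ^ n) x) ((τ ^ n) y) := by
    rintro n x y ⟨k, a, b, hk, hab, rfl, rfl⟩
    refine ⟨(n + k) % m, a, b, Nat.mod_lt _ (by omega), hab, ?_, ?_⟩
    · rw [hτmod, pow_add, Equiv.Perm.mul_apply]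
    · rw [hτmod, pow_add, Equiv.Perm.mul_apply]
  have hP : ∀ x y, P x y ↔ P (τ x) (τ y) := by
    intro x y
    constructor
    · intro h
      have := hP' 1 x y h
      rwa [pow_one] at this
    · intro h
      have h1 := hP' (m - 1) _ _ h
      have e : ∀ x, (τ ^ (m - 1)) (τ x) = x := by
        intro x
        rw [← Equiv.Perm.mul_apply, ← pow_succ, Nat.sub_add_cancel (by omega), hτ1]
        rfl
      rwa [e, e] at h1
  have hanti : ∀ x y, P x y → P y x → False := by
    rintro x y ⟨n, a, b, hn, hab, rfl, rfl⟩ ⟨k, c, d, hk, hcd, h1, h2⟩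
    rcases le_total k n with h | h
    · refine nc0 (n - k) (by omega) a b c d hab hcd ?_ ?_
      · apply (τ ^ k).injective
        rw [← Equiv.Perm.mul_apply, ← pow_add, Nat.add_sub_cancel' h, h2]
      · apply (τ ^ k).injective
        rw [← Equiv.Perm.mul_apply, ← pow_add, Nat.add_sub_cancel' h, h1]
    · refine nc0 (k - n) (by omega) c d a b hcd hab ?_ ?_
      · apply (τ ^ n).injective
        rw [← Equiv.Perm.mul_apply, ← pow_add, Nat.add_sub_cancel' h, h1]
      · apply (τ ^ n).injective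
        rw [← Equiv.Perm.mul_apply, ← pow_add, Nat.add_sub_cancel' h, h2]
  obtain ⟨s, hs, hPs, hsτ⟩ := inv_tour τ m hmodd hτ1 P hP hanti
  have hrs : ∀ a b, r a b → s (ρ a) (ρ b) := fun a b h =>
    hPs _ _ ⟨0, a, b, by omega, h, rfl, rfl⟩
  have hinj : Function.Injective ρ := by
    intro a b h
    by_contra hne
    by_cases h1 : r a b
    · have := hrs a b h1
      rw [h] at this
      exact hs.1 _ this
    · have h2 : r b a := by
        by_contra h2
        exact h1 ((hr.2 a b hne).mpr h2)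
      have := hrs b a h2
      rw [h] at this
      exact hs.1 _ this
  refine ⟨B, inferInstance, s, hs, ρ, hinj, ?_, τ, hsτ, ?_⟩
  · intro x y
    refine ⟨hrs x y, fun h => ?_⟩
    have hxy : x ≠ y := by
      rintro rfl
      exact hs.1 _ h
    rw [hr.2 x y hxy]
    intro h2
    exact (hs.2 _ _ (fun e => hxy (hinj e))).mp h (hrs y x h2)
  · intro x hx
    by_cases hC : x ∈ C
    · rw [hρ1 x hC, hρ1 (f x) (hCf x hC)]
      rfl
    · have hC' : f x ∉ C := by
        intro h
        refine hC ?_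
        intro n
        rcases n with _ | n
        · exact hx
        · rw [Function.iterate_succ_apply]; exact h n
      have hpos : 0 < ext D f x := by
        rcases Nat.eq_zero_or_pos (ext D f x) with h0 | h0
        · have := ext_spec (hnC x hC)
          rw [h0] at this
          exact absurd hx this
        · exact h0
      have h1 : ext D f (f x) = ext D f x - 1 := ext_iter (hnC x hC) (i := 1) (by omega)
      have h2 : f^[ext D f (f x)] (f x) = f^[ext D f x] x := by
        rw [h1, ← Function.iterate_succ_apply]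
        congr 1
        omega
      have e : ∀ (z : {z : A // z ∉ D}) (i : ZMod m),
        τ (Sum.inr (z, i)) = Sum.inr (z, i + 1) := fun _ _ => rfl
      rw [hρ2 x hC, hρ2 (f x) hC', e]
      congr 2
      · exact Subtype.ext h2.symm
      · rw [h1, Nat.cast_sub (by omega)]
        push_cast
        ring

/-- one partial automorphism of the subtournament on `X` -/
theorem ext_map {A : Type} [Finite A] (r : A → A → Prop) (hr : IsTour r) (X : Set A)
    (φ : Set (A × A)) (hφ : φ ∈ PA r X) : Extendable r X {φ} := by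
  classical
  obtain ⟨hpa, hX⟩ := hφ
  let A' := {a // a ∈ X}
  let r' : A' → A' → Prop := fun a b => r a.1 b.1
  have hr' : IsTour r' := ⟨fun a => hr.1 a.1, fun a b hab => hr.2 a.1 b.1 (fun h => hab (Subtype.ext h))⟩
  let D : Set A' := {a | ∃ b : A', (a.1, b.1) ∈ φ}
  let f : A' → A' := fun a => if h : ∃ b : A', (a.1, b.1) ∈ φ then h.choose else a
  have hf : ∀ a ∈ D, (a.1, (f a).1) ∈ φ := by
    intro a (h : ∃ b : A', (a.1, b.1) ∈ φ)
    simp only [f, dif_pos h]
    exact h.choose_spec
  obtain ⟨B, hB, s, hs, e, he, hrs, σ, hσ, hσD⟩ := single_univ r' hr' D f (by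
    intro x hx y hy hxy
    exact (hpa _ _ _ _ (hf x hx) (hf y hy)).2.mp hxy)
  refine ⟨B, hB, s, hs, e, he, hrs, ?_⟩
  intro ψ hψ
  rw [Set.mem_singleton_iff] at hψ
  subst hψ
  refine ⟨σ, hσ, ?_⟩
  intro x y hxy
  obtain ⟨hx, hy⟩ := hX x y hxy
  refine ⟨hx, hy, ?_⟩
  have h1 : (⟨x, hx⟩ : A') ∈ D := ⟨⟨y, hy⟩, hxy⟩
  have h2 : (⟨y, hy⟩ : A') = f ⟨x, hx⟩ := Subtype.ext ((hpa _ _ _ _ hxy (hf _ h1)).1.mp rfl)
  rw [h2]
  exact hσD _ h1

/-- automorphisms of the subtournament on `X` -/
theorem ext_aut {A : Type} [Finite A] (r : A → A → Prop) (hr : IsTour r) (X : Set A) :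
    Extendable r X {φ | φ ∈ PA r X ∧ ∀ x ∈ X, ∃ y, (x, y) ∈ φ} := by
  classical
  let A' := {a // a ∈ X}
  let r' : A' → A' → Prop := fun a b => r a.1 b.1
  have hr' : IsTour r' := ⟨fun a => hr.1 a.1, fun a b hab => hr.2 a.1 b.1 (fun h => hab (Subtype.ext h))⟩
  refine ⟨A', inferInstance, r', hr', fun a => a, fun a b h => h, fun _ _ => Iff.rfl, ?_⟩
  rintro φ ⟨⟨hpa, hX⟩, htot⟩
  have h1 : ∀ a : A', ∃ b : A', (a.1, b.1) ∈ φ := by
    intro a
    obtain ⟨y, hy⟩ := htot a.1 a.2
    exact ⟨⟨y, (hX _ _ hy).2⟩, hy⟩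
  choose g hg using h1
  have hinj : Function.Injective g := by
    intro a b h
    refine Subtype.ext ((hpa _ _ _ _ (hg a) (hg b)).1.mpr ?_)
    rw [h]
  refine ⟨Equiv.ofBijective g (Finite.injective_iff_bijective.mp hinj), ?_, ?_⟩
  · intro x y
    exact (hpa _ _ _ _ (hg x) (hg y)).2
  · intro x y hxy
    obtain ⟨hx, hy⟩ := hX x y hxy
    refine ⟨hx, hy, ?_⟩
    exact Subtype.ext ((hpa _ _ _ _ (hg ⟨x, hx⟩) hxy).1.mp rfl)

/-- a fixed vertex -/
theorem fix_vertex {A : Type} (r : A → A → Prop) (hr : IsTour r) (X : Set A) (v : A) (hv : v ∉ X)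
    (F : Set (Set (A × A))) (h : Extendable r X F) :
    Extendable r (insert v X) {ψ | IsPA r ψ ∧ ∃ φ ∈ F, ψ = insert (v, v) φ} := by
  classical
  obtain ⟨B, hB, s, hs, e, he, hrs, hφ⟩ := h
  have hnot : ∀ x y, x ≠ y → (¬ r x y) → r y x := by
    intro x y hxy h
    by_contra h'
    exact h ((hr.2 x y hxy).mpr h')
  let s' : Option (B × Bool) → Option (B × Bool) → Prop := fun a b => match a, b with
    | none, none => False
    | none, some y => y.2 = true
    | some x, none => x.2 = false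
    | some x, some y => s x.1 y.1 ∨ (x.1 = y.1 ∧ x.2 = false ∧ y.2 = true)
  have hs' : IsTour s' := by
    refine ⟨?_, ?_⟩
    · rintro (_ | ⟨x, c⟩)
      · exact id
      · rintro (h | ⟨-, h, h'⟩)
        · exact hs.1 _ h
        · have h1 : c = false := h
          have h2 : c = true := h'
          rw [h1] at h2
          exact absurd h2 (by decide)
    · rintro (_ | ⟨x, c⟩) (_ | ⟨y, d⟩) hne
      · exact absurd rfl hne
      · show d = true ↔ ¬ d = false
        cases d <;> simp
      · show c = false ↔ ¬ c = true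
        cases c <;> simp
      · show (s x y ∨ (x = y ∧ c = false ∧ d = true)) ↔ ¬ (s y x ∨ (y = x ∧ d = false ∧ c = true))
        by_cases hxy : x = y
        · subst hxy
          have h1 := hs.1 x
          have h2 : c ≠ d := fun h => hne (by rw [h])
          cases c <;> cases d <;> simp_all
        · have h1 := hs.2 x y hxy
          have h2 : y ≠ x := Ne.symm hxy
          simp only [hxy, h2, false_and, or_false]
          exact h1
  have hmem : ∀ x : A, x ∈ insert v X → x ≠ v → x ∈ X := fun x hx hne =>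
    hx.resolve_left hne
  let e' : ↥(insert v X) → Option (B × Bool) := fun x =>
    if h : x.1 = v then none else some (e ⟨x.1, hmem x.1 x.2 h⟩, decide (r v x.1))
  have e'v : ∀ (hx : v ∈ insert v X), e' ⟨v, hx⟩ = none := fun hx => by
    simp only [e', dif_pos rfl]
  have e'x : ∀ (x : A) (hx : x ∈ X) (hx' : x ∈ insert v X), e' ⟨x, hx'⟩ =
      some (e ⟨x, hx⟩, decide (r v x)) := fun x hx hx' => by
    have hne : x ≠ v := fun h => hv (h ▸ hx)
    simp only [e', dif_neg hne]
  refine ⟨Option (B × Bool), inferInstance, s', hs', e', ?_, ?_, ?_⟩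
  · rintro ⟨x, hx⟩ ⟨y, hy⟩ hxy
    rcases hx with rfl | hx
    · rcases hy with rfl | hy
      · rfl
      · rw [e'v (Or.inl rfl), e'x y hy (Or.inr hy)] at hxy
        exact absurd hxy (by simp)
    · rcases hy with rfl | hy
      · rw [e'v (Or.inl rfl), e'x x hx (Or.inr hx)] at hxy
        exact absurd hxy (by simp)
      · rw [e'x x hx (Or.inr hx), e'x y hy (Or.inr hy)] at hxy
        have h1 := congrArg Prod.fst (Option.some_injective _ hxy)
        have h2 : x = y := congrArg Subtype.val (he h1)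
        exact Subtype.ext h2
  · rintro ⟨x, hx⟩ ⟨y, hy⟩
    show r x y ↔ s' (e' ⟨x, hx⟩) (e' ⟨y, hy⟩)
    rcases hx with rfl | hx
    · rcases hy with rfl | hy
      · rw [e'v (Or.inl rfl)]
        exact ⟨fun h => hr.1 _ h, fun h => h.elim⟩
      · rw [e'v (Or.inl rfl), e'x y hy (Or.inr hy)]
        show r x y ↔ decide (r x y) = true
        simp
    · rcases hy with rfl | hy
      · rw [e'v (Or.inl rfl), e'x x hx (Or.inr hx)]
        show r x y ↔ decide (r y x) = false
        have hne : x ≠ y := fun h => hv (h ▸ hx)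
        rw [hr.2 x y hne]
        simp
      · rw [e'x x hx (Or.inr hx), e'x y hy (Or.inr hy)]
        show r x y ↔ (s (e ⟨x, hx⟩) (e ⟨y, hy⟩) ∨ (e ⟨x, hx⟩ = e ⟨y, hy⟩ ∧
          decide (r v x) = false ∧ decide (r v y) = true))
        rw [← hrs ⟨x, hx⟩ ⟨y, hy⟩]
        constructor
        · exact Or.inl
        · rintro (h | ⟨h, h1, h2⟩)
          · exact h
          · have h3 : x = y := congrArg Subtype.val (he h)
            subst h3
            rw [h1] at h2
            exact absurd h2 (by decide)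
  · rintro ψ ⟨hpa, φ, hφF, rfl⟩
    obtain ⟨σ, hσ, hD⟩ := hφ φ hφF
    refine ⟨Equiv.optionCongr (Equiv.prodCongr σ (Equiv.refl Bool)), ?_, ?_⟩
    · rintro (_ | ⟨x, c⟩) (_ | ⟨y, d⟩)
      · exact Iff.rfl
      · exact Iff.rfl
      · exact Iff.rfl
      · show (s x y ∨ (x = y ∧ c = false ∧ d = true)) ↔
          (s (σ x) (σ y) ∨ (σ x = σ y ∧ c = false ∧ d = true))
        rw [← hσ x y, σ.injective.eq_iff]
    · intro x y hxy
      rcases hxy with hxy | hxy
      · obtain ⟨rfl, rfl⟩ : x = v ∧ y = v := by simpa using hxy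
        refine ⟨Or.inl rfl, Or.inl rfl, ?_⟩
        rw [e'v (Or.inl rfl)]
        rfl
      · obtain ⟨hx, hy, h1⟩ := hD x y hxy
        refine ⟨Or.inr hx, Or.inr hy, ?_⟩
        rw [e'x x hx (Or.inr hx), e'x y hy (Or.inr hy)]
        show some (σ (e ⟨x, hx⟩), decide (r v x)) = some (e ⟨y, hy⟩, decide (r v y))
        have h2 := (hpa v v x y (Or.inl rfl) (Or.inr hxy)).2
        rw [h1, decide_eq_decide.mpr h2]

end Pool.Agent.Lib.MP_4e105e_co_forest
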