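import Pool.Agent.Lib.MP_4e105e_co_forest.Trans
import Pool.Agent.Lib.MP_4e105e_co_forest.Single

/-!
MP_4e105e_co (gluing of extendable families): a family of partial automorphisms of a finite
tournament is extendable as soon as its members are restrictions of permutations in a finite group
of odd order.
-/

set_option autoImplicit false

namespace Pool.Agent.Lib.MP_4e105e_co_forest

/-- The members of `F` are restrictions (along `e`) of the elements of a group of odd order which
acts on a finite set. -/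
def OddPerm {A : Type} (X : Set A) (F : Set (Set (A × A))) : Prop :=
  ∃ (B : Type) (_ : Finite B) (G : Subgroup (Equiv.Perm B)), Odd (Nat.card G) ∧
    ∃ e : X → B, Function.Injective e ∧ ∀ φ ∈ F, ∃ σ ∈ G,
      ∀ x y : A, (x, y) ∈ φ → ∃ (hx : x ∈ X) (hy : y ∈ X), σ (e ⟨x, hx⟩) = e ⟨y, hy⟩

theorem ext_PA {A : Type} {r : A → A → Prop} {X : Set A} {F : Set (Set (A × A))}
    (h : Extendable r X F) : ∀ φ ∈ F, φ ∈ PA r X := by
  obtain ⟨B, hB, s, hs, e, he, hr, hφ⟩ := h
  intro φ hF
  obtain ⟨σ, hσ, hD⟩ := hφ φ hF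
  refine ⟨?_, ?_⟩
  · intro x y x' y' h1 h2
    obtain ⟨hx, hy, e1⟩ := hD x y h1
    obtain ⟨hx', hy', e2⟩ := hD x' y' h2
    constructor
    · constructor
      · rintro rfl
        exact congrArg Subtype.val (he (e1.symm.trans e2))
      · rintro rfl
        exact congrArg Subtype.val (he (σ.injective (e1.trans e2.symm)))
    · have h3 := hr ⟨x, hx⟩ ⟨x', hx'⟩
      have h4 := hr ⟨y, hy⟩ ⟨y', hy'⟩
      have h5 := hσ (e ⟨x, hx⟩) (e ⟨x', hx'⟩)
      rw [e1, e2] at h5
      exact h3.trans (h5.trans h4.symm)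
  · intro x y h1
    obtain ⟨hx, hy, -⟩ := hD x y h1
    exact ⟨hx, hy⟩

theorem odd_of_ext {A : Type} {r : A → A → Prop} {X : Set A} {F : Set (Set (A × A))}
    (h : Extendable r X F) : OddPerm X F := by
  obtain ⟨B, hB, s, hs, e, he, hr, hφ⟩ := h
  refine ⟨B, hB, Aut s, card_aut_odd s hs, e, he, ?_⟩
  intro φ hF
  obtain ⟨σ, hσ, hD⟩ := hφ φ hF
  exact ⟨σ, hσ, hD⟩

/-- THE CRITERION (compare Herwig-Lascar and Ribes-Zalesskii): arcs are free -/
theorem ext_of_odd {A : Type} [Finite A] (r : A → A → Prop) (hr : IsTour r) (X : Set A)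
    (F : Set (Set (A × A))) (hF : ∀ φ ∈ F, φ ∈ PA r X) (h : OddPerm X F) :
    Extendable r X (F ∪ Small r X) := by
  classical
  obtain ⟨B, hB, G, hG, e, he, hφ⟩ := h
  have : Fintype G := Fintype.ofFinite G
  let I := {φ // φ ∈ F}
  have : Finite I := Subtype.finite
  have : Fintype I := Fintype.ofFinite I
  choose σ hσG hσ using (fun i : I => hφ i.1 i.2)
  let sg : I → G := fun i => ⟨σ i, hσG i⟩
  let D := Multiplicative (I → ZMod 3)
  let W := RegularWreathProduct D G
  let gen : I → W := fun i => ⟨fun y => if y = 1 then Multiplicative.ofAdd (Pi.single i 1) else 1,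
    sg i⟩
  have hodd : ∀ k : W, Odd (orderOf k) := by
    intro k
    have hD : Nat.card D = 3 ^ Nat.card I := by
      show Nat.card (I → ZMod 3) = _
      rw [Nat.card_fun, Nat.card_zmod]
    have hc : Odd (Nat.card W) := by
      show Odd (Nat.card (RegularWreathProduct D G))
      rw [RegularWreathProduct.card, hD]
      exact (Odd.pow (Odd.pow (by decide))).mul hG
    exact Odd.of_dvd_nat hc (orderOf_dvd_natCard k)
  let R : W × X → W × X → Prop := fun p q => ∃ i : I, (p.2.1, q.2.1) ∈ i.1 ∧ p.1 = q.1 * gen i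
  -- lamps
  let lamp : W → G × I → ZMod 3 := fun k p => Multiplicative.toAdd (k.left p.1) p.2
  have lamp_gen : ∀ (k : W) (i : I) (p : G × I),
      lamp (k * gen i) p = lamp k p + (if p = (k.right, i) then 1 else 0) := by
    rintro k i ⟨g, j⟩
    show (Multiplicative.toAdd (k.left g * (if k.right⁻¹ * g = 1 then
      Multiplicative.ofAdd (Pi.single i 1) else 1) : D) : I → ZMod 3) j =
      (Multiplicative.toAdd (k.left g : D) : I → ZMod 3) j + _
    rw [toAdd_mul, Pi.add_apply]
    congr 1
    by_cases hg : g = k.right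
    · rw [if_pos (by rw [hg, inv_mul_cancel]), toAdd_ofAdd]
      by_cases hj : j = i
      · rw [if_pos (by rw [hg, hj]), hj, Pi.single_eq_same]
      · rw [if_neg (fun h => hj (congrArg Prod.snd h)), Pi.single_eq_of_ne hj]
    · rw [if_neg (fun h => hg (inv_mul_eq_one.mp h).symm),
        if_neg (fun h => hg (congrArg Prod.fst h))]
      rfl
  let ind : Set G → G → ZMod 3 := fun C g => if g ∈ C then 1 else 0
  let wt : Set G → G × I → ZMod 3 := fun C p => ind C (p.1 * sg p.2) - ind C p.1
  let Φ : Set G → W → ZMod 3 := fun C k => (∑ p, lamp k p * wt C p) - ind C k.right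
  have Φ_gen : ∀ C (k : W) i, Φ C (k * gen i) = Φ C k := by
    intro C k i
    show (∑ p, lamp (k * gen i) p * wt C p) - ind C (k.right * sg i) =
      (∑ p, lamp k p * wt C p) - ind C k.right
    have e1 : ∀ p, lamp (k * gen i) p * wt C p =
        lamp k p * wt C p + (if p = (k.right, i) then wt C p else 0) := by
      intro p
      rw [lamp_gen, add_mul]
      congr 1
      split_ifs
      · rw [one_mul]
      · rw [zero_mul]
    simp only [e1]
    rw [Finset.sum_add_distrib, Finset.sum_ite_eq' Finset.univ (k.right, i) (wt C),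
      if_pos (Finset.mem_univ _)]
    show _ + (ind C (k.right * sg i) - ind C k.right) - _ = _
    ring
  let Al : B → G × I → Prop := fun ω p =>
    ∃ x y : X, (x.1, y.1) ∈ p.2.1 ∧ p.1.1 (e y) = ω
  have inv : ∀ p q : W × X, Relation.EqvGen R p q →
      p.1.right.1 (e p.2) = q.1.right.1 (e q.2) ∧
      (∀ z, ¬ Al (p.1.right.1 (e p.2)) z → lamp p.1 z = lamp q.1 z) ∧
      ∀ C, Φ C p.1 = Φ C q.1 := by
    intro p q h
    induction h with
    | rel p q h =>
      obtain ⟨i, hi, hk⟩ := h
      obtain ⟨hx, hy, h1⟩ := hσ i _ _ hi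
      have h2 : p.1.right.1 (e p.2) = q.1.right.1 (e q.2) := by
        rw [hk]
        show q.1.right.1 (σ i (e p.2)) = _
        exact congrArg _ h1
      refine ⟨h2, ?_, ?_⟩
      · intro z hz
        rw [hk, lamp_gen, if_neg, add_zero]
        rintro rfl
        exact hz ⟨p.2, q.2, hi, h2.symm⟩
      · intro C
        rw [hk, Φ_gen]
    | refl p => exact ⟨rfl, fun _ _ => rfl, fun _ => rfl⟩
    | symm p q _ ih =>
      refine ⟨ih.1.symm, ?_, fun C => (ih.2.2 C).symm⟩
      intro z hz
      rw [← ih.1] at hz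
      exact (ih.2.1 z hz).symm
    | trans p q t _ _ ih1 ih2 =>
      refine ⟨ih1.1.trans ih2.1, ?_, fun C => (ih1.2.2 C).trans (ih2.2.2 C)⟩
      intro z hz
      exact (ih1.2.1 z hz).trans (ih2.2.1 z (by rw [← ih1.1]; exact hz))
  have hconf : ∀ (k k' : W) (a b c d : X), r a b → r c d →
      Relation.EqvGen R (k, a) (k', d) → Relation.EqvGen R (k, b) (k', c) → False := by
    intro k k' a b c d hab hcd h1 h2
    obtain ⟨i1, i2, i3⟩ := inv _ _ h1
    obtain ⟨j1, j2, -⟩ := inv _ _ h2
    simp only at i1 i2 i3 j1 j2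
    let C : Set G := {g | ∃ x y : X, g.1 (e x) = k.right.1 (e a) ∧
      g.1 (e y) = k.right.1 (e b) ∧ r x y}
    have hC : ∀ (g : G) (x y : X), g.1 (e x) = k.right.1 (e a) → g.1 (e y) = k.right.1 (e b) →
        (g ∈ C ↔ r x y) := by
      intro g x y hx hy
      constructor
      · rintro ⟨x', y', hx', hy', hr'⟩
        have e1 : x' = x := he (g.1.injective (hx'.trans hx.symm))
        have e2 : y' = y := he (g.1.injective (hy'.trans hy.symm))
        rw [e1, e2] at hr'
        exact hr'
      · intro h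
        exact ⟨x, y, hx, hy, h⟩
    have hw : ∀ p, lamp k p * wt C p = lamp k' p * wt C p := by
      intro p
      by_cases hp : lamp k p = lamp k' p
      · rw [hp]
      · have a1 : Al (k.right.1 (e a)) p := by
          by_contra h
          exact hp (i2 p h)
        have a2 : Al (k.right.1 (e b)) p := by
          by_contra h
          exact hp (j2 p h)
        obtain ⟨x1, y1, m1, n1⟩ := a1
        obtain ⟨x2, y2, m2, n2⟩ := a2
        have hw0 : wt C p = 0 := by
          have c1 := hC p.1 y1 y2 n1 n2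
          obtain ⟨_, _, q1⟩ := hσ p.2 _ _ m1
          obtain ⟨_, _, q2⟩ := hσ p.2 _ _ m2
          have c2 := hC (p.1 * sg p.2) x1 x2
            (by
              show p.1.1 (σ p.2 (e x1)) = _
              rw [← n1]
              exact congrArg _ q1)
            (by
              show p.1.1 (σ p.2 (e x2)) = _
              rw [← n2]
              exact congrArg _ q2)
          have c3 := ((hF p.2.1 p.2.2).1 _ _ _ _ m1 m2).2
          show ind C (p.1 * sg p.2) - ind C p.1 = 0
          have c4 : (p.1 * sg p.2 ∈ C) ↔ (p.1 ∈ C) := by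
            rw [c1, c2]
            exact c3
          simp only [ind, c4, sub_self]
        rw [hw0, mul_zero, mul_zero]
    have h3 := i3 C
    have h4 : (∑ p, lamp k p * wt C p) = ∑ p, lamp k' p * wt C p :=
      Finset.sum_congr rfl (fun p _ => hw p)
    have h5 : ind C k.right = ind C k'.right := by
      have h3' : (∑ p, lamp k p * wt C p) - ind C k.right =
        (∑ p, lamp k' p * wt C p) - ind C k'.right := h3
      rw [h4] at h3'
      exact sub_right_injective h3'
    have h6 : k.right ∈ C := ⟨a, b, rfl, rfl, hab⟩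
    have h7 : k'.right ∈ C := by
      by_contra h
      simp only [ind, if_pos h6, if_neg h] at h5
      exact absurd h5 (by decide)
    have h8 : r d c := (hC k'.right d c i1.symm j1.symm).mp h7
    have hne : c.1 ≠ d.1 := by
      intro h
      rw [h] at hcd
      exact hr.1 _ hcd
    exact (hr.2 _ _ hne).mp hcd h8
  have exact' : ∀ p q : W × X, Quot.mk R p = Quot.mk R q → Relation.EqvGen R p q := fun p q h =>
    Quot.eqvGen_exact h
  have : Finite (Quot R) := Finite.of_surjective (Quot.mk R) Quot.mk_surjective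
  obtain ⟨q, hqf, ee, hq4, hee⟩ := paley_embed (σ := Quot R)
    (fun u v => ∃ (k : W) (a b : X), r a b ∧ u = Quot.mk R (k, a) ∧ v = Quot.mk R (k, b)) (by
    rintro u v ⟨k, a, b, hab, rfl, rfl⟩ ⟨k', c, d, hcd, h1, h2⟩
    exact hconf k k' a b c d hab hcd (exact' _ _ h2) (exact' _ _ h1))
  refine ext_of_coords r hr X q hq4 W hodd (fun a g => ee (Quot.mk R (g⁻¹, a))) ?_ F ?_
  · intro a b hab g
    exact hee _ _ ⟨g⁻¹, a, b, hab, rfl, rfl⟩
  · intro φ hφF
    refine ⟨gen ⟨φ, hφF⟩, fun _ => 1, fun _ => 0, fun _ => Sq.one, ?_⟩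
    intro x y hxy
    have hxX := ((hF φ hφF).2 x y hxy).1
    have hyX := ((hF φ hφF).2 x y hxy).2
    refine ⟨hxX, hyX, ?_⟩
    funext g
    show ee (Quot.mk R (g⁻¹, ⟨y, hyX⟩)) =
      1 * ee (Quot.mk R (((gen ⟨φ, hφF⟩)⁻¹ * g)⁻¹, ⟨x, hxX⟩)) + 0
    rw [one_mul, add_zero, mul_inv_rev, inv_inv]
    congr 1
    exact (Quot.sound ⟨⟨φ, hφF⟩, hxy, rfl⟩).symm

end Pool.Agent.Lib.MP_4e105e_co_forest
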