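import Pool.Agent.Lib.MP_4e105e_co_forest.Glue

/-!
MP_4e105e_co (gluing of extendable families): extendable families of partial automorphisms and the
gluing theorem for intersections with at most two vertices.
-/

set_option autoImplicit false

namespace Pool.Agent.Lib.MP_4e105e_co_forest

/-- `φ` (a set of pairs `(x, y)`, read `x ↦ y`) is a partial automorphism of `r` -/
def IsPA {A : Type} (r : A → A → Prop) (φ : Set (A × A)) : Prop :=
  ∀ x y x' y', (x, y) ∈ φ → (x', y') ∈ φ → ((x = x' ↔ y = y') ∧ (r x x' ↔ r y y'))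

/-- the partial automorphisms of the subtournament on `X` -/
def PA {A : Type} (r : A → A → Prop) (X : Set A) : Set (Set (A × A)) :=
  {φ | IsPA r φ ∧ ∀ x y, (x, y) ∈ φ → x ∈ X ∧ y ∈ X}

/-- the partial automorphisms with at most two vertices in the domain -/
def Small {A : Type} (r : A → A → Prop) (X : Set A) : Set (Set (A × A)) :=
  {φ | φ ∈ PA r X ∧ φ.encard ≤ 2}

/-- All maps of the family `F` have domain and image in `X` and extend to automorphisms of one
finite tournament `B` which contains the subtournament of `r` on `X`. -/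
def Extendable {A : Type} (r : A → A → Prop) (X : Set A) (F : Set (Set (A × A))) : Prop :=
  ∃ (B : Type) (_ : Finite B) (s : B → B → Prop), IsTour s ∧ ∃ e : X → B,
    Function.Injective e ∧ (∀ x y : X, r x y ↔ s (e x) (e y)) ∧
    ∀ φ ∈ F, ∃ σ : B ≃ B, (∀ x y, s x y ↔ s (σ x) (σ y)) ∧
      ∀ x y : A, (x, y) ∈ φ → ∃ (hx : x ∈ X) (hy : y ∈ X), σ (e ⟨x, hx⟩) = e ⟨y, hy⟩

theorem Extendable.mono {A : Type} {r : A → A → Prop} {X : Set A} {F F' : Set (Set (A × A))}
    (h : Extendable r X F) (hF : F' ⊆ F) : Extendable r X F' := by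
  obtain ⟨B, hB, s, hs, e, he, hr, hφ⟩ := h
  exact ⟨B, hB, s, hs, e, he, hr, fun φ h => hφ φ (hF h)⟩

/-- coordinates give extensions -/
theorem ext_of_coords {A : Type} [Finite A] (r : A → A → Prop) (hr : IsTour r) (X : Set A)
    (q : ℕ) [Fact q.Prime] (hq : q % 4 = 3) (G : Type) [Group G] [Finite G]
    (hodd : ∀ h : G, Odd (orderOf h)) (p : X → G → ZMod q)
    (hp : ∀ a b : X, r a b → ∀ g, Sq (p b g - p a g)) (F : Set (Set (A × A)))
    (hF : ∀ φ ∈ F, ∃ (h : G) (c t : G → ZMod q), (∀ g, Sq (c g)) ∧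
      ∀ x y, (x, y) ∈ φ → ∃ (hx : x ∈ X) (hy : y ∈ X), p ⟨y, hy⟩ = act h c t (p ⟨x, hx⟩)) :
    Extendable r X (F ∪ Small r X) := by
  classical
  let r' : X → X → Prop := fun a b => r a.1 b.1
  have hr' : IsTour r' := ⟨fun a => hr.1 a.1, fun a b hab => hr.2 a.1 b.1 (fun h => hab (Subtype.ext h))⟩
  obtain ⟨B, hB, s, hs, e, her, hT⟩ := tour_of_coords r' hr' q hq G hodd p hp
  refine ⟨B, hB, s, hs, e, e.injective, her, ?_⟩
  rintro φ (hφ | hφ)
  · obtain ⟨h, c, t, hc, hpp⟩ := hF φ hφ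
    obtain ⟨τ, hτ, hτD⟩ := hT (fun a a' => (a.1, a'.1) ∈ φ) ⟨h, c, t, hc, by
      intro a a' haa
      obtain ⟨hx, hy, h1⟩ := hpp _ _ haa
      exact h1⟩
    refine ⟨τ, hτ, ?_⟩
    intro x y hxy
    obtain ⟨hx, hy, -⟩ := hpp x y hxy
    exact ⟨hx, hy, hτD ⟨x, hx⟩ ⟨y, hy⟩ hxy⟩
  · obtain ⟨⟨hpa, hX⟩, hcard⟩ := hφ
    let D : Set X := {a | ∃ b : X, (a.1, b.1) ∈ φ}
    let f : X → X := fun a => if h : ∃ b : X, (a.1, b.1) ∈ φ then h.choose else a
    have hf : ∀ a ∈ D, (a.1, (f a).1) ∈ φ := by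
      intro a (h : ∃ b : X, (a.1, b.1) ∈ φ)
      simp only [f, dif_pos h]
      exact h.choose_spec
    have hD : D.encard ≤ 2 := by
      refine le_trans ?_ hcard
      have h3 : Subtype.val '' D ⊆ Prod.fst '' φ := by
        rintro x ⟨a, ⟨b, hb⟩, rfl⟩
        exact ⟨_, hb, rfl⟩
      rw [← Subtype.val_injective.encard_image]
      exact (Set.encard_le_encard h3).trans (Set.encard_image_le _ _)
    obtain ⟨h, c, t, hc, hpp⟩ := small_map r' hr' q G p hp D f hD (by
      intro x hx y hy hxy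
      exact (hpa _ _ _ _ (hf x hx) (hf y hy)).2.mp hxy)
    obtain ⟨τ, hτ, hτD⟩ := hT (fun a a' => (a.1, a'.1) ∈ φ) ⟨h, c, t, hc, by
      intro a a' haa
      have h1 : a ∈ D := ⟨a', haa⟩
      have h2 : a' = f a := Subtype.ext ((hpa _ _ _ _ haa (hf a h1)).1.mp rfl)
      rw [h2]
      exact hpp a h1⟩
    refine ⟨τ, hτ, ?_⟩
    intro x y hxy
    obtain ⟨hx, hy⟩ := hX x y hxy
    exact ⟨hx, hy, hτD ⟨x, hx⟩ ⟨y, hy⟩ hxy⟩

/-- the cone over a relation: a new point which dominates everything -/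
def cone {B : Type} (s : B → B → Prop) : Option B → Option B → Prop
  | none, some _ => True
  | some a, some b => s a b
  | _, none => False

theorem cone_tour {B : Type} {s : B → B → Prop} (hs : IsTour s) : IsTour (cone s) := by
  refine ⟨?_, ?_⟩
  · rintro (_ | a)
    · exact id
    · exact hs.1 a
  · rintro (_ | a) (_ | b) hab
    · exact absurd rfl hab
    · show True ↔ ¬ False
      tauto
    · show False ↔ ¬ True
      tauto
    · exact hs.2 a b (fun h => hab (by rw [h]))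

theorem cone_aut {B : Type} {s : B → B → Prop} (σ : B ≃ B) (hσ : ∀ x y, s x y ↔ s (σ x) (σ y)) :
    Equiv.optionCongr σ ∈ Aut (cone s) := by
  rw [mem_Aut]
  rintro (_ | x) (_ | y)
  · exact Iff.rfl
  · exact Iff.rfl
  · exact Iff.rfl
  · exact hσ x y

/-- GLUING along at most two vertices -/
theorem glue_two {A : Type} [Finite A] (r : A → A → Prop) (hr : IsTour r) (X1 X2 : Set A)
    (hX : (X1 ∩ X2).encard ≤ 2) (F1 F2 : Set (Set (A × A))) (h1 : Extendable r X1 F1)
    (h2 : Extendable r X2 F2) : Extendable r (X1 ∪ X2) (F1 ∪ F2 ∪ Small r (X1 ∪ X2)) := by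
  classical
  obtain ⟨B1, hB1, s1, hs1, e1, he1, hr1, hφ1⟩ := h1
  obtain ⟨B2, hB2, s2, hs2, e2, he2, hr2, hφ2⟩ := h2
  let A' := {a // a ∈ X1 ∪ X2}
  let r' : A' → A' → Prop := fun a b => r a.1 b.1
  have hr' : IsTour r' := ⟨fun a => hr.1 a.1, fun a b hab => hr.2 a.1 b.1 (fun h => hab (Subtype.ext h))⟩
  let Y1 : Set A' := {a | a.1 ∈ X1}
  let Y2 : Set A' := {a | a.1 ∈ X2}
  let ι1 : A' → Option (Option B1) := fun a =>
    if h : a.1 ∈ X1 then some (some (e1 ⟨a.1, h⟩)) else none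
  let ι2 : A' → Option (Option B2) := fun a =>
    if h : a.1 ∈ X2 then some (some (e2 ⟨a.1, h⟩)) else none
  have hi1 : ∀ (a : A') (h : a.1 ∈ X1), ι1 a = some (some (e1 ⟨a.1, h⟩)) := fun a h => by
    simp only [ι1, dif_pos h]
  have hi2 : ∀ (a : A') (h : a.1 ∈ X2), ι2 a = some (some (e2 ⟨a.1, h⟩)) := fun a h => by
    simp only [ι2, dif_pos h]
  have in1 : ∀ a ∈ Y1, ∀ b ∈ Y1, ι1 a = ι1 b → a = b := by
    intro a ha b hb h
    rw [hi1 a ha, hi1 b hb] at h
    have h3 := he1 (Option.some_injective _ (Option.some_injective _ h))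
    have h4 : a.1 = b.1 := Subtype.mk.inj h3
    exact Subtype.ext h4
  have in2 : ∀ a ∈ Y2, ∀ b ∈ Y2, ι2 a = ι2 b → a = b := by
    intro a ha b hb h
    rw [hi2 a ha, hi2 b hb] at h
    have h3 := he2 (Option.some_injective _ (Option.some_injective _ h))
    have h4 : a.1 = b.1 := Subtype.mk.inj h3
    exact Subtype.ext h4
  -- the base points
  obtain ⟨β1, β1', β2, β2', hb1, hb2, hβ, hβ1, hβ2⟩ : ∃ (β1 β1' : Option (Option B1))
      (β2 β2' : Option (Option B2)), cone (cone s1) β1 β1' ∧ cone (cone s2) β2 β2' ∧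
      (∀ a ∈ Y1, a ∈ Y2 → (ι1 a = β1 ∧ ι2 a = β2) ∨ (ι1 a = β1' ∧ ι2 a = β2')) ∧
      (∀ a ∈ Y1, a ∉ Y2 → ι1 a ≠ β1 ∧ ι1 a ≠ β1') ∧
      (∀ a ∈ Y2, a ∉ Y1 → ι2 a ≠ β2 ∧ ι2 a ≠ β2') := by
    by_cases hsub : (X1 ∩ X2).Subsingleton
    · by_cases ho : ∃ o, o ∈ X1 ∧ o ∈ X2
      · obtain ⟨o, o1, o2⟩ := ho
        let o' : A' := ⟨o, Or.inl o1⟩
        refine ⟨none, ι1 o', none, ι2 o', ?_, ?_, ?_, ?_, ?_⟩
        · rw [hi1 o' o1]; exact trivial
        · rw [hi2 o' o2]; exact trivial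
        · intro a ha ha2
          have h4 : a.1 = o := hsub ⟨ha, ha2⟩ ⟨o1, o2⟩
          have h5 : a = o' := Subtype.ext h4
          exact Or.inr ⟨by rw [h5], by rw [h5]⟩
        · intro a ha ha2
          refine ⟨by rw [hi1 a ha]; simp, fun h => ha2 ?_⟩
          have h5 : a = o' := in1 a ha o' o1 h
          rw [h5]; exact o2
        · intro a ha ha2
          refine ⟨by rw [hi2 a ha]; simp, fun h => ha2 ?_⟩
          have h5 : a = o' := in2 a ha o' o2 h
          rw [h5]; exact o1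
      · refine ⟨none, some none, none, some none, trivial, trivial, ?_, ?_, ?_⟩
        · intro a ha ha2
          exact absurd ⟨a.1, ha, ha2⟩ ho
        · intro a ha ha2
          rw [hi1 a ha]
          exact ⟨by simp, by simp⟩
        · intro a ha ha2
          rw [hi2 a ha]
          exact ⟨by simp, by simp⟩
    · rw [Set.not_subsingleton_iff] at hsub
      obtain ⟨o, ho, o', ho', hoo⟩ := hsub
      have hsub : X1 ∩ X2 ⊆ {o, o'} := by
        have h1 : ({o, o'} : Set A) ⊆ X1 ∩ X2 := by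
          rintro x (rfl | hx)
          · exact ho
          · rw [Set.mem_singleton_iff.mp hx]; exact ho'
        have h2 : ({o, o'} : Set A).encard = 2 := Set.encard_pair hoo
        exact ((Set.toFinite {o, o'}).eq_of_subset_of_encard_le h1 (by rw [h2]; exact hX)).ge
      have main : ∀ o o' : A, o ∈ X1 ∩ X2 → o' ∈ X1 ∩ X2 → r o o' → X1 ∩ X2 ⊆ {o, o'} →
          ∃ (β1 β1' : Option (Option B1))
          (β2 β2' : Option (Option B2)), cone (cone s1) β1 β1' ∧ cone (cone s2) β2 β2' ∧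
          (∀ a ∈ Y1, a ∈ Y2 → (ι1 a = β1 ∧ ι2 a = β2) ∨ (ι1 a = β1' ∧ ι2 a = β2')) ∧
          (∀ a ∈ Y1, a ∉ Y2 → ι1 a ≠ β1 ∧ ι1 a ≠ β1') ∧
          (∀ a ∈ Y2, a ∉ Y1 → ι2 a ≠ β2 ∧ ι2 a ≠ β2') := by
        intro o o' ho ho' hor hsub
        let p : A' := ⟨o, Or.inl ho.1⟩
        let p' : A' := ⟨o', Or.inl ho'.1⟩
        refine ⟨ι1 p, ι1 p', ι2 p, ι2 p', ?_, ?_, ?_, ?_, ?_⟩
        · rw [hi1 p ho.1, hi1 p' ho'.1]
          exact (hr1 ⟨o, ho.1⟩ ⟨o', ho'.1⟩).mp hor
        · rw [hi2 p ho.2, hi2 p' ho'.2]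
          exact (hr2 ⟨o, ho.2⟩ ⟨o', ho'.2⟩).mp hor
        · intro a ha ha2
          rcases hsub ⟨ha, ha2⟩ with h | h
          · have h5 : a = p := Subtype.ext h
            exact Or.inl ⟨by rw [h5], by rw [h5]⟩
          · have h5 : a = p' := Subtype.ext (Set.mem_singleton_iff.mp h)
            exact Or.inr ⟨by rw [h5], by rw [h5]⟩
        · intro a ha ha2
          refine ⟨fun h => ha2 ?_, fun h => ha2 ?_⟩
          · have h5 : a = p := in1 a ha p ho.1 h
            rw [h5]; exact ho.2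
          · have h5 : a = p' := in1 a ha p' ho'.1 h
            rw [h5]; exact ho'.2
        · intro a ha ha2
          refine ⟨fun h => ha2 ?_, fun h => ha2 ?_⟩
          · have h5 : a = p := in2 a ha p ho.2 h
            rw [h5]; exact ho.1
          · have h5 : a = p' := in2 a ha p' ho'.2 h
            rw [h5]; exact ho'.1
      by_cases hor : r o o'
      · exact main o o' ho ho' hor hsub
      · have hor' : r o' o := by
          by_contra h
          exact hor ((hr.2 o o' hoo).mpr h)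
        exact main o' o ho' ho hor' (by rw [Set.pair_comm]; exact hsub)
  have hc1 : IsTour (cone (cone s1)) := cone_tour (cone_tour hs1)
  have hc2 : IsTour (cone (cone s2)) := cone_tour (cone_tour hs2)
  obtain ⟨q, hqf, p, hq4, hp, hp1, hp2⟩ := glue_coords r' hr' Y1 Y2
    (fun a => a.2) (Option (Option B1)) (Option (Option B2)) (cone (cone s1)) (cone (cone s2))
    hc1 hc2 ι1 ι2 (by
      intro a ha b hb hab
      rw [hi1 a ha, hi1 b hb]
      exact (hr1 ⟨a.1, ha⟩ ⟨b.1, hb⟩).mp hab) (by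
      intro a ha b hb hab
      rw [hi2 a ha, hi2 b hb]
      exact (hr2 ⟨a.1, ha⟩ ⟨b.1, hb⟩).mp hab) β1 β1' β2 β2' hb1 hb2 hβ hβ1 hβ2
  have : Finite (Aut (cone (cone s1))) := inferInstance
  have : Finite (Aut (cone (cone s2))) := inferInstance
  have cca : ∀ {B : Type} (s : B → B → Prop) (σ : B ≃ B) (hσ : ∀ x y, s x y ↔ s (σ x) (σ y)),
      Equiv.optionCongr (Equiv.optionCongr σ) ∈ Aut (cone (cone s)) := fun s σ hσ =>
    cone_aut _ (mem_Aut.mp (cone_aut σ hσ))
  refine ext_of_coords r hr (X1 ∪ X2) q hq4 (Aut (cone (cone s1)) × Aut (cone (cone s2)))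
    (aut_prod_odd _ _ hc1 hc2) p (fun a b hab => hp a b hab) (F1 ∪ F2) ?_
  rintro φ (hφ | hφ)
  · obtain ⟨σ, hσ, hD⟩ := hφ1 φ hφ
    obtain ⟨c, t, hc, hpp⟩ := hp1 ⟨_, cca s1 σ hσ⟩
    refine ⟨(⟨_, cca s1 σ hσ⟩, 1), c, t, hc, ?_⟩
    intro x y hxy
    obtain ⟨hx, hy, he⟩ := hD x y hxy
    refine ⟨Or.inl hx, Or.inl hy, hpp ⟨x, Or.inl hx⟩ hx ⟨y, Or.inl hy⟩ hy ?_⟩
    rw [hi1 _ hy, hi1 _ hx]
    show some (some (e1 ⟨y, hy⟩)) = some (some (σ (e1 ⟨x, hx⟩)))
    rw [he]
  · obtain ⟨σ, hσ, hD⟩ := hφ2 φ hφ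
    obtain ⟨c, t, hc, hpp⟩ := hp2 ⟨_, cca s2 σ hσ⟩
    refine ⟨(1, ⟨_, cca s2 σ hσ⟩), c, t, hc, ?_⟩
    intro x y hxy
    obtain ⟨hx, hy, he⟩ := hD x y hxy
    refine ⟨Or.inr hx, Or.inr hy, hpp ⟨x, Or.inr hx⟩ hx ⟨y, Or.inr hy⟩ hy ?_⟩
    rw [hi2 _ hy, hi2 _ hx]
    show some (some (e2 ⟨y, hy⟩)) = some (some (σ (e2 ⟨x, hx⟩)))
    rw [he]

/-- one vertex, no maps -/
theorem ext_single {A : Type} (r : A → A → Prop) (hr : IsTour r) (a : A) :
    Extendable r {a} ∅ := by
  refine ⟨Unit, inferInstance, fun _ _ => False, ⟨fun _ h => h, ?_⟩, fun _ => (), ?_, ?_, ?_⟩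
  · intro a b hab
    exact absurd (Subsingleton.elim a b) hab
  · rintro ⟨x, hx⟩ ⟨y, hy⟩ _
    exact Subtype.ext ((Set.mem_singleton_iff.mp hx).trans (Set.mem_singleton_iff.mp hy).symm)
  · rintro ⟨x, hx⟩ ⟨y, hy⟩
    have h1 : x = y := (Set.mem_singleton_iff.mp hx).trans (Set.mem_singleton_iff.mp hy).symm
    subst h1
    simp [hr.1]
  · intro φ hφ
    exact absurd hφ (Set.notMem_empty φ)

theorem ext_empty {A : Type} (r : A → A → Prop) : Extendable r (∅ : Set A) ∅ := by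
  refine ⟨Empty, inferInstance, fun _ _ => False, ⟨fun a => a.elim, fun a => a.elim⟩,
    fun x => absurd x.2 (Set.notMem_empty _), ?_, ?_, ?_⟩
  · intro x
    exact absurd x.2 (Set.notMem_empty _)
  · intro x
    exact absurd x.2 (Set.notMem_empty _)
  · intro φ hφ
    exact absurd hφ (Set.notMem_empty φ)

/-- small maps are free -/
theorem ext_small {A : Type} [Finite A] (r : A → A → Prop) (hr : IsTour r) (X : Set A)
    (F : Set (Set (A × A))) (h : Extendable r X F) : Extendable r X (F ∪ Small r X) := by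
  have h2 := glue_two r hr X ∅ (by simp) F ∅ h (ext_empty r)
  rw [Set.union_empty, Set.union_empty] at h2
  exact h2

/-- all vertices and all small maps -/
theorem ext_univ {A : Type} [Finite A] (r : A → A → Prop) (hr : IsTour r) (X Y : Set A)
    (hXY : X ⊆ Y) (F : Set (Set (A × A))) (h : Extendable r X F) :
    Extendable r Y (F ∪ Small r Y) := by
  classical
  have : Fintype A := Fintype.ofFinite A
  have main : ∀ t : Finset A, Extendable r (X ∪ t) F := by
    intro t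
    induction t using Finset.induction_on with
    | empty => simpa using h
    | insert a t ha ih =>
      by_cases hm : a ∈ X ∪ t
      · have e1 : X ∪ ((insert a t : Finset A) : Set A) = X ∪ t := by
          rw [Finset.coe_insert, Set.union_insert, Set.insert_eq_of_mem hm]
        rw [e1]
        exact ih
      · have h3 : ((X ∪ (t : Set A)) ∩ {a}).encard ≤ 2 := by
          refine (Set.encard_le_encard Set.inter_subset_right).trans ?_
          rw [Set.encard_singleton]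
          exact one_le_two
        have h4 := glue_two r hr _ _ h3 _ _ ih (ext_single r hr a)
        have e1 : X ∪ ((insert a t : Finset A) : Set A) = (X ∪ t) ∪ {a} := by
          rw [Finset.coe_insert, Set.union_insert, Set.insert_eq, Set.union_comm]
        rw [e1]
        exact h4.mono (fun φ hφ => Or.inl (Or.inl hφ))
  have h1 := main Y.toFinset
  rw [Set.coe_toFinset, Set.union_eq_self_of_subset_left hXY] at h1
  exact ext_small r hr Y F h1

end Pool.Agent.Lib.MP_4e105e_co_forest
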