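import Pool.Agent.Lib.MP_4e105e_co_forest.Sign

/-!
MP_4e105e_co (forest-like families): every sign function is, up to a bound, the Legendre symbol
modulo a prime `q` with `q % 8 = 7` (Dirichlet's theorem and quadratic reciprocity).
-/

set_option autoImplicit false

namespace Pool.Agent.Lib.MP_4e105e_co_forest

/-- a residue with prescribed Legendre symbol -/
theorem exists_res (p : ℕ) [Fact p.Prime] (hp2 : p ≠ 2) (u : ℤˣ) :
    ∃ a : ℤ, legendreSym p a = u := by
  rcases Int.units_eq_one_or u with h | h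
  · exact ⟨1, by rw [h, legendreSym.at_one]; rfl⟩
  · obtain ⟨a, ha⟩ := FiniteField.exists_nonsquare (F := ZMod p) (by
      rw [ZMod.ringChar_zmod_n]; exact hp2)
    refine ⟨(a.val : ℤ), ?_⟩
    rw [h]
    have : legendreSym p (a.val : ℤ) = -1 := by
      rw [legendreSym.eq_neg_one_iff]
      simpa using ha
    rw [this]
    rfl

/-- Lemma Q, the prime -/
theorem exists_prime (δ : ℕ → ℤˣ) (N : ℕ) : ∃ q : ℕ, q.Prime ∧ N < q ∧ q % 8 = 7 ∧
    ∀ p : ℕ, ∀ hp : p.Prime, p ≠ 2 → p ≤ N → ∀ [Fact q.Prime], legendreSym q p = δ p := by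
  classical
  -- indices: the primes up to `N + 2`
  let I := {p : Fin (N + 3) // Nat.Prime p.val}
  let s : I → ℕ := fun i => if i.1.val = 2 then 8 else i.1.val
  have hs0 : ∀ i, s i ≠ 0 := by
    intro i
    show (if i.1.val = 2 then 8 else i.1.val) ≠ 0
    split_ifs
    · norm_num
    · exact i.2.ne_zero
  have hcop : ∀ i j, i ≠ j → Nat.Coprime (s i) (s j) := by
    intro i j hij
    have hne : i.1.val ≠ j.1.val := fun h => hij (Subtype.ext (Fin.ext h))
    have h1 := (Nat.coprime_primes i.2 j.2).mpr hne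
    show Nat.Coprime (if i.1.val = 2 then 8 else i.1.val) (if j.1.val = 2 then 8 else j.1.val)
    split_ifs with a b b
    · exact absurd (a.trans b.symm) hne
    · rw [a] at h1
      exact Nat.Coprime.pow_left 3 h1
    · rw [b] at h1
      exact Nat.Coprime.pow_right 3 h1
    · exact h1
  -- residues
  have hres : ∀ i : I, ∃ a : ℤ, (i.1.val = 2 → a = 7) ∧ (i.1.val ≠ 2 →
      ∀ [Fact (Nat.Prime i.1.val)], legendreSym i.1.val a =
        (δ i.1.val : ℤ) * (if i.1.val % 4 = 3 then -1 else 1)) := by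
    intro i
    by_cases h2 : i.1.val = 2
    · exact ⟨7, fun _ => rfl, fun h => absurd h2 h⟩
    · have : Fact (Nat.Prime i.1.val) := ⟨i.2⟩
      by_cases h3 : i.1.val % 4 = 3
      · obtain ⟨a, ha⟩ := exists_res i.1.val h2 (δ i.1.val * -1)
        refine ⟨a, fun h => absurd h h2, fun _ _ => ?_⟩
        rw [ha, if_pos h3]
        push_cast
        rfl
      · obtain ⟨a, ha⟩ := exists_res i.1.val h2 (δ i.1.val)
        refine ⟨a, fun h => absurd h h2, fun _ _ => ?_⟩
        rw [ha, if_neg h3, mul_one]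
  choose a ha2 ha using hres
  obtain ⟨c, hc0, hc⟩ := crt s hs0 hcop a 0
  set m : ℕ := ∏ i, s i with hm
  have hsm : ∀ i, s i ∣ m := fun i => Finset.dvd_prod_of_mem s (Finset.mem_univ i)
  have hm0 : m ≠ 0 := Finset.prod_ne_zero_iff.mpr fun i _ => hs0 i
  have : NeZero m := ⟨hm0⟩
  -- `c` is a unit modulo `m`
  have hcu : ∀ i, IsCoprime c (s i : ℤ) := by
    intro i
    obtain ⟨t, ht⟩ := hc i
    have hci : c = a i + s i * t := by linear_combination ht
    rw [hci]
    apply IsCoprime.add_mul_left_left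
    by_cases h2 : i.1.val = 2
    · rw [ha2 i h2]
      have : s i = 8 := by
        show (if i.1.val = 2 then 8 else i.1.val) = 8
        rw [if_pos h2]
      rw [this]
      exact ⟨-1, 1, by norm_num⟩
    · have : Fact (Nat.Prime i.1.val) := ⟨i.2⟩
      have hsi : s i = i.1.val := by
        show (if i.1.val = 2 then 8 else i.1.val) = i.1.val
        rw [if_neg h2]
      rw [hsi, isCoprime_comm]
      have hpz : Prime (i.1.val : ℤ) := Nat.prime_iff_prime_int.mp i.2
      rw [Prime.coprime_iff_not_dvd hpz]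
      intro hd
      have h1 := ha i h2
      have h3 : legendreSym i.1.val (a i) = 0 := by
        rw [legendreSym.eq_zero_iff]
        exact (ZMod.intCast_zmod_eq_zero_iff_dvd _ _).mpr hd
      rw [h3] at h1
      rcases Int.units_eq_one_or (δ i.1.val) with e | e <;> rw [e] at h1 <;>
        split_ifs at h1 <;> simp at h1
  have hcm : IsCoprime c (m : ℤ) := by
    rw [hm, Nat.cast_prod]
    exact IsCoprime.prod_right fun i _ => hcu i
  have hunit : IsUnit ((c.toNat : ℕ) : ZMod m) := by
    rw [ZMod.isUnit_iff_coprime]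
    have h1 : ((c.toNat : ℕ) : ℤ) = c := Int.toNat_of_nonneg hc0.le
    rw [← h1] at hcm
    exact Nat.isCoprime_iff_coprime.mp hcm
  obtain ⟨q, hqN, hqp, hqc⟩ := Nat.forall_exists_prime_gt_and_eq_mod hunit N
  have hqm : (m : ℤ) ∣ (q : ℤ) - c := by
    have h1 : ((c.toNat : ℕ) : ℤ) = c := Int.toNat_of_nonneg hc0.le
    rw [← h1]
    rw [ZMod.natCast_eq_natCast_iff] at hqc
    have := Nat.modEq_iff_dvd.mp hqc.symm
    exact this
  have hqi : ∀ i, (s i : ℤ) ∣ (q : ℤ) - a i := by
    intro i
    have h1 : (s i : ℤ) ∣ (q : ℤ) - c := (Int.natCast_dvd_natCast.mpr (hsm i)).trans hqm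
    have h2 := dvd_add h1 (hc i)
    simpa using h2
  have hq8 : q % 8 = 7 := by
    let i2 : I := ⟨⟨2, by omega⟩, Nat.prime_two⟩
    have h1 := hqi i2
    rw [ha2 i2 rfl] at h1
    have h3 : s i2 = 8 := rfl
    rw [h3] at h1
    omega
  refine ⟨q, hqp, hqN, hq8, ?_⟩
  intro p hp hp2 hpN hqf
  have : Fact (Nat.Prime p) := ⟨hp⟩
  let i : I := ⟨⟨p, by omega⟩, hp⟩
  have h1 := hqi i
  have hsi : s i = p := by
    show (if p = 2 then 8 else p) = p
    rw [if_neg hp2]
  rw [hsi] at h1
  have h2 : legendreSym p q = (δ p : ℤ) * (if p % 4 = 3 then -1 else 1) := by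
    have h3 := ha i hp2
    rw [← h3]
    unfold legendreSym
    congr 1
    have h4 : ((q : ℤ) : ZMod p) = ((a i : ℤ) : ZMod p) := by
      rw [ZMod.intCast_eq_intCast_iff, Int.modEq_iff_dvd]
      exact (dvd_sub_comm).mp h1
    exact h4
  have hq4 : q % 4 = 3 := by omega
  have hp4 : p % 4 = 1 ∨ p % 4 = 3 := by
    have := hp.eq_two_or_odd
    omega
  rcases hp4 with h4 | h4
  · have := legendreSym.quadratic_reciprocity_one_mod_four h4 (by omega : q ≠ 2)
    rw [this, h2, if_neg (by omega), mul_one]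
  · have := legendreSym.quadratic_reciprocity_three_mod_four h4 hq4
    rw [this, h2, if_pos h4]
    ring

/-- Lemma Q -/
theorem paley (δ : ℕ → ℤˣ) (hδ : δ 2 = 1) (N : ℕ) : ∃ q : ℕ, ∃ _ : Fact q.Prime, N < q ∧
    q % 8 = 7 ∧ ∀ x : ℤ, x.natAbs ≤ N → legendreSym q x = S δ x := by
  obtain ⟨q, hqp, hqN, hq8, hq⟩ := exists_prime δ N
  have : Fact q.Prime := ⟨hqp⟩
  refine ⟨q, ⟨hqp⟩, hqN, hq8, ?_⟩
  have hq2 : q ≠ 2 := by omega
  -- natural numbers
  have hnat : ∀ n : ℕ, n ≠ 0 → n ≤ N → legendreSym q n = M δ n := by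
    intro n
    induction n using Nat.strong_induction_on with
    | _ n ih =>
      intro hn0 hnN
      by_cases h1 : n = 1
      · subst h1
        rw [M_one]
        simp
      · obtain ⟨p, hp, k, rfl⟩ := Nat.exists_prime_and_dvd h1
        have hk0 : k ≠ 0 := by
          rintro rfl
          simp at hn0
        have hp0 := hp.ne_zero
        have hkn : k < p * k := by
          have := hp.two_le
          nlinarith [Nat.pos_of_ne_zero hk0]
        have hpn : p ≤ p * k := Nat.le_mul_of_pos_right p (Nat.pos_of_ne_zero hk0)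
        have h2 := ih k hkn hk0 (by omega)
        rw [M_mul δ hp0 hk0, M_prime δ hp]
        push_cast
        rw [legendreSym.mul, h2]
        congr 1
        by_cases hp2 : p = 2
        · subst hp2
          rw [hδ]
          have : legendreSym q 2 = 1 := by
            rw [legendreSym.at_two hq2, ZMod.χ₈_nat_eq_if_mod_eight]
            have h3 : ¬ (q % 2 = 0) := by omega
            rw [if_neg h3, if_pos (Or.inr hq8)]
          simpa using this
        · exact hq p hp hp2 (by omega)
  intro x hx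
  by_cases h0 : x = 0
  · subst h0
    rw [S_zero]
    rw [legendreSym.eq_zero_iff]
    simp
  have hn := hnat x.natAbs (by omega) hx
  unfold S
  rcases lt_or_gt_of_ne h0 with h | h
  · have h1 : x = (-1) * (x.natAbs : ℤ) := by omega
    have h2 : legendreSym q (-1) = -1 := by
      rw [legendreSym.at_neg_one hq2]
      exact ZMod.χ₄_nat_three_mod_four (by omega)
    rw [Int.sign_eq_neg_one_of_neg h]
    conv_lhs => rw [h1]
    rw [legendreSym.mul, h2, hn]
  · have h1 : x = (x.natAbs : ℤ) := by omega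
    rw [Int.sign_eq_one_of_pos h, one_mul]
    conv_lhs => rw [h1]
    exact hn

end Pool.Agent.Lib.MP_4e105e_co_forest
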