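import Mathlib

/-!
MP_4e105e_co (forest-like families): a finite tournament from coordinates in `F_q`, `q % 4 = 3`,
indexed by a finite group of odd order.
-/

set_option autoImplicit false

namespace Pool.Agent.Lib.MP_4e105e_co_forest

/-- `r` is a tournament -/
def IsTour {A : Type} (r : A → A → Prop) : Prop :=
  (∀ a, ¬ r a a) ∧ ∀ a b, a ≠ b → (r a b ↔ ¬ r b a)

/-- nonzero squares -/
def Sq {q : ℕ} (x : ZMod q) : Prop := x ≠ 0 ∧ IsSquare x

section

variable {q : ℕ} [Fact q.Prime] {G : Type} [Group G]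

theorem Sq.mul {x y : ZMod q} (hx : Sq x) (hy : Sq y) : Sq (x * y) :=
  ⟨mul_ne_zero hx.1 hy.1, hx.2.mul hy.2⟩

theorem Sq.inv {x : ZMod q} (hx : Sq x) : Sq x⁻¹ := by
  refine ⟨inv_ne_zero hx.1, ?_⟩
  obtain ⟨y, hy⟩ := hx.2
  exact ⟨y⁻¹, by rw [hy, mul_inv]⟩

theorem Sq.one : Sq (1 : ZMod q) := ⟨one_ne_zero, ⟨1, by simp⟩⟩

theorem Sq.mul_iff {x y : ZMod q} (hx : Sq x) : Sq (x * y) ↔ Sq y := by
  constructor
  · intro h
    have := hx.inv.mul h
    rwa [← mul_assoc, inv_mul_cancel₀ hx.1, one_mul] at this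
  · exact fun h => hx.mul h

theorem not_sq_neg (hq : q % 4 = 3) {x : ZMod q} (hx : Sq x) (hx' : Sq (-x)) : False := by
  have h1 := hx'.mul hx.inv
  have h2 : -x * x⁻¹ = -1 := by
    rw [neg_mul, mul_inv_cancel₀ hx.1]
  rw [h2] at h1
  exact ZMod.exists_sq_eq_neg_one_iff.mp h1.2 hq

/-- the maps -/
def act (h : G) (c t : G → ZMod q) (v : G → ZMod q) : G → ZMod q :=
  fun g => c g * v (h⁻¹ * g) + t g

/-- equivalence of pairs -/
def Rel (x y : (G → ZMod q) × (G → ZMod q)) : Prop :=
  ∃ (h : G) (c t : G → ZMod q), (∀ g, Sq (c g)) ∧ y.1 = act h c t x.1 ∧ y.2 = act h c t x.2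

theorem act_act (h h' : G) (c t c' t' v : G → ZMod q) :
    act h' c' t' (act h c t v) =
      act (h' * h) (fun g => c' g * c (h'⁻¹ * g)) (fun g => c' g * t (h'⁻¹ * g) + t' g) v := by
  funext g
  simp only [act, mul_inv_rev, mul_assoc]
  ring

theorem act_inv (h : G) (c t v : G → ZMod q) (hc : ∀ g, Sq (c g)) :
    act h⁻¹ (fun g => (c (h * g))⁻¹) (fun g => -(c (h * g))⁻¹ * t (h * g)) (act h c t v) = v := by
  funext g
  have h1 := (hc (h * g)).1
  simp only [act, inv_inv, inv_mul_cancel_left]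
  field_simp
  ring

theorem rel_equiv : Equivalence (Rel (q := q) (G := G)) where
  refl x := ⟨1, fun _ => 1, fun _ => 0, fun _ => Sq.one, by funext g; simp [act], by
    funext g; simp [act]⟩
  symm := by
    rintro x y ⟨h, c, t, hc, e1, e2⟩
    refine ⟨h⁻¹, fun g => (c (h * g))⁻¹, fun g => -(c (h * g))⁻¹ * t (h * g),
      fun g => (hc _).inv, ?_, ?_⟩
    · rw [e1, act_inv h c t x.1 hc]
    · rw [e2, act_inv h c t x.2 hc]
  trans := by
    rintro x y z ⟨h, c, t, hc, e1, e2⟩ ⟨h', c', t', hc', e1', e2'⟩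
    refine ⟨h' * h, fun g => c' g * c (h'⁻¹ * g), fun g => c' g * t (h'⁻¹ * g) + t' g,
      fun g => (hc' g).mul (hc _), ?_, ?_⟩
    · rw [e1', e1, act_act]
    · rw [e2', e2, act_act]

/-- no swap -/
theorem no_swap (hq : q % 4 = 3) (hodd : ∀ h : G, Odd (orderOf h)) (v w : G → ZMod q)
    (hR : Rel (v, w) (w, v)) : v = w := by
  obtain ⟨h, c, t, hc, e1, e2⟩ := hR
  simp only at e1 e2
  have hd : ∀ g, w g - v g = -(c g * (w (h⁻¹ * g) - v (h⁻¹ * g))) := by
    intro g
    have a1 : w g = c g * v (h⁻¹ * g) + t g := congrFun e1 g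
    have a2 : v g = c g * w (h⁻¹ * g) + t g := congrFun e2 g
    linear_combination a1 - a2
  have hk : ∀ k : ℕ, ∀ g, ∃ s : ZMod q, Sq s ∧
      w g - v g = (-1) ^ k * (s * (w ((h⁻¹) ^ k * g) - v ((h⁻¹) ^ k * g))) := by
    intro k
    induction k with
    | zero => intro g; exact ⟨1, Sq.one, by simp⟩
    | succ k ih =>
      intro g
      obtain ⟨s, hs, h1⟩ := ih g
      refine ⟨s * c ((h⁻¹) ^ k * g), hs.mul (hc _), ?_⟩
      have e : (h⁻¹) ^ (k + 1) * g = h⁻¹ * ((h⁻¹) ^ k * g) := by rw [pow_succ', mul_assoc]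
      rw [e, h1, hd ((h⁻¹) ^ k * g), pow_succ]
      ring
  funext g
  obtain ⟨s, hs, h1⟩ := hk (orderOf h) g
  rw [inv_pow, pow_orderOf_eq_one, inv_one, one_mul, (hodd h).neg_one_pow] at h1
  by_contra hne
  have hd0 : w g - v g ≠ 0 := fun h => hne (sub_eq_zero.mp h).symm
  have h2 : (1 + s) * (w g - v g) = 0 := by linear_combination h1
  rcases mul_eq_zero.mp h2 with h3 | h3
  · have h4 : s = -1 := by linear_combination h3
    rw [h4] at hs
    exact not_sq_neg hq Sq.one hs
  · exact hd0 h3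

/-- the square orbit -/
def O (v w : G → ZMod q) : Prop := ∀ g, Sq (w g - v g)

theorem O_act (h : G) (c t v w : G → ZMod q) (hc : ∀ g, Sq (c g)) :
    O (act h c t v) (act h c t w) ↔ O v w := by
  have key : ∀ g, act h c t w g - act h c t v g = c g * (w (h⁻¹ * g) - v (h⁻¹ * g)) := by
    intro g
    simp only [act]
    ring
  constructor
  · intro H g
    have := H (h * g)
    rw [key, inv_mul_cancel_left, (hc _).mul_iff] at this
    exact this
  · intro H g
    rw [key, (hc _).mul_iff]
    exact H _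

theorem act_inj (h : G) (c t v w : G → ZMod q) (hc : ∀ g, Sq (c g))
    (e : act h c t v = act h c t w) : v = w := by
  rw [← act_inv h c t v hc, ← act_inv h c t w hc, e]

end

/-- A finite tournament from coordinates. -/
theorem tour_of_coords {A : Type} (r : A → A → Prop) (hr : IsTour r) (q : ℕ) [Fact q.Prime]
    (hq : q % 4 = 3) (G : Type) [Group G] [Finite G] (hodd : ∀ h : G, Odd (orderOf h))
    (p : A → G → ZMod q) (hp : ∀ a b, r a b → ∀ g, Sq (p b g - p a g)) :
    ∃ (B : Type) (_ : Finite B) (s : B → B → Prop), IsTour s ∧ ∃ e : A ↪ B,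
      (∀ a b, r a b ↔ s (e a) (e b)) ∧
      ∀ T : A → A → Prop, (∃ (h : G) (c t : G → ZMod q), (∀ g, Sq (c g)) ∧
        ∀ a a', T a a' → p a' = act h c t (p a)) →
        ∃ σ : B ≃ B, (∀ x y, s x y ↔ s (σ x) (σ y)) ∧ ∀ a a', T a a' → σ (e a) = e a' := by
  classical
  let st : Setoid ((G → ZMod q) × (G → ZMod q)) := ⟨Rel, rel_equiv⟩
  have : Fintype (ZMod q) := ZMod.fintype q
  have : Finite (G → ZMod q) := inferInstance
  obtain ⟨n, ⟨en⟩⟩ := Finite.exists_equiv_fin (Quotient st)
  let cls : (G → ZMod q) × (G → ZMod q) → ℕ := fun x => (en (Quotient.mk st x) : ℕ)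
  have hcls : ∀ x y, Rel x y → cls x = cls y := by
    intro x y h
    show (en (Quotient.mk st x) : ℕ) = en (Quotient.mk st y)
    rw [Quotient.sound (s := st) h]
  have hcls' : ∀ x y, cls x = cls y → Rel x y := by
    intro x y h
    exact Quotient.exact (s := st) (en.injective (Fin.ext h))
  let s : (G → ZMod q) → (G → ZMod q) → Prop := fun v w =>
    v ≠ w ∧ (O v w ∨ (¬ O w v ∧ cls (v, w) < cls (w, v)))
  have hOO : ∀ v w : G → ZMod q, O v w → O w v → False := by
    intro v w h1 h2
    have a1 := h1 1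
    have a2 := h2 1
    rw [← neg_sub] at a2
    exact not_sq_neg hq a1 a2
  have hs : IsTour s := by
    refine ⟨fun v h => h.1 rfl, ?_⟩
    intro v w hvw
    have hne : cls (v, w) ≠ cls (w, v) := fun h => hvw (no_swap hq hodd v w (hcls' _ _ h))
    by_cases h1 : O v w
    · have h2 : ¬ O w v := fun h => hOO v w h1 h
      constructor
      · rintro - ⟨-, h | ⟨h, -⟩⟩
        · exact h2 h
        · exact h h1
      · intro _
        exact ⟨hvw, Or.inl h1⟩
    · by_cases h2 : O w v
      · constructor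
        · rintro ⟨-, h | ⟨h, -⟩⟩
          · exact absurd h h1
          · exact absurd h2 h
        · intro h
          exact absurd ⟨hvw.symm, Or.inl h2⟩ h
      · constructor
        · rintro ⟨-, h | ⟨-, h⟩⟩
          · exact absurd h h1
          · rintro ⟨-, h' | ⟨-, h'⟩⟩
            · exact h2 h'
            · omega
        · intro h
          refine ⟨hvw, Or.inr ⟨h2, ?_⟩⟩
          by_contra hlt
          exact h ⟨hvw.symm, Or.inr ⟨h1, by omega⟩⟩
  have hrne : ∀ a b, r a b → a ≠ b := by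
    rintro a b h rfl
    exact hr.1 a h
  have hpne : ∀ a b, a ≠ b → p a ≠ p b := by
    intro a b hab h
    by_cases h1 : r a b
    · have := (hp a b h1 1).1
      rw [h] at this
      simp at this
    · have h2 : r b a := by
        by_contra h2
        exact h1 ((hr.2 a b hab).mpr h2)
      have := (hp b a h2 1).1
      rw [h] at this
      simp at this
  refine ⟨G → ZMod q, inferInstance, s, hs, ⟨p, fun a b h => by
    by_contra hab
    exact hpne a b hab h⟩, ?_, ?_⟩
  · intro a b
    show r a b ↔ s (p a) (p b)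
    have h1 : ∀ a b, r a b → s (p a) (p b) := fun a b h =>
      ⟨hpne a b (hrne a b h), Or.inl (hp a b h)⟩
    constructor
    · exact h1 a b
    · intro h
      have hab : a ≠ b := fun e => h.1 (by rw [e])
      rw [hr.2 a b hab]
      intro h2
      exact (hs.2 _ _ h.1).mp h (h1 b a h2)
  · rintro T ⟨h, c, t, hc, hD⟩
    have hinj : Function.Injective (act h c t : (G → ZMod q) → G → ZMod q) :=
      fun v w e => act_inj h c t v w hc e
    refine ⟨Equiv.ofBijective _ (Finite.injective_iff_bijective.mp hinj), ?_, ?_⟩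
    · intro v w
      show s v w ↔ s (act h c t v) (act h c t w)
      have h1 : ∀ v w, cls (act h c t v, act h c t w) = cls (v, w) := by
        intro v w
        exact (hcls _ _ ⟨h, c, t, hc, rfl, rfl⟩).symm
      show (v ≠ w ∧ (O v w ∨ (¬ O w v ∧ cls (v, w) < cls (w, v)))) ↔
        (act h c t v ≠ act h c t w ∧ (O (act h c t v) (act h c t w) ∨
          (¬ O (act h c t w) (act h c t v) ∧
            cls (act h c t v, act h c t w) < cls (act h c t w, act h c t v))))
      rw [O_act h c t v w hc, O_act h c t w v hc, h1, h1]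
      have h2 : v ≠ w ↔ act h c t v ≠ act h c t w :=
        ⟨fun hne e => hne (hinj e), fun hne e => hne (by rw [e])⟩
      rw [← h2]
    · intro a a' ha
      show act h c t (p a) = p a'
      rw [hD a a' ha]

/-- maps with at most two elements are of the right form -/
theorem small_map {A : Type} (r : A → A → Prop) (hr : IsTour r) (q : ℕ) [Fact q.Prime]
    (G : Type) [Group G] (p : A → G → ZMod q) (hp : ∀ a b, r a b → ∀ g, Sq (p b g - p a g))
    (D : Set A) (f : A → A) (hD : D.encard ≤ 2)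
    (hf : ∀ x ∈ D, ∀ y ∈ D, r x y → r (f x) (f y)) :
    ∃ (h : G) (c t : G → ZMod q), (∀ g, Sq (c g)) ∧ ∀ a ∈ D, p (f a) = act h c t (p a) := by
  classical
  -- a pair
  have pair : ∀ a b : A, D ⊆ {a, b} → a ∈ D → b ∈ D → r a b →
      ∃ (h : G) (c t : G → ZMod q), (∀ g, Sq (c g)) ∧ ∀ a ∈ D, p (f a) = act h c t (p a) := by
    intro a b hsub ha hb hab
    have hab' := hf a ha b hb hab
    refine ⟨1, fun g => (p (f b) g - p (f a) g) * (p b g - p a g)⁻¹,
      fun g => p (f a) g - (p (f b) g - p (f a) g) * (p b g - p a g)⁻¹ * p a g,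
      fun g => (hp _ _ hab' g).mul (hp _ _ hab g).inv, ?_⟩
    intro x hx
    have hne : ∀ g, p b g - p a g ≠ 0 := fun g => (hp _ _ hab g).1
    rcases hsub hx with rfl | hx
    · funext g
      simp only [act, inv_one, one_mul]
      ring
    · rw [Set.mem_singleton_iff.mp hx]
      funext g
      simp only [act, inv_one, one_mul]
      have h1 := mul_inv_cancel₀ (hne g)
      linear_combination -(p (f b) g - p (f a) g) * h1
  by_cases hsing : D.Subsingleton
  · rcases hsing.eq_empty_or_singleton with rfl | ⟨a, rfl⟩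
    · exact ⟨1, fun _ => 1, fun _ => 0, fun _ => Sq.one, fun a ha => absurd ha (Set.notMem_empty a)⟩
    · refine ⟨1, fun _ => 1, fun g => p (f a) g - p a g, fun _ => Sq.one, ?_⟩
      intro x hx
      rw [Set.mem_singleton_iff.mp hx]
      funext g
      simp [act]
  · rw [Set.not_subsingleton_iff] at hsing
    obtain ⟨a, ha, b, hb, hab⟩ := hsing
    have hsub : D ⊆ {a, b} := by
      have h1 : ({a, b} : Set A) ⊆ D := by
        rintro x (rfl | hx)
        · exact ha
        · rw [Set.mem_singleton_iff.mp hx]; exact hb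
      have h2 : ({a, b} : Set A).encard = 2 := Set.encard_pair hab
      exact ((Set.toFinite {a, b}).eq_of_subset_of_encard_le h1 (by rw [h2]; exact hD)).ge
    by_cases h1 : r a b
    · exact pair a b hsub ha hb h1
    · have h2 : r b a := by
        by_contra h2
        exact h1 ((hr.2 a b hab).mpr h2)
      exact pair b a (by rw [Set.pair_comm]; exact hsub) hb ha h2

end Pool.Agent.Lib.MP_4e105e_co_forest
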