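import Pool.Agent.Lib.MP_4e105e_co_forest.Config2
import Pool.Agent.Lib.MP_4e105e_co_forest.Paley
import Pool.Agent.Lib.MP_4e105e_co_forest.Tour

/-!
MP_4e105e_co (forest-like families): gluing of two extendable families along at most two vertices.
-/

set_option autoImplicit false

namespace Pool.Agent.Lib.MP_4e105e_co_forest

/-- automorphisms of a relation -/
def Aut {B : Type} (s : B → B → Prop) : Subgroup (Equiv.Perm B) where
  carrier := {σ | ∀ x y, s x y ↔ s (σ x) (σ y)}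
  mul_mem' := by
    intro σ τ hσ hτ x y
    rw [hτ x y, hσ (τ x) (τ y)]
    rfl
  one_mem' := fun x y => Iff.rfl
  inv_mem' := by
    intro σ hσ x y
    have := hσ (σ⁻¹ x) (σ⁻¹ y)
    simpa using this.symm

theorem mem_Aut {B : Type} {s : B → B → Prop} {σ : Equiv.Perm B} :
    σ ∈ Aut s ↔ ∀ x y, s x y ↔ s (σ x) (σ y) := Iff.rfl

/-- automorphisms of finite tournaments have odd order -/
theorem aut_odd {B : Type} [Finite B] (s : B → B → Prop) (hs : IsTour s) (h : Aut s) :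
    Odd (orderOf h) := by
  rw [← Nat.not_even_iff_odd]
  rintro ⟨k, hk⟩
  have hpos : 0 < orderOf h := orderOf_pos h
  have h1 : h ^ k ≠ 1 := by
    intro h1
    have := Nat.le_of_dvd (by omega) (orderOf_dvd_of_pow_eq_one h1)
    omega
  have h2 : h ^ k * h ^ k = 1 := by
    rw [← pow_add, ← hk, pow_orderOf_eq_one]
  obtain ⟨x, hx⟩ : ∃ x, (h ^ k).1 x ≠ x := by
    by_contra hcon
    push Not at hcon
    exact h1 (Subtype.ext (Equiv.ext hcon))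
  have h3 : (h ^ k).1 ((h ^ k).1 x) = x := by
    have := congrArg (fun z : Aut s => z.1 x) h2
    simpa using this
  have h4 := (h ^ k).2 x ((h ^ k).1 x)
  rw [h3] at h4
  have h5 := hs.2 x ((h ^ k).1 x) (Ne.symm hx)
  tauto

theorem aut_prod_odd {B1 B2 : Type} [Finite B1] [Finite B2] (s1 : B1 → B1 → Prop)
    (s2 : B2 → B2 → Prop) (h1 : IsTour s1) (h2 : IsTour s2) (h : Aut s1 × Aut s2) :
    Odd (orderOf h) := by
  rw [Prod.orderOf]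
  have a1 := aut_odd s1 h1 h.1
  have a2 := aut_odd s2 h2 h.2
  exact Odd.of_dvd_nat (a1.mul a2) (Nat.lcm_dvd_mul _ _)

theorem sq_of_S {q : ℕ} [Fact q.Prime] {δ : ℕ → ℤˣ} {N : ℕ}
    (hq : ∀ x : ℤ, x.natAbs ≤ N → legendreSym q x = S δ x) {x : ℤ} (hx : x.natAbs ≤ N)
    (h : S δ x = 1) : Sq (x : ZMod q) := by
  have h1 := hq x hx
  rw [h] at h1
  have h0 : (x : ZMod q) ≠ 0 := by
    intro h0
    rw [(legendreSym.eq_zero_iff q x).mpr h0] at h1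
    exact zero_ne_one h1
  exact ⟨h0, (legendreSym.eq_one_iff q h0).mp h1⟩


section

variable {q : ℕ} [Fact q.Prime] {G B L : Type} [Group G]

/-- normalised coordinates -/
def pp (e : L → B → ZMod q) (β β' : B) (π : G → Equiv.Perm B) (l : G → L) (b : B) (g : G) :
    ZMod q :=
  (e (l g) ((π g)⁻¹ b) - e (l g) ((π g)⁻¹ β)) *
    (e (l g) ((π g)⁻¹ β') - e (l g) ((π g)⁻¹ β))⁻¹

omit [Group G] in
theorem pp_sq (s : B → B → Prop) (e : L → B → ZMod q) (he : ∀ l u v, s u v → Sq (e l v - e l u))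
    (β β' : B) (hβ : s β β') (π : G → Equiv.Perm B) (hπ : ∀ g, π g ∈ Aut s) (l : G → L) (a b : B)
    (hab : s a b) (g : G) : Sq (pp e β β' π l b g - pp e β β' π l a g) := by
  have hs : ∀ u v, s u v → s ((π g)⁻¹ u) ((π g)⁻¹ v) := fun u v h =>
    (mem_Aut.mp (inv_mem (hπ g)) u v).mp h
  have e1 : pp e β β' π l b g - pp e β β' π l a g =
      (e (l g) ((π g)⁻¹ b) - e (l g) ((π g)⁻¹ a)) *
        (e (l g) ((π g)⁻¹ β') - e (l g) ((π g)⁻¹ β))⁻¹ := by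
    unfold pp
    ring
  rw [e1]
  exact (he _ _ _ (hs _ _ hab)).mul (he _ _ _ (hs _ _ hβ)).inv

theorem pp_act (s : B → B → Prop) (e : L → B → ZMod q) (he : ∀ l u v, s u v → Sq (e l v - e l u))
    (β β' : B) (hβ : s β β') (π : G → Equiv.Perm B) (hπs : ∀ g, π g ∈ Aut s) (l : G → L) (k : G)
    (h : Equiv.Perm B) (hπ : ∀ g, π (k⁻¹ * g) = h⁻¹ * π g) (hl : ∀ g, l (k⁻¹ * g) = l g) :
    ∃ c t : G → ZMod q, (∀ g, Sq (c g)) ∧
      ∀ b, pp e β β' π l (h b) = act k c t (pp e β β' π l b) := by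
  have hX : ∀ g, Sq (e (l g) ((π g)⁻¹ β') - e (l g) ((π g)⁻¹ β)) := fun g =>
    he _ _ _ ((mem_Aut.mp (inv_mem (hπs g)) _ _).mp hβ)
  refine ⟨fun g => (e (l (k⁻¹ * g)) ((π (k⁻¹ * g))⁻¹ β') - e (l (k⁻¹ * g)) ((π (k⁻¹ * g))⁻¹ β)) *
    (e (l g) ((π g)⁻¹ β') - e (l g) ((π g)⁻¹ β))⁻¹,
    fun g => (e (l g) ((π g)⁻¹ (h β)) - e (l g) ((π g)⁻¹ β)) *
    (e (l g) ((π g)⁻¹ β') - e (l g) ((π g)⁻¹ β))⁻¹, fun g => (hX _).mul (hX _).inv, ?_⟩
  intro b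
  funext g
  have h1 : ∀ x, (π (k⁻¹ * g))⁻¹ x = (π g)⁻¹ (h x) := by
    intro x
    rw [hπ, mul_inv_rev, inv_inv]
    rfl
  have hA := (hX (k⁻¹ * g)).1
  have hB := (hX g).1
  simp only [act, pp]
  rw [h1, h1, h1, hl] at *
  field_simp
  ring

end

/-- Coordinates for the glued tournament. -/
theorem glue_coords {A : Type} [Finite A] (r : A → A → Prop) (hr : IsTour r) (X1 X2 : Set A)
    (hcov : ∀ a, a ∈ X1 ∨ a ∈ X2) (B1 B2 : Type) [Finite B1] [Finite B2]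
    (s1 : B1 → B1 → Prop) (s2 : B2 → B2 → Prop) (hs1 : IsTour s1) (hs2 : IsTour s2)
    (ι1 : A → B1) (ι2 : A → B2) (hι1 : ∀ a ∈ X1, ∀ b ∈ X1, r a b → s1 (ι1 a) (ι1 b))
    (hι2 : ∀ a ∈ X2, ∀ b ∈ X2, r a b → s2 (ι2 a) (ι2 b)) (β1 β1' : B1) (β2 β2' : B2)
    (hb1 : s1 β1 β1') (hb2 : s2 β2 β2')
    (hβ : ∀ a ∈ X1, a ∈ X2 → (ι1 a = β1 ∧ ι2 a = β2) ∨ (ι1 a = β1' ∧ ι2 a = β2'))
    (hβ1 : ∀ a ∈ X1, a ∉ X2 → ι1 a ≠ β1 ∧ ι1 a ≠ β1')
    (hβ2 : ∀ a ∈ X2, a ∉ X1 → ι2 a ≠ β2 ∧ ι2 a ≠ β2') :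
    ∃ (q : ℕ) (_ : Fact q.Prime) (p : A → (Aut s1 × Aut s2) → ZMod q), q % 4 = 3 ∧
      (∀ a b, r a b → ∀ g, Sq (p b g - p a g)) ∧
      (∀ h : Aut s1, ∃ c t : (Aut s1 × Aut s2) → ZMod q, (∀ g, Sq (c g)) ∧
        ∀ a ∈ X1, ∀ a' ∈ X1, ι1 a' = h.1 (ι1 a) → p a' = act (h, 1) c t (p a)) ∧
      (∀ h : Aut s2, ∃ c t : (Aut s1 × Aut s2) → ZMod q, (∀ g, Sq (c g)) ∧
        ∀ a ∈ X2, ∀ a' ∈ X2, ι2 a' = h.1 (ι2 a) → p a' = act (1, h) c t (p a)) := by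
  classical
  have hrne : ∀ a b, r a b → a ≠ b := by
    rintro a b h rfl
    exact hr.1 a h
  have hrtot : ∀ a b, a ≠ b → r a b ∨ r b a := by
    intro a b hab
    by_cases h : r a b
    · exact Or.inl h
    · right
      by_contra h'
      exact h ((hr.2 a b hab).mpr h')
  have hsne : ∀ {B : Type} (s : B → B → Prop), IsTour s → ∀ a b, s a b → a ≠ b := by
    rintro B s hs a b h rfl
    exact hs.1 a h
  have inj1 : ∀ a ∈ X1, ∀ b ∈ X1, ι1 a = ι1 b → a = b := by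
    intro a ha b hb h
    by_contra hab
    rcases hrtot a b hab with h1 | h1
    · exact hsne s1 hs1 _ _ (hι1 a ha b hb h1) h
    · exact hsne s1 hs1 _ _ (hι1 b hb a ha h1) h.symm
  have inj2 : ∀ a ∈ X2, ∀ b ∈ X2, ι2 a = ι2 b → a = b := by
    intro a ha b hb h
    by_contra hab
    rcases hrtot a b hab with h1 | h1
    · exact hsne s2 hs2 _ _ (hι2 a ha b hb h1) h
    · exact hsne s2 hs2 _ _ (hι2 b hb a ha h1) h.symm
  have asym : ∀ {B : Type} (s : B → B → Prop), IsTour s → ∀ a b, s a b → s b a → False := by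
    intro B s hs a b h h'
    exact (hs.2 a b (hsne s hs a b h)).mp h h'
  have n1 := hsne s1 hs1 _ _ hb1
  have n2 := hsne s2 hs2 _ _ hb2
  let G1 := Aut s1
  let G2 := Aut s2
  have : Finite G1 := inferInstanceAs (Finite (Aut s1))
  have : Finite G2 := inferInstanceAs (Finite (Aut s2))
  let KA := {a // a ∈ X1 ∧ a ∉ X2}
  let KB := {b // b ∈ X2 ∧ b ∉ X1}
  let K := (G1 × G2) × (KA × KB)
  obtain ⟨u, w, δ, hδ2, hu, hw, hk⟩ := config (σ1 := G2 × B1) (σ2 := G1 × B2) (K := K)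
    (fun z z' => z.1 = z'.1 ∧ s1 z.2 z'.2) (fun z z' => z.1 = z'.1 ∧ s2 z.2 z'.2)
    (fun z z' h h' => asym s1 hs1 _ _ h.2 h'.2) (fun z z' h h' => asym s2 hs2 _ _ h.2 h'.2)
    (fun k => (k.1.2, k.1.1.1⁻¹ β1)) (fun k => (k.1.2, k.1.1.1⁻¹ β1'))
    (fun k => (k.1.2, k.1.1.1⁻¹ (ι1 k.2.1.1)))
    (fun k => (k.1.1, k.1.2.1⁻¹ β2)) (fun k => (k.1.1, k.1.2.1⁻¹ β2'))
    (fun k => (k.1.1, k.1.2.1⁻¹ (ι2 k.2.2.1)))
    (by
      rintro ⟨⟨g1, g2⟩, ⟨a, ha⟩, ⟨b, hb⟩⟩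
      obtain ⟨c1, c2⟩ := hβ1 a ha.1 ha.2
      exact ⟨fun h => n1 (g1.1⁻¹.injective (congrArg Prod.snd h)),
        fun h => c1 (g1.1⁻¹.injective (congrArg Prod.snd h)).symm,
        fun h => c2 (g1.1⁻¹.injective (congrArg Prod.snd h)).symm⟩)
    (by
      rintro ⟨⟨g1, g2⟩, ⟨a, ha⟩, ⟨b, hb⟩⟩
      obtain ⟨c1, c2⟩ := hβ2 b hb.1 hb.2
      exact ⟨fun h => n2 (g2.1⁻¹.injective (congrArg Prod.snd h)),
        fun h => c1 (g2.1⁻¹.injective (congrArg Prod.snd h)).symm,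
        fun h => c2 (g2.1⁻¹.injective (congrArg Prod.snd h)).symm⟩)
    (by
      rintro ⟨⟨g1, g2⟩, ⟨a, ha⟩, ⟨b, hb⟩⟩ ⟨⟨g1', g2'⟩, ⟨a', ha'⟩, ⟨b', hb'⟩⟩ hne
      by_cases e2 : g2' = g2
      · subst e2
        by_cases e1 : g1' = g1
        · subst e1
          refine Or.inr (Or.inr ⟨rfl, rfl, rfl, rfl, ?_⟩)
          by_cases e3 : a' = a
          · subst e3
            refine Or.inl ⟨rfl, fun h => hne ?_⟩
            have := inj2 b' hb'.1 b hb.1 (g2'.1⁻¹.injective (congrArg Prod.snd h))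
            subst this
            rfl
          · refine Or.inr (fun h => e3 ?_)
            exact inj1 a' ha'.1 a ha.1 (g1'.1⁻¹.injective (congrArg Prod.snd h))
        · refine Or.inr (Or.inl ?_)
          rintro s (rfl | rfl | rfl) <;>
          exact ⟨fun h => e1 (congrArg Prod.fst h), fun h => e1 (congrArg Prod.fst h),
            fun h => e1 (congrArg Prod.fst h)⟩
      · refine Or.inl ?_
        rintro s (rfl | rfl | rfl) <;>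
        exact ⟨fun h => e2 (congrArg Prod.fst h), fun h => e2 (congrArg Prod.fst h),
          fun h => e2 (congrArg Prod.fst h)⟩)
    (fun k => if r k.2.1.1 k.2.2.1 then 1 else -1)
  -- the prime
  have : Fintype (G2 × B1) := Fintype.ofFinite _
  have : Fintype (G1 × B2) := Fintype.ofFinite _
  have : Finite KA := Subtype.finite
  have : Finite KB := Subtype.finite
  have : Finite K := inferInstance
  have : Fintype K := Fintype.ofFinite _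
  let bb : K → ℤ := fun k => bil (u (k.1.2, k.1.1.1⁻¹ β1)) (u (k.1.2, k.1.1.1⁻¹ β1'))
    (u (k.1.2, k.1.1.1⁻¹ (ι1 k.2.1.1))) (w (k.1.1, k.1.2.1⁻¹ β2)) (w (k.1.1, k.1.2.1⁻¹ β2'))
    (w (k.1.1, k.1.2.1⁻¹ (ι2 k.2.2.1)))
  obtain ⟨q, hqf, -, hq8, hq⟩ := paley δ hδ2 ((∑ z, ∑ z', (u z' - u z).natAbs) +
    (∑ z, ∑ z', (w z' - w z).natAbs) + ∑ k, (bb k).natAbs)
  have sq1 : ∀ z z' : G2 × B1, (z.1 = z'.1 ∧ s1 z.2 z'.2) → Sq ((u z' - u z : ℤ) : ZMod q) := by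
    intro z z' h
    have a1 := Finset.single_le_sum (f := fun z => ∑ z', (u z' - u z).natAbs)
      (fun _ _ => Nat.zero_le _) (Finset.mem_univ z)
    have a2 := Finset.single_le_sum (f := fun z' => (u z' - u z).natAbs)
      (fun _ _ => Nat.zero_le _) (Finset.mem_univ z')
    exact sq_of_S hq (by omega) (hu z z' h)
  have sq2 : ∀ z z' : G1 × B2, (z.1 = z'.1 ∧ s2 z.2 z'.2) → Sq ((w z' - w z : ℤ) : ZMod q) := by
    intro z z' h
    have a1 := Finset.single_le_sum (f := fun z => ∑ z', (w z' - w z).natAbs)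
      (fun _ _ => Nat.zero_le _) (Finset.mem_univ z)
    have a2 := Finset.single_le_sum (f := fun z' => (w z' - w z).natAbs)
      (fun _ _ => Nat.zero_le _) (Finset.mem_univ z')
    exact sq_of_S hq (by omega) (hw z z' h)
  have bdk : ∀ k, (bb k).natAbs ≤ ∑ k, (bb k).natAbs := fun k =>
    Finset.single_le_sum (f := fun k => (bb k).natAbs) (fun _ _ => Nat.zero_le _)
      (Finset.mem_univ k)
  have sqk : ∀ k : K, r k.2.1.1 k.2.2.1 → Sq ((bb k : ℤ) : ZMod q) := by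
    intro k hrk
    have h1 := hk k
    rw [if_pos hrk] at h1
    exact sq_of_S hq (by have := bdk k; omega) h1
  have sqk' : ∀ k : K, r k.2.2.1 k.2.1.1 → Sq ((-bb k : ℤ) : ZMod q) := by
    intro k hrk
    have h1 := hk k
    have hnr : ¬ r k.2.1.1 k.2.2.1 := (hr.2 _ _ (hrne _ _ hrk)).mp hrk
    rw [if_neg hnr] at h1
    refine sq_of_S hq (by have := bdk k; rw [Int.natAbs_neg]; omega) ?_
    rw [S_neg]
    have h2 : S δ (bb k) = ((-1 : ℤˣ) : ℤ) := h1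
    rw [h2]
    rfl
  let E1 : G2 → B1 → ZMod q := fun g b => ((u (g, b) : ℤ) : ZMod q)
  let E2 : G1 → B2 → ZMod q := fun g b => ((w (g, b) : ℤ) : ZMod q)
  have hE1 : ∀ l x y, s1 x y → Sq (E1 l y - E1 l x) := by
    intro l x y h
    have := sq1 (l, x) (l, y) ⟨rfl, h⟩
    push_cast at this
    exact this
  have hE2 : ∀ l x y, s2 x y → Sq (E2 l y - E2 l x) := by
    intro l x y h
    have := sq2 (l, x) (l, y) ⟨rfl, h⟩
    push_cast at this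
    exact this
  let P1 : B1 → (Aut s1 × Aut s2) → ZMod q := pp E1 β1 β1' (fun g => g.1.1) (fun g => g.2)
  let P2 : B2 → (Aut s1 × Aut s2) → ZMod q := pp E2 β2 β2' (fun g => g.2.1) (fun g => g.1)
  have hX1 : ∀ g : Aut s1 × Aut s2, Sq (E1 g.2 (g.1.1⁻¹ β1') - E1 g.2 (g.1.1⁻¹ β1)) := fun g =>
    hE1 _ _ _ ((mem_Aut.mp (inv_mem g.1.2) _ _).mp hb1)
  have hX2 : ∀ g : Aut s1 × Aut s2, Sq (E2 g.1 (g.2.1⁻¹ β2') - E2 g.1 (g.2.1⁻¹ β2)) := fun g =>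
    hE2 _ _ _ ((mem_Aut.mp (inv_mem g.2.2) _ _).mp hb2)
  have z1 : ∀ g, P1 β1 g = 0 := fun g => by
    show (_ - _) * _ = (0 : ZMod q)
    rw [sub_self, zero_mul]
  have z2 : ∀ g, P2 β2 g = 0 := fun g => by
    show (_ - _) * _ = (0 : ZMod q)
    rw [sub_self, zero_mul]
  have o1 : ∀ g, P1 β1' g = 1 := fun g => mul_inv_cancel₀ (hX1 g).1
  have o2 : ∀ g, P2 β2' g = 1 := fun g => mul_inv_cancel₀ (hX2 g).1
  have mix : ∀ (g : Aut s1 × Aut s2) (a b : A), a ∈ X1 → b ∈ X2 →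
      P2 (ι2 b) g - P1 (ι1 a) g =
        ((bil (u (g.2, g.1.1⁻¹ β1)) (u (g.2, g.1.1⁻¹ β1')) (u (g.2, g.1.1⁻¹ (ι1 a)))
          (w (g.1, g.2.1⁻¹ β2)) (w (g.1, g.2.1⁻¹ β2')) (w (g.1, g.2.1⁻¹ (ι2 b))) : ℤ) : ZMod q) *
        ((E1 g.2 (g.1.1⁻¹ β1') - E1 g.2 (g.1.1⁻¹ β1)) *
          (E2 g.1 (g.2.1⁻¹ β2') - E2 g.1 (g.2.1⁻¹ β2)))⁻¹ := by
    intro g a b _ _
    have hA := (hX1 g).1
    have hB := (hX2 g).1
    show (E2 g.1 (g.2.1⁻¹ (ι2 b)) - E2 g.1 (g.2.1⁻¹ β2)) *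
        (E2 g.1 (g.2.1⁻¹ β2') - E2 g.1 (g.2.1⁻¹ β2))⁻¹ -
      (E1 g.2 (g.1.1⁻¹ (ι1 a)) - E1 g.2 (g.1.1⁻¹ β1)) *
        (E1 g.2 (g.1.1⁻¹ β1') - E1 g.2 (g.1.1⁻¹ β1))⁻¹ = _
    unfold bil
    push_cast
    change _ = ((E2 g.1 (g.2.1⁻¹ (ι2 b)) - E2 g.1 (g.2.1⁻¹ β2)) *
      (E1 g.2 (g.1.1⁻¹ β1') - E1 g.2 (g.1.1⁻¹ β1)) -
      (E1 g.2 (g.1.1⁻¹ (ι1 a)) - E1 g.2 (g.1.1⁻¹ β1)) *
      (E2 g.1 (g.2.1⁻¹ β2') - E2 g.1 (g.2.1⁻¹ β2))) * _
    field_simp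
  let p : A → (Aut s1 × Aut s2) → ZMod q := fun a =>
    if a ∈ X1 then P1 (ι1 a) else P2 (ι2 a)
  have p1 : ∀ a ∈ X1, p a = P1 (ι1 a) := by
    intro a ha
    simp only [p, if_pos ha]
  have p2 : ∀ a ∈ X2, p a = P2 (ι2 a) := by
    intro a ha
    by_cases h1 : a ∈ X1
    · rw [p1 a h1]
      funext g
      rcases hβ a h1 ha with ⟨h3, h4⟩ | ⟨h3, h4⟩
      · rw [h3, h4, z1, z2]
      · rw [h3, h4, o1, o2]
    · simp only [p, if_neg h1]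
  refine ⟨q, hqf, p, by omega, ?_, ?_, ?_⟩
  · intro a b hab g
    by_cases ha1 : a ∈ X1
    · by_cases hb1' : b ∈ X1
      · rw [p1 a ha1, p1 b hb1']
        exact pp_sq s1 E1 hE1 β1 β1' hb1 _ (fun g => g.1.2) _ _ _ (hι1 a ha1 b hb1' hab) g
      · have hb2' : b ∈ X2 := (hcov b).resolve_left hb1'
        by_cases ha2 : a ∈ X2
        · rw [p2 a ha2, p2 b hb2']
          exact pp_sq s2 E2 hE2 β2 β2' hb2 _ (fun g => g.2.2) _ _ _ (hι2 a ha2 b hb2' hab) g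
        · rw [p1 a ha1, p2 b hb2', mix g a b ha1 hb2']
          exact (sqk (g, (⟨a, ha1, ha2⟩, ⟨b, hb2', hb1'⟩)) hab).mul ((hX1 g).mul (hX2 g)).inv
    · have ha2 : a ∈ X2 := (hcov a).resolve_left ha1
      by_cases hb2' : b ∈ X2
      · rw [p2 a ha2, p2 b hb2']
        exact pp_sq s2 E2 hE2 β2 β2' hb2 _ (fun g => g.2.2) _ _ _ (hι2 a ha2 b hb2' hab) g
      · have hb1' : b ∈ X1 := (hcov b).resolve_right hb2'
        rw [p1 b hb1', p2 a ha2, ← neg_sub, mix g b a hb1' ha2, ← neg_mul]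
        have h3 := sqk' (g, (⟨b, hb1', hb2'⟩, ⟨a, ha2, ha1⟩)) hab
        rw [Int.cast_neg] at h3
        exact h3.mul ((hX1 g).mul (hX2 g)).inv
  · intro h
    obtain ⟨c, t, hc, hE⟩ := pp_act (G := Aut s1 × Aut s2) s1 E1 hE1 β1 β1' hb1
      (fun g => g.1.1) (fun g => g.1.2) (fun g => g.2) (h, 1) h.1 (fun g => rfl)
      (fun g => by
        show (1 : Aut s2)⁻¹ * g.2 = g.2
        rw [inv_one, one_mul])
    refine ⟨c, t, hc, ?_⟩
    intro a ha a' ha' haa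
    rw [p1 a' ha', p1 a ha, haa]
    exact hE (ι1 a)
  · intro h
    obtain ⟨c, t, hc, hE⟩ := pp_act (G := Aut s1 × Aut s2) s2 E2 hE2 β2 β2' hb2
      (fun g => g.2.1) (fun g => g.2.2) (fun g => g.1) (1, h) h.1 (fun g => rfl)
      (fun g => by
        show (1 : Aut s1)⁻¹ * g.1 = g.1
        rw [inv_one, one_mul])
    refine ⟨c, t, hc, ?_⟩
    intro a ha a' ha' haa
    rw [p2 a' ha', p2 a ha, haa]
    exact hE (ι2 a)

end Pool.Agent.Lib.MP_4e105e_co_forest
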