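import Pool.Agent.Lib.MP_4e105e_co_forest.Sign

/-!
MP_4e105e_co (forest-like families): prescribed signs of polynomials with private primes.
-/

set_option autoImplicit false

namespace Pool.Agent.Lib.MP_4e105e_co_forest

/-- a sign function with prescribed values at numbers which have private primes -/
theorem assign {ι : Type} (δ : ℕ → ℤˣ) (N : ℕ) (x m : ι → ℤ) (P : ι → ℕ)
    (hPp : ∀ k, (P k).Prime) (hPN : ∀ k, N < P k) (hPi : Function.Injective P)
    (hm : ∀ k, x k = P k * m k) (hmd : ∀ k, ¬ (P k : ℤ) ∣ m k)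
    (hother : ∀ k l, l ≠ k → ¬ (P l : ℤ) ∣ x k) (ε : ι → ℤˣ) :
    ∃ δ' : ℕ → ℤˣ, (∀ p ≤ N, δ' p = δ p) ∧ ∀ k, S δ' (x k) = ε k := by
  classical
  have hLne : ∀ k, x k ≠ 0 := by
    intro k h0
    rw [hm k] at h0
    rcases mul_eq_zero.mp h0 with h | h
    · have := (hPp k).ne_zero
      exact this (by exact_mod_cast h)
    · exact hmd k (by rw [h]; exact dvd_zero _)
  have hmne : ∀ k, m k ≠ 0 := by
    intro k h
    exact hmd k (by rw [h]; exact dvd_zero _)
  have hsg := fun k => sign_unit (hLne k)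
  choose σ hσ using hsg
  -- the new sign function
  let δ' : ℕ → ℤˣ := fun p => if h : ∃ k, P k = p then
    ε h.choose * σ h.choose * M δ (m h.choose).natAbs else δ p
  have hδP : ∀ k, δ' (P k) = ε k * σ k * M δ (m k).natAbs := by
    intro k
    have h : ∃ l, P l = P k := ⟨k, rfl⟩
    have h1 : h.choose = k := hPi h.choose_spec
    show (if h : ∃ l, P l = P k then
      ε h.choose * σ h.choose * M δ (m h.choose).natAbs else δ (P k)) = _
    rw [dif_pos h, h1]
  have hδo : ∀ p, (∀ k, P k ≠ p) → δ' p = δ p := by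
    intro p hp
    show (if h : ∃ k, P k = p then _ else δ p) = δ p
    rw [dif_neg]
    rintro ⟨k, hk⟩
    exact hp k hk
  refine ⟨δ', ?_, ?_⟩
  · intro p hp
    apply hδo
    intro k hk
    have := hPN k
    omega
  · intro k
    have hM : M δ' (m k).natAbs = M δ (m k).natAbs := by
      apply M_congr
      intro p _ hpd
      apply hδo
      intro l hl
      subst hl
      have h1 : (P l : ℤ) ∣ m k := Int.natCast_dvd.mpr hpd
      by_cases hlk : l = k
      · subst hlk
        exact hmd l h1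
      · exact hother k l hlk (by rw [hm k]; exact h1.mul_left _)
    unfold S
    rw [hσ k, hm k, Int.natAbs_mul, Int.natAbs_natCast,
      M_mul δ' (hPp k).ne_zero (by have := hmne k; omega), M_prime δ' (hPp k), hδP k, hM]
    have e1 : σ k * (ε k * σ k * M δ (m k).natAbs * M δ (m k).natAbs) = ε k := by
      have a1 := unit_sq (σ k)
      have a2 := unit_sq (M δ (m k).natAbs)
      calc σ k * (ε k * σ k * M δ (m k).natAbs * M δ (m k).natAbs)
          = ε k * (σ k * σ k) * (M δ (m k).natAbs * M δ (m k).natAbs) := by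
            simp only [mul_assoc, mul_left_comm, mul_comm]
        _ = ε k := by rw [a1, a2, mul_one, mul_one]
    exact_mod_cast congrArg (fun z : ℤˣ => (z : ℤ)) e1

/-- prescribed signs of finitely many functions -/
theorem signs {σ ι : Type} [Finite ι] (f : ι → (σ → ℤ) → ℤ)
    (hc : ∀ i (m : ℤ) (v v' : σ → ℤ), (∀ s, m ∣ v s - v' s) → m ∣ f i v - f i v')
    (hw : ∀ i, ∃ v w : σ → ℤ, (∀ t : ℤ, f i (fun s => v s + t * w s) = t) ∧
      ∀ j, j ≠ i → f j v ≠ 0)
    (ε : ι → ℤˣ) :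
    ∃ (v : σ → ℤ) (δ : ℕ → ℤˣ), δ 2 = 1 ∧ ∀ i, S δ (f i v) = ε i := by
  classical
  have : Fintype ι := Fintype.ofFinite ι
  choose v w h1 h2 using hw
  obtain ⟨B, hB2, hB⟩ : ∃ B : ℕ, 2 ≤ B ∧ ∀ i j, (f j (v i)).natAbs ≤ B := by
    refine ⟨2 + ∑ i, ∑ j, (f j (v i)).natAbs, by omega, ?_⟩
    intro i j
    have a1 := Finset.single_le_sum (f := fun j => (f j (v i)).natAbs)
      (fun _ _ => Nat.zero_le _) (Finset.mem_univ j)
    have a2 := Finset.single_le_sum
      (f := fun i => ∑ j, (f j (v i)).natAbs) (fun _ _ => Nat.zero_le _)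
      (Finset.mem_univ i)
    omega
  obtain ⟨P, hPp, hPN, hPi⟩ := primes_fam ι B
  have hcrt : ∀ s : σ, ∃ c : ℤ, ∀ i, ((P i : ℤ) ^ 2) ∣ c - (v i s + P i * w i s) := by
    intro s
    obtain ⟨c, -, hcd⟩ := crt (fun k => P k ^ 2) (fun k => pow_ne_zero 2 (hPp k).ne_zero)
      (fun k l hkl => Nat.Coprime.pow 2 2 ((Nat.coprime_primes (hPp k) (hPp l)).mpr
        (fun h => hkl (hPi h)))) (fun i => v i s + P i * w i s) 0
    refine ⟨c, fun i => ?_⟩
    have := hcd i
    push_cast at this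
    exact this
  choose c hc' using hcrt
  have hval : ∀ i, ((P i : ℤ) ^ 2) ∣ f i c - P i := by
    intro i
    have a1 := hc i ((P i : ℤ) ^ 2) c (fun s => v i s + P i * w i s) (fun s => hc' s i)
    rw [h1] at a1
    exact a1
  have hfac : ∀ i, ∃ m : ℤ, f i c = P i * m ∧ ¬ (P i : ℤ) ∣ m := by
    intro k
    obtain ⟨t, ht⟩ := hval k
    refine ⟨1 + P k * t, by linear_combination ht, ?_⟩
    intro hd
    have h1 : (P k : ℤ) ∣ 1 := by
      have : (P k : ℤ) ∣ (1 + P k * t) - P k * t := dvd_sub hd (dvd_mul_right _ _)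
      simpa using this
    have h2 : P k ∣ 1 := by
      exact_mod_cast h1
    exact (hPp k).one_lt.ne' (Nat.dvd_one.mp h2)
  choose m hm hmd using hfac
  have hother : ∀ k l, l ≠ k → ¬ (P l : ℤ) ∣ f k c := by
    intro k l hlk hd
    have a1 : (P l : ℤ) ∣ f k c - f k (v l) := by
      refine hc k (P l : ℤ) c (v l) (fun s => ?_)
      have a2 : (P l : ℤ) ∣ c s - (v l s + P l * w l s) :=
        (dvd_pow_self _ two_ne_zero).trans (hc' s l)
      have a3 : c s - v l s = (c s - (v l s + P l * w l s)) + P l * w l s := by ring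
      rw [a3]
      exact dvd_add a2 (dvd_mul_right _ _)
    have a2 : (P l : ℤ) ∣ f k (v l) := by
      have : f k (v l) = f k c - (f k c - f k (v l)) := by ring
      rw [this]
      exact dvd_sub hd a1
    have a3 : P l ∣ (f k (v l)).natAbs := Int.natCast_dvd.mp a2
    have a4 := h2 l k (Ne.symm hlk)
    have a5 := Nat.le_of_dvd (by omega) a3
    have a6 := hB l k
    have a7 := hPN l
    omega
  obtain ⟨δ, hδ, hS⟩ := assign (fun _ => 1) B (fun i => f i c) m P hPp hPN hPi hm hmd hother ε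
  exact ⟨c, δ, hδ 2 hB2, hS⟩

/-- polynomial functions -/
def IsPoly {σ : Type} (F : (σ → ℤ) → ℤ) : Prop :=
  ∃ p : MvPolynomial σ ℤ, ∀ v, F v = MvPolynomial.eval v p

theorem IsPoly.sub {σ : Type} {F F' : (σ → ℤ) → ℤ} (h : IsPoly F) (h' : IsPoly F') :
    IsPoly (fun v => F v - F' v) := by
  obtain ⟨p, hp⟩ := h
  obtain ⟨p', hp'⟩ := h'
  exact ⟨p - p', fun v => by show F v - F' v = _; rw [hp, hp', map_sub]⟩

theorem IsPoly.mul {σ : Type} {F F' : (σ → ℤ) → ℤ} (h : IsPoly F) (h' : IsPoly F') :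
    IsPoly (fun v => F v * F' v) := by
  obtain ⟨p, hp⟩ := h
  obtain ⟨p', hp'⟩ := h'
  exact ⟨p * p', fun v => by show F v * F' v = _; rw [hp, hp', map_mul]⟩

theorem IsPoly.over {σ : Type} (ρ : σ → Option ℤ) (s : σ) :
    IsPoly (fun v : σ → ℤ => (ρ s).getD (v s)) := by
  rcases h : ρ s with _ | z
  · exact ⟨MvPolynomial.X s, fun v => by simp⟩
  · exact ⟨MvPolynomial.C z, fun v => by simp⟩

/-- a common point where finitely many polynomials do not vanish -/
theorem generic {σ J : Type} [Finite J] (F : J → (σ → ℤ) → ℤ) (hF : ∀ j, IsPoly (F j))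
    (hne : ∀ j, ∃ v, F j v ≠ 0) : ∃ v, ∀ j, F j v ≠ 0 := by
  classical
  have : Fintype J := Fintype.ofFinite J
  choose p hp using hF
  have h1 : ∀ j, p j ≠ 0 := by
    intro j h
    obtain ⟨v, hv⟩ := hne j
    rw [hp, h, map_zero] at hv
    exact hv rfl
  have h2 : ∏ j, p j ≠ 0 := Finset.prod_ne_zero_iff.mpr (fun j _ => h1 j)
  by_contra hcon
  push Not at hcon
  apply h2
  apply MvPolynomial.funext
  intro v
  obtain ⟨j, hj⟩ := hcon v
  rw [map_zero, map_prod]
  exact Finset.prod_eq_zero (Finset.mem_univ j) (by rw [← hp, hj])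

end Pool.Agent.Lib.MP_4e105e_co_forest
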