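import Mathlib

/-!
MP_4e105e_co (forest-like families): completely multiplicative sign functions and the choice of an
integer at which finitely many linear forms have prescribed signs.
-/

set_option autoImplicit false

namespace Pool.Agent.Lib.MP_4e105e_co_forest

/-- the completely multiplicative function with values `δ p` -/
def M (δ : ℕ → ℤˣ) (n : ℕ) : ℤˣ := (n.primeFactorsList.map δ).prod

theorem M_one (δ : ℕ → ℤˣ) : M δ 1 = 1 := by simp [M]

theorem M_mul (δ : ℕ → ℤˣ) {m n : ℕ} (hm : m ≠ 0) (hn : n ≠ 0) : M δ (m * n) = M δ m * M δ n := by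
  unfold M
  rw [((Nat.perm_primeFactorsList_mul hm hn).map δ).prod_eq, List.map_append, List.prod_append]

theorem M_prime (δ : ℕ → ℤˣ) {p : ℕ} (hp : p.Prime) : M δ p = δ p := by
  simp [M, Nat.primeFactorsList_prime hp]

theorem M_congr {δ δ' : ℕ → ℤˣ} {n : ℕ} (h : ∀ p, p.Prime → p ∣ n → δ p = δ' p) :
    M δ n = M δ' n := by
  unfold M
  congr 1
  apply List.map_congr_left
  intro p hp
  exact h p (Nat.prime_of_mem_primeFactorsList hp) (Nat.dvd_of_mem_primeFactorsList hp)

/-- the sign function on the integers -/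
def S (δ : ℕ → ℤˣ) (x : ℤ) : ℤ := Int.sign x * (M δ x.natAbs : ℤ)

theorem S_zero (δ : ℕ → ℤˣ) : S δ 0 = 0 := by simp [S]

theorem S_mul (δ : ℕ → ℤˣ) (x y : ℤ) : S δ (x * y) = S δ x * S δ y := by
  by_cases hx : x = 0
  · simp [hx, S]
  by_cases hy : y = 0
  · simp [hy, S]
  unfold S
  rw [Int.sign_mul, Int.natAbs_mul, M_mul δ (by omega) (by omega)]
  push_cast
  ring

theorem S_neg (δ : ℕ → ℤˣ) (x : ℤ) : S δ (-x) = -S δ x := by
  unfold S
  rw [Int.sign_neg, Int.natAbs_neg]
  ring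

theorem S_congr {δ δ' : ℕ → ℤˣ} {N : ℕ} (h : ∀ p ≤ N, δ' p = δ p) {x : ℤ} (hx : x.natAbs ≤ N) :
    S δ' x = S δ x := by
  by_cases h0 : x = 0
  · simp [h0, S_zero]
  unfold S
  rw [M_congr (δ := δ') (δ' := δ)]
  intro p _ hd
  exact h p ((Nat.le_of_dvd (by omega) hd).trans hx)

theorem unit_sq (u : ℤˣ) : u * u = 1 := by
  rcases Int.units_eq_one_or u with h | h <;> simp [h]

theorem sign_unit {x : ℤ} (hx : x ≠ 0) : ∃ u : ℤˣ, Int.sign x = u := by
  rcases lt_or_gt_of_ne hx with h | h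
  · exact ⟨-1, by simp [Int.sign_eq_neg_one_of_neg h]⟩
  · exact ⟨1, by simp [Int.sign_eq_one_of_pos h]⟩

/-- Chinese remainders for integers -/
theorem crt {ι : Type} [Fintype ι] (m : ι → ℕ) (hm : ∀ k, m k ≠ 0)
    (hc : ∀ k l, k ≠ l → Nat.Coprime (m k) (m l)) (a : ι → ℤ) (C0 : ℤ) :
    ∃ c : ℤ, C0 < c ∧ ∀ k, (m k : ℤ) ∣ c - a k := by
  classical
  obtain ⟨c0, h0⟩ := Nat.chineseRemainderOfFinset (fun k => (a k % (m k : ℤ)).toNat) m
    Finset.univ (fun k _ => hm k) (fun k _ l _ hkl => hc k l hkl)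
  set P : ℤ := ∏ k, (m k : ℤ) with hP
  have hPpos : 0 < P := Finset.prod_pos fun k _ => by
    have := hm k
    omega
  refine ⟨c0 + P * (|C0| + 1), ?_, ?_⟩
  · have h1 : C0 ≤ |C0| := le_abs_self _
    have h2 : |C0| + 1 ≤ P * (|C0| + 1) := by nlinarith [abs_nonneg C0]
    have h3 : (0 : ℤ) ≤ c0 := by positivity
    omega
  · intro k
    have h1 := h0 k (Finset.mem_univ k)
    have h2 : (m k : ℤ) ∣ P := Finset.dvd_prod_of_mem (fun k => (m k : ℤ)) (Finset.mem_univ k)
    have h3 : (m k : ℤ) ∣ (c0 : ℤ) - ((a k % (m k : ℤ)).toNat : ℤ) := by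
      have := (Nat.modEq_iff_dvd.mp h1.symm)
      exact this
    have hmk : (0 : ℤ) < m k := by
      have := hm k
      omega
    have h4 : (((a k % (m k : ℤ)).toNat : ℕ) : ℤ) = a k % (m k : ℤ) :=
      Int.toNat_of_nonneg (Int.emod_nonneg _ (by omega))
    rw [h4] at h3
    have h5 : (m k : ℤ) ∣ a k - a k % (m k : ℤ) := Int.dvd_self_sub_emod
    have h6 : (c0 : ℤ) + P * (|C0| + 1) - a k =
        ((c0 : ℤ) - a k % (m k : ℤ)) + P * (|C0| + 1) - (a k - a k % (m k : ℤ)) := by ring
    rw [h6]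
    exact dvd_sub (dvd_add h3 (h2.mul_right _)) h5

/-- different large primes -/
theorem primes_fam (ι : Type) [Fintype ι] (N : ℕ) : ∃ P : ι → ℕ, (∀ k, (P k).Prime) ∧
    (∀ k, N < P k) ∧ Function.Injective P := by
  classical
  let e := Fintype.equivFin ι
  refine ⟨fun k => Nat.nth Nat.Prime (N + 1 + (e k : ℕ)), ?_, ?_, ?_⟩
  · intro k
    exact Nat.prime_nth_prime _
  · intro k
    have h1 : N + 1 + (e k : ℕ) ≤ Nat.nth Nat.Prime (N + 1 + (e k : ℕ)) :=
      (Nat.nth_strictMono Nat.infinite_setOfPred_prime).id_le _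
    show N < Nat.nth Nat.Prime (N + 1 + (e k : ℕ))
    omega
  · intro k l h
    have h1 := Nat.nth_injective Nat.infinite_setOfPred_prime h
    have h2 : (e k : ℕ) = e l := by
      omega
    exact e.injective (Fin.ext h2)

/-- Lemma G: finitely many linear forms, pairwise not proportional, get prescribed signs at a large
integer, after a change of the sign function at large primes. -/
theorem forms {ι : Type} [Fintype ι] (δ : ℕ → ℤˣ) (N : ℕ) (C0 : ℤ) (α β : ι → ℤ) (ε : ι → ℤˣ)
    (hα : ∀ k, α k ≠ 0) (hnp : ∀ k l, k ≠ l → α k * β l ≠ α l * β k) :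
    ∃ c : ℤ, C0 < c ∧ ∃ δ' : ℕ → ℤˣ, (∀ p ≤ N, δ' p = δ p) ∧
      ∀ k, S δ' (α k * c + β k) = ε k := by
  classical
  -- a large bound
  obtain ⟨B, hB⟩ : ∃ B : ℕ, N ≤ B ∧ (∀ k, (α k).natAbs ≤ B) ∧
      ∀ k l, (α k * β l - α l * β k).natAbs ≤ B := by
    refine ⟨N + (∑ k, (α k).natAbs) + ∑ k, ∑ l, (α k * β l - α l * β k).natAbs, by omega, ?_, ?_⟩
    · intro k
      have := Finset.single_le_sum (f := fun k => (α k).natAbs) (fun _ _ => Nat.zero_le _)
        (Finset.mem_univ k)
      omega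
    · intro k l
      have h1 := Finset.single_le_sum (f := fun l => (α k * β l - α l * β k).natAbs)
        (fun _ _ => Nat.zero_le _) (Finset.mem_univ l)
      have h2 := Finset.single_le_sum
        (f := fun k => ∑ l, (α k * β l - α l * β k).natAbs) (fun _ _ => Nat.zero_le _)
        (Finset.mem_univ k)
      omega
  obtain ⟨hBN, hBα, hBαβ⟩ := hB
  obtain ⟨P, hPp, hPN, hPi⟩ := primes_fam ι B
  -- small nonzero numbers are not divisible by the primes
  have hnd : ∀ k (x : ℤ), x ≠ 0 → x.natAbs ≤ B → ¬ (P k : ℤ) ∣ x := by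
    intro k x hx hxB hd
    have h1 : P k ∣ x.natAbs := Int.natCast_dvd.mp hd
    have := Nat.le_of_dvd (by omega) h1
    have := hPN k
    omega
  -- inverses modulo squares
  have hinv : ∀ k, ∃ u : ℤ, ((P k ^ 2 : ℕ) : ℤ) ∣ α k * u - 1 := by
    intro k
    have h1 : IsCoprime (α k) ((P k ^ 2 : ℕ) : ℤ) := by
      push_cast
      apply IsCoprime.pow_right
      rw [isCoprime_comm]
      have hpz : Prime (P k : ℤ) := Nat.prime_iff_prime_int.mp (hPp k)
      exact (Prime.coprime_iff_not_dvd hpz).mpr (hnd k (α k) (hα k) (hBα k))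
    obtain ⟨a, b, hab⟩ := h1
    exact ⟨a, ⟨-b, by linear_combination hab⟩⟩
  choose u hu using hinv
  obtain ⟨c, hc, hcd⟩ := crt (fun k => P k ^ 2) (fun k => pow_ne_zero 2 (hPp k).ne_zero)
    (fun k l hkl => Nat.Coprime.pow 2 2 ((Nat.coprime_primes (hPp k) (hPp l)).mpr
      (fun h => hkl (hPi h)))) (fun k => u k * ((P k : ℤ) - β k)) C0
  -- the value of a form modulo the square
  have hval : ∀ k, ((P k : ℤ) ^ 2) ∣ (α k * c + β k) - P k := by
    intro k
    have h1 := hcd k
    have h2 := hu k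
    push_cast at h1 h2
    have h3 : (α k * c + β k) - P k = α k * (c - u k * ((P k : ℤ) - β k)) +
        (α k * u k - 1) * ((P k : ℤ) - β k) := by ring
    rw [h3]
    exact dvd_add (h1.mul_left _) (h2.mul_right _)
  have hfac : ∀ k, ∃ m : ℤ, α k * c + β k = P k * m ∧ ¬ (P k : ℤ) ∣ m := by
    intro k
    obtain ⟨t, ht⟩ := hval k
    refine ⟨1 + P k * t, by linear_combination ht, ?_⟩
    intro hd
    have h1 : (P k : ℤ) ∣ 1 := by
      have : (P k : ℤ) ∣ (1 + P k * t) - P k * t := dvd_sub hd (dvd_mul_right _ _)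
      simpa using this
    have h2 : P k ∣ 1 := by
      exact_mod_cast h1
    exact (hPp k).one_lt.ne' (Nat.dvd_one.mp h2)
  choose m hm hmd using hfac
  have hother : ∀ k l, l ≠ k → ¬ (P l : ℤ) ∣ α k * c + β k := by
    intro k l hlk hd
    have h1 : (P l : ℤ) ∣ α l * c + β l := ⟨m l, hm l⟩
    have h2 : (P l : ℤ) ∣ α l * β k - α k * β l := by
      have h3 : α l * β k - α k * β l = α l * (α k * c + β k) - α k * (α l * c + β l) := by ring
      rw [h3]
      exact dvd_sub (hd.mul_left _) (h1.mul_left _)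
    exact hnd l _ (sub_ne_zero.mpr (hnp l k hlk)) (hBαβ l k) h2
  have hLne : ∀ k, α k * c + β k ≠ 0 := by
    intro k h0
    rw [hm k] at h0
    rcases mul_eq_zero.mp h0 with h | h
    · have := (hPp k).ne_zero
      exact this (by exact_mod_cast h)
    · exact hmd k (by rw [h]; exact dvd_zero _)
  have hmne : ∀ k, m k ≠ 0 := by
    intro k h
    exact hmd k (by rw [h]; exact dvd_zero _)
  have hsg := fun k => sign_unit (hLne k)
  choose σ hσ using hsg
  -- the new sign function
  let δ' : ℕ → ℤˣ := fun p => if h : ∃ k, P k = p then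
    ε h.choose * σ h.choose * M δ (m h.choose).natAbs else δ p
  have hδP : ∀ k, δ' (P k) = ε k * σ k * M δ (m k).natAbs := by
    intro k
    have h : ∃ l, P l = P k := ⟨k, rfl⟩
    have h1 : h.choose = k := hPi h.choose_spec
    show (if h : ∃ l, P l = P k then
      ε h.choose * σ h.choose * M δ (m h.choose).natAbs else δ (P k)) = _
    rw [dif_pos h, h1]
  have hδo : ∀ p, (∀ k, P k ≠ p) → δ' p = δ p := by
    intro p hp
    show (if h : ∃ k, P k = p then _ else δ p) = δ p
    rw [dif_neg]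
    rintro ⟨k, hk⟩
    exact hp k hk
  refine ⟨c, hc, δ', ?_, ?_⟩
  · intro p hp
    apply hδo
    intro k hk
    have := hPN k
    omega
  · intro k
    have hM : M δ' (m k).natAbs = M δ (m k).natAbs := by
      apply M_congr
      intro p _ hpd
      apply hδo
      intro l hl
      subst hl
      have h1 : (P l : ℤ) ∣ m k := Int.natCast_dvd.mpr hpd
      by_cases hlk : l = k
      · subst hlk
        exact hmd l h1
      · exact hother k l hlk (by rw [hm k]; exact h1.mul_left _)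
    unfold S
    rw [hσ k, hm k, Int.natAbs_mul, Int.natAbs_natCast,
      M_mul δ' (hPp k).ne_zero (by have := hmne k; omega), M_prime δ' (hPp k), hδP k, hM]
    have e1 : σ k * (ε k * σ k * M δ (m k).natAbs * M δ (m k).natAbs) = ε k := by
      have a1 := unit_sq (σ k)
      have a2 := unit_sq (M δ (m k).natAbs)
      calc σ k * (ε k * σ k * M δ (m k).natAbs * M δ (m k).natAbs)
          = ε k * (σ k * σ k) * (M δ (m k).natAbs * M δ (m k).natAbs) := by
            simp only [mul_assoc, mul_left_comm, mul_comm]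
        _ = ε k := by rw [a1, a2, mul_one, mul_one]
    exact_mod_cast congrArg (fun z : ℤˣ => (z : ℤ)) e1

end Pool.Agent.Lib.MP_4e105e_co_forest
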