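import Pool.Agent.Lib.MP_4e105e_co_forest.Ext

/-!
MP_4e105e_co (gluing of extendable families): gluing over an intersection which meets every orbit of
the first family in at most one vertex.
-/

set_option autoImplicit false

namespace Pool.Agent.Lib.MP_4e105e_co_forest

/-- a finite digraph without 2-cycles in a Paley tournament -/
theorem paley_embed {σ : Type} [Finite σ] (P : σ → σ → Prop) (hP : ∀ x y, P x y → P y x → False) :
    ∃ (q : ℕ) (_ : Fact q.Prime) (e : σ → ZMod q), q % 4 = 3 ∧ ∀ x y, P x y → Sq (e y - e x) := by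
  classical
  have : Fintype σ := Fintype.ofFinite σ
  obtain ⟨u, -, δ, hδ, hu, -, -⟩ := config (σ1 := σ) (σ2 := Empty) (K := Empty) P
    (fun _ _ => False) hP (fun _ _ h => h.elim) (fun k => k.elim) (fun k => k.elim)
    (fun k => k.elim) (fun k => k.elim) (fun k => k.elim) (fun k => k.elim) (fun k => k.elim)
    (fun k => k.elim) (fun k => k.elim) (fun k => k.elim)
  obtain ⟨q, hqf, -, hq8, hq⟩ := paley δ hδ (∑ z, ∑ z', (u z' - u z).natAbs)
  refine ⟨q, hqf, fun z => ((u z : ℤ) : ZMod q), by omega, ?_⟩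
  intro x y h
  have a1 := Finset.single_le_sum (f := fun z => ∑ z', (u z' - u z).natAbs)
    (fun _ _ => Nat.zero_le _) (Finset.mem_univ x)
  have a2 := Finset.single_le_sum (f := fun z' => (u z' - u x).natAbs)
    (fun _ _ => Nat.zero_le _) (Finset.mem_univ y)
  have h1 := sq_of_S hq (by omega) (hu x y h)
  push_cast at h1
  exact h1

/-- groups of automorphisms of finite tournaments have odd order -/
theorem card_aut_odd {B : Type} [Finite B] (s : B → B → Prop) (hs : IsTour s) :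
    Odd (Nat.card (Aut s)) := by
  rw [← Nat.not_even_iff_odd]
  intro h
  have : Fact (Nat.Prime 2) := ⟨Nat.prime_two⟩
  obtain ⟨x, hx⟩ := exists_prime_orderOf_dvd_card' (G := Aut s) 2 h.two_dvd
  have := aut_odd s hs x
  rw [hx] at this
  exact absurd this (by decide)

theorem wreath_odd {B1 B2 : Type} [Finite B1] [Finite B2] (s1 : B1 → B1 → Prop)
    (s2 : B2 → B2 → Prop) (h1 : IsTour s1) (h2 : IsTour s2)
    (k : RegularWreathProduct (Aut s1) (Aut s2)) : Odd (orderOf k) := by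
  have hc : Odd (Nat.card (RegularWreathProduct (Aut s1) (Aut s2))) := by
    rw [RegularWreathProduct.card]
    exact (card_aut_odd s1 h1).pow.mul (card_aut_odd s2 h2)
  exact Odd.of_dvd_nat hc (orderOf_dvd_natCard k)

section

variable {A : Type} {B1 B2 : Type} (s1 : B1 → B1 → Prop) (s2 : B2 → B2 → Prop)
  (X1 X2 : Set A) (ι1 : A → B1) (ι2 : A → B2) (col : A → Option A)

open Classical in
/-- decoding common vertices -/
noncomputable def dec (b : B2) : Option A :=
  if h : ∃ z, (z ∈ X1 ∧ z ∈ X2) ∧ ι2 z = b then some h.choose else none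

/-- the state at a vertex of the second tournament -/
noncomputable def Gf (β : Aut s2 → Aut s1) (x : B2) (y : Aut s2) : Aut s1 ⊕ B1 :=
  match dec X1 X2 ι2 (y.1⁻¹ x) with
  | some z => Sum.inr ((β y).1 (ι1 z))
  | none => Sum.inl (β y)

open Classical in
/-- the position of a vertex -/
noncomputable def nu (a : A) (k : RegularWreathProduct (Aut s1) (Aut s2)) :
    (Aut s2 × (Aut s2 → Aut s1) × B1) ⊕ (B2 × (Aut s2 → (Aut s1 ⊕ B1))) :=
  match (if a ∈ X2 then some a else col a) with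
  | none => Sum.inl (k.right, (fun y => if y = k.right then 1 else k.left y),
      (k.left k.right).1 (ι1 a))
  | some z => Sum.inr (k.right.1 (ι2 z), fun y =>
      if y = k.right ∧ a ∈ X1 then Sum.inr ((k.left k.right).1 (ι1 a)) else
      Gf s1 s2 X1 X2 ι1 ι2 k.left (k.right.1 (ι2 z)) y)

end

/-- Coordinates for the glued tournament. -/
theorem trans_coords {A : Type} [Finite A] (r : A → A → Prop) (hr : IsTour r) (X1 X2 : Set A)
    (hcov : ∀ a, a ∈ X1 ∨ a ∈ X2) (B1 B2 : Type) [Finite B1] [Finite B2]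
    (s1 : B1 → B1 → Prop) (s2 : B2 → B2 → Prop) (hs1 : IsTour s1) (hs2 : IsTour s2)
    (ι1 : A → B1) (ι2 : A → B2) (hι1 : ∀ a ∈ X1, ∀ b ∈ X1, r a b → s1 (ι1 a) (ι1 b))
    (hι2 : ∀ a ∈ X2, ∀ b ∈ X2, r a b → s2 (ι2 a) (ι2 b)) (col : A → Option A)
    (hc1 : ∀ z ∈ X1, z ∈ X2 → col z = some z) (hc2 : ∀ a z, col a = some z → z ∈ X1 ∧ z ∈ X2) :
    ∃ (q : ℕ) (_ : Fact q.Prime)
      (p : A → RegularWreathProduct (Aut s1) (Aut s2) → ZMod q), q % 4 = 3 ∧
      (∀ a b, r a b → ∀ g, Sq (p b g - p a g)) ∧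
      (∀ h : Aut s1, ∃ k : RegularWreathProduct (Aut s1) (Aut s2),
        ∀ a ∈ X1, ∀ a' ∈ X1, col a = col a' → ι1 a' = h.1 (ι1 a) →
          p a' = act k (fun _ => 1) (fun _ => 0) (p a)) ∧
      (∀ h : Aut s2, ∃ k : RegularWreathProduct (Aut s1) (Aut s2),
        ∀ a ∈ X2, ∀ a' ∈ X2, ι2 a' = h.1 (ι2 a) →
          p a' = act k (fun _ => 1) (fun _ => 0) (p a)) := by
  classical
  have hrtot : ∀ a b, a ≠ b → r a b ∨ r b a := by
    intro a b hab
    by_cases h : r a b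
    · exact Or.inl h
    · right
      by_contra h'
      exact h ((hr.2 a b hab).mpr h')
  have hrne : ∀ a b, r a b → a ≠ b := by
    rintro a b h rfl
    exact hr.1 a h
  have rasym : ∀ a b, r a b → r b a → False := fun a b h h' =>
    (hr.2 a b (hrne a b h)).mp h h'
  have hsne : ∀ {B : Type} (s : B → B → Prop), IsTour s → ∀ a b, s a b → a ≠ b := by
    rintro B s hs a b h rfl
    exact hs.1 a h
  have asym : ∀ {B : Type} (s : B → B → Prop), IsTour s → ∀ a b, s a b → s b a → False := by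
    intro B s hs a b h h'
    exact (hs.2 a b (hsne s hs a b h)).mp h h'
  have inj1 : ∀ a ∈ X1, ∀ b ∈ X1, ι1 a = ι1 b → a = b := by
    intro a ha b hb h
    by_contra hab
    rcases hrtot a b hab with h1 | h1
    · exact hsne s1 hs1 _ _ (hι1 a ha b hb h1) h
    · exact hsne s1 hs1 _ _ (hι1 b hb a ha h1) h.symm
  have inj2 : ∀ a ∈ X2, ∀ b ∈ X2, ι2 a = ι2 b → a = b := by
    intro a ha b hb h
    by_contra hab
    rcases hrtot a b hab with h1 | h1
    · exact hsne s2 hs2 _ _ (hι2 a ha b hb h1) h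
    · exact hsne s2 hs2 _ _ (hι2 b hb a ha h1) h.symm
  -- arcs inside `X1` can be read off `s1`
  have back1 : ∀ a ∈ X1, ∀ b ∈ X1, s1 (ι1 a) (ι1 b) → r a b := by
    intro a ha b hb h
    have hab : a ≠ b := by
      rintro rfl
      exact hs1.1 _ h
    rcases hrtot a b hab with h1 | h1
    · exact h1
    · exact (asym s1 hs1 _ _ h (hι1 b hb a ha h1)).elim
  have dec1 : ∀ z ∈ X1, z ∈ X2 → dec X1 X2 ι2 (ι2 z) = some z := by
    intro z h1 h2
    have h : ∃ z', (z' ∈ X1 ∧ z' ∈ X2) ∧ ι2 z' = ι2 z := ⟨z, ⟨h1, h2⟩, rfl⟩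
    unfold dec
    rw [dif_pos h]
    congr 1
    exact inj2 _ h.choose_spec.1.2 _ h2 h.choose_spec.2
  have dec2 : ∀ z ∉ X1, z ∈ X2 → dec X1 X2 ι2 (ι2 z) = none := by
    intro z h1 h2
    unfold dec
    rw [dif_neg]
    rintro ⟨z', h3, h4⟩
    exact h1 (inj2 _ h3.2 _ h2 h4 ▸ h3.1)
  let W := RegularWreathProduct (Aut s1) (Aut s2)
  let bs : A → Option A := fun a => if a ∈ X2 then some a else col a
  have bsX1 : ∀ a ∈ X1, bs a = col a := by
    intro a ha
    by_cases h : a ∈ X2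
    · simp only [bs, if_pos h]
      exact (hc1 a ha h).symm
    · simp only [bs, if_neg h]
  have bsX2 : ∀ a ∈ X2, bs a = some a := by
    intro a h
    simp only [bs, if_pos h]
  have bsnone : ∀ a, bs a = none → a ∈ X1 ∧ a ∉ X2 := by
    intro a h
    have h2 : a ∉ X2 := by
      intro h2
      rw [bsX2 a h2] at h
      exact absurd h (by simp)
    exact ⟨(hcov a).resolve_right h2, h2⟩
  have bssome : ∀ a z, bs a = some z → z ∈ X2 ∧ (a ∈ X1 → z ∈ X1) ∧ (a ∉ X1 → a = z) := by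
    intro a z h
    refine ⟨?_, ?_, ?_⟩
    · by_cases h2 : a ∈ X2
      · rw [bsX2 a h2] at h
        rw [← Option.some_injective _ h]
        exact h2
      · simp only [bs, if_neg h2] at h
        exact (hc2 a z h).2
    · intro ha
      rw [bsX1 a ha] at h
      exact (hc2 a z h).1
    · intro ha
      rw [bsX2 a ((hcov a).resolve_left ha)] at h
      exact Option.some_injective _ h
  have nu0 : ∀ a (k : W), bs a = none → nu s1 s2 X1 X2 ι1 ι2 col a k =
      Sum.inl (k.right, (fun y => if y = k.right then 1 else k.left y),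
        (k.left k.right).1 (ι1 a)) := by
    intro a k h
    have h' : (if a ∈ X2 then some a else col a) = none := h
    unfold nu
    rw [h']
  have nu1 : ∀ a z (k : W), bs a = some z → nu s1 s2 X1 X2 ι1 ι2 col a k =
      Sum.inr (k.right.1 (ι2 z), fun y =>
        if y = k.right ∧ a ∈ X1 then Sum.inr ((k.left k.right).1 (ι1 a)) else
        Gf s1 s2 X1 X2 ι1 ι2 k.left (k.right.1 (ι2 z)) y) := by
    intro a z k h
    have h' : (if a ∈ X2 then some a else col a) = some z := h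
    unfold nu
    rw [h']
  have Gf1 : ∀ (β : Aut s2 → Aut s1) (y : Aut s2) (z : A), z ∈ X1 → z ∈ X2 →
      Gf s1 s2 X1 X2 ι1 ι2 β (y.1 (ι2 z)) y = Sum.inr ((β y).1 (ι1 z)) := by
    intro β y z h1 h2
    have e : y.1⁻¹ (y.1 (ι2 z)) = ι2 z := by simp
    unfold Gf
    rw [e, dec1 z h1 h2]
  have Gf2 : ∀ (β : Aut s2 → Aut s1) (y : Aut s2) (z : A), z ∉ X1 → z ∈ X2 →
      Gf s1 s2 X1 X2 ι1 ι2 β (y.1 (ι2 z)) y = Sum.inl (β y) := by
    intro β y z h1 h2
    have e : y.1⁻¹ (y.1 (ι2 z)) = ι2 z := by simp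
    unfold Gf
    rw [e, dec2 z h1 h2]
  -- vertices of `X2`
  have nu2 : ∀ a (k : W), a ∈ X2 → nu s1 s2 X1 X2 ι1 ι2 col a k =
      Sum.inr (k.right.1 (ι2 a), Gf s1 s2 X1 X2 ι1 ι2 k.left (k.right.1 (ι2 a))) := by
    intro a k ha
    rw [nu1 a a k (bsX2 a ha)]
    congr 2
    funext y
    by_cases h : y = k.right ∧ a ∈ X1
    · rw [if_pos h, h.1, Gf1 _ _ _ h.2 ha]
    · rw [if_neg h]
  -- the comparison relation
  let U : Aut s1 → Aut s1 → A → A → Prop := fun g g' a d =>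
    (a ∈ X1 ∧ d ∈ X1 ∧ g.1 (ι1 a) = g'.1 (ι1 d)) ∨ (a = d ∧ g = g')
  have Q : ∀ (g g' : Aut s1) (a b d c : A), r a b → U g g' a d → U g g' b c → r d c := by
    rintro g g' a b d c hab (⟨h1, h2, h3⟩ | ⟨h1, h2⟩) (⟨h4, h5, h6⟩ | ⟨h4, h5⟩)
    · have a1 := (mem_Aut.mp g.2 _ _).mp (hι1 a h1 b h4 hab)
      rw [h3, h6] at a1
      exact back1 d h2 c h5 ((mem_Aut.mp g'.2 _ _).mpr a1)
    · subst h5
      have : a = d := inj1 a h1 d h2 (g.1.injective h3)
      subst this
      subst h4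
      exact hab
    · subst h2
      have : b = c := inj1 b h4 c h5 (g.1.injective h6)
      subst this
      subst h1
      exact hab
    · subst h1
      subst h4
      exact hab
  have U1 : ∀ (k k' : W) (a d : A), k.right = k'.right →
      nu s1 s2 X1 X2 ι1 ι2 col a k = nu s1 s2 X1 X2 ι1 ι2 col d k' →
      U (k.left k.right) (k'.left k.right) a d := by
    intro k k' a d hk h
    rcases ha : bs a with _ | za
    · rcases hd : bs d with _ | zd
      · rw [nu0 a k ha, nu0 d k' hd] at h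
        have h1 := Sum.inl_injective h
        have h2 : (k.left k.right).1 (ι1 a) = (k'.left k'.right).1 (ι1 d) :=
          congrArg (fun z => z.2.2) h1
        rw [← hk] at h2
        exact Or.inl ⟨(bsnone a ha).1, (bsnone d hd).1, h2⟩
      · rw [nu0 a k ha, nu1 d zd k' hd] at h
        exact absurd h (by simp)
    · rcases hd : bs d with _ | zd
      · rw [nu1 a za k ha, nu0 d k' hd] at h
        exact absurd h (by simp)
      · rw [nu1 a za k ha, nu1 d zd k' hd] at h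
        have h1 := Sum.inr_injective h
        have h2 : k.right.1 (ι2 za) = k'.right.1 (ι2 zd) := congrArg Prod.fst h1
        have h3 := congrFun (congrArg Prod.snd h1) k.right
        change (if k.right = k.right ∧ a ∈ X1 then Sum.inr ((k.left k.right).1 (ι1 a)) else
          Gf s1 s2 X1 X2 ι1 ι2 k.left (k.right.1 (ι2 za)) k.right) =
          (if k.right = k'.right ∧ d ∈ X1 then Sum.inr ((k'.left k'.right).1 (ι1 d)) else
          Gf s1 s2 X1 X2 ι1 ι2 k'.left (k'.right.1 (ι2 zd)) k.right) at h3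
        rw [← hk] at h2 h3
        obtain ⟨a1, a2, a3⟩ := bssome a za ha
        obtain ⟨d1, d2, d3⟩ := bssome d zd hd
        have h4 : za = zd := inj2 _ a1 _ d1 (k.right.1.injective h2)
        subst h4
        by_cases hax : a ∈ X1
        · have hdx : d ∈ X1 := by
            by_contra hdx
            exact hdx ((d3 hdx) ▸ a2 hax)
          rw [if_pos ⟨rfl, hax⟩, if_pos ⟨rfl, hdx⟩] at h3
          exact Or.inl ⟨hax, hdx, Sum.inr_injective h3⟩
        · have hdx : d ∉ X1 := fun hdx => hax ((a3 hax) ▸ d2 hdx)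
          rw [if_neg (fun h => hax h.2), if_neg (fun h => hdx h.2),
            Gf2 _ _ _ ((a3 hax) ▸ hax) a1, Gf2 _ _ _ ((a3 hax) ▸ hax) a1] at h3
          exact Or.inr ⟨(a3 hax).trans (d3 hdx).symm, Sum.inl_injective h3⟩
  have U2 : ∀ (k k' : W) (a d za zd : A), k.right ≠ k'.right → bs a = some za → bs d = some zd →
      nu s1 s2 X1 X2 ι1 ι2 col a k = nu s1 s2 X1 X2 ι1 ι2 col d k' →
      U (k.left k.right) (k'.left k.right) a za := by
    intro k k' a d za zd hk ha hd h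
    rw [nu1 a za k ha, nu1 d zd k' hd] at h
    have h1 := Sum.inr_injective h
    have h2 : k.right.1 (ι2 za) = k'.right.1 (ι2 zd) := congrArg Prod.fst h1
    have h3 := congrFun (congrArg Prod.snd h1) k.right
    change (if k.right = k.right ∧ a ∈ X1 then Sum.inr ((k.left k.right).1 (ι1 a)) else
      Gf s1 s2 X1 X2 ι1 ι2 k.left (k.right.1 (ι2 za)) k.right) =
      (if k.right = k'.right ∧ d ∈ X1 then Sum.inr ((k'.left k'.right).1 (ι1 d)) else
      Gf s1 s2 X1 X2 ι1 ι2 k'.left (k'.right.1 (ι2 zd)) k.right) at h3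
    rw [← h2] at h3
    obtain ⟨a1, a2, a3⟩ := bssome a za ha
    rw [if_neg (c := k.right = k'.right ∧ d ∈ X1) (fun h => hk h.1)] at h3
    by_cases hax : a ∈ X1
    · rw [if_pos ⟨rfl, hax⟩, Gf1 _ _ _ (a2 hax) a1] at h3
      exact Or.inl ⟨hax, a2 hax, Sum.inr_injective h3⟩
    · rw [if_neg (fun h => hax h.2), Gf2 _ _ _ ((a3 hax) ▸ hax) a1,
        Gf2 _ _ _ ((a3 hax) ▸ hax) a1] at h3
      exact Or.inr ⟨a3 hax, Sum.inl_injective h3⟩
  have U0 : ∀ (k k' : W) (a d : A), k.right ≠ k'.right →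
      nu s1 s2 X1 X2 ι1 ι2 col a k = nu s1 s2 X1 X2 ι1 ι2 col d k' →
      ∃ za zd, bs a = some za ∧ bs d = some zd ∧ k.right.1 (ι2 za) = k'.right.1 (ι2 zd) := by
    intro k k' a d hk h
    rcases ha : bs a with _ | za
    · rcases hd : bs d with _ | zd
      · rw [nu0 a k ha, nu0 d k' hd] at h
        have h1 := Sum.inl_injective h
        exact absurd (congrArg Prod.fst h1) hk
      · rw [nu0 a k ha, nu1 d zd k' hd] at h
        exact absurd h (by simp)
    · rcases hd : bs d with _ | zd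
      · rw [nu1 a za k ha, nu0 d k' hd] at h
        exact absurd h (by simp)
      · rw [nu1 a za k ha, nu1 d zd k' hd] at h
        have h1 := Sum.inr_injective h
        exact ⟨za, zd, rfl, rfl, congrArg Prod.fst h1⟩
  -- no conflicts
  have hconf : ∀ (k k' : W) (a b c d : A), r a b → r c d →
      nu s1 s2 X1 X2 ι1 ι2 col a k = nu s1 s2 X1 X2 ι1 ι2 col d k' →
      nu s1 s2 X1 X2 ι1 ι2 col b k = nu s1 s2 X1 X2 ι1 ι2 col c k' → False := by
    intro k k' a b c d hab hcd h1 h2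
    by_cases hk : k.right = k'.right
    · exact rasym c d hcd (Q _ _ a b d c hab (U1 k k' a d hk h1) (U1 k k' b c hk h2))
    · obtain ⟨za, zd, ea, ed, e1⟩ := U0 k k' a d hk h1
      obtain ⟨zb, zc, eb, ec, e2⟩ := U0 k k' b c hk h2
      have r1 : r za zb := Q _ _ a b za zb hab (U2 k k' a d za zd hk ea ed h1)
        (U2 k k' b c zb zc hk eb ec h2)
      have r2 : r zc zd := Q _ _ c d zc zd hcd (U2 k' k c b zc zb (Ne.symm hk) ec eb h2.symm)
        (U2 k' k d a zd za (Ne.symm hk) ed ea h1.symm)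
      have t1 := (mem_Aut.mp k.right.2 _ _).mp
        (hι2 za (bssome a za ea).1 zb (bssome b zb eb).1 r1)
      rw [e1, e2] at t1
      have t2 := (mem_Aut.mp k'.right.2 _ _).mpr t1
      have t3 := hι2 zc (bssome c zc ec).1 zd (bssome d zd ed).1 r2
      exact asym s2 hs2 _ _ t2 t3
  have : Finite (Aut s1) := inferInstance
  have : Finite (Aut s2) := inferInstance
  obtain ⟨q, hqf, e, hq4, he⟩ := paley_embed
    (σ := (Aut s2 × (Aut s2 → Aut s1) × B1) ⊕ (B2 × (Aut s2 → (Aut s1 ⊕ B1))))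
    (fun x y => ∃ (k : W) (a b : A), r a b ∧ x = nu s1 s2 X1 X2 ι1 ι2 col a k ∧
      y = nu s1 s2 X1 X2 ι1 ι2 col b k) (by
    rintro x y ⟨k, a, b, hab, rfl, rfl⟩ ⟨k', c, d, hcd, h1, h2⟩
    exact hconf k k' a b c d hab hcd h2 h1)
  refine ⟨q, hqf, fun a g => e (nu s1 s2 X1 X2 ι1 ι2 col a g⁻¹), hq4, ?_, ?_, ?_⟩
  · intro a b hab g
    exact he _ _ ⟨g⁻¹, a, b, hab, rfl, rfl⟩
  · intro h
    refine ⟨⟨fun y => if y = 1 then h else 1, 1⟩, ?_⟩
    intro a ha a' ha' hcc haa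
    funext g
    show e _ = 1 * e (nu s1 s2 X1 X2 ι1 ι2 col a
      ((⟨fun y => if y = 1 then h else 1, 1⟩ : W)⁻¹ * g)⁻¹) + 0
    rw [one_mul, add_zero, mul_inv_rev, inv_inv]
    generalize g⁻¹ = m
    congr 1
    have hR : (m * (⟨fun y => if y = 1 then h else 1, 1⟩ : W)).right = m.right := by
      show m.right * 1 = m.right
      rw [mul_one]
    have hL1 : (m * (⟨fun y => if y = 1 then h else 1, 1⟩ : W)).left m.right =
        m.left m.right * h := by
      show m.left m.right * (if m.right⁻¹ * m.right = 1 then h else 1) = _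
      rw [if_pos (inv_mul_cancel _)]
    have hL2 : ∀ y, y ≠ m.right →
        (m * (⟨fun y => if y = 1 then h else 1, 1⟩ : W)).left y = m.left y := by
      intro y hy
      show m.left y * (if m.right⁻¹ * y = 1 then h else 1) = _
      rw [if_neg (fun h => hy (inv_mul_eq_one.mp h).symm), mul_one]
    have hval : (m.left m.right * h).1 (ι1 a) = (m.left m.right).1 (ι1 a') := by
      rw [haa]; rfl
    rcases hb : bs a with _ | z
    · have hb' : bs a' = none := by rw [bsX1 a' ha', ← hcc, ← bsX1 a ha, hb]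
      rw [nu0 a' m hb', nu0 a _ hb, hR, hL1, hval]
      congr 3
      funext y
      by_cases hy : y = m.right
      · rw [if_pos hy, if_pos hy]
      · rw [if_neg hy, if_neg hy, hL2 y hy]
    · have hb' : bs a' = some z := by rw [bsX1 a' ha', ← hcc, ← bsX1 a ha, hb]
      rw [nu1 a' z m hb', nu1 a z _ hb, hR, hL1, hval]
      congr 2
      funext y
      by_cases hy : y = m.right
      · rw [if_pos ⟨hy, ha'⟩, if_pos ⟨hy, ha⟩]
      · rw [if_neg (fun h => hy h.1), if_neg (fun h => hy h.1)]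
        unfold Gf
        rw [hL2 y hy]
  · intro h
    refine ⟨⟨1, h⟩, ?_⟩
    intro a ha a' ha' haa
    funext g
    show e _ = 1 * e (nu s1 s2 X1 X2 ι1 ι2 col a ((⟨1, h⟩ : W)⁻¹ * g)⁻¹) + 0
    rw [one_mul, add_zero, mul_inv_rev, inv_inv]
    generalize g⁻¹ = m
    congr 1
    have hR : (m * (⟨1, h⟩ : W)).right.1 (ι2 a) = m.right.1 (ι2 a') := by
      rw [haa]; rfl
    have hL : (m * (⟨1, h⟩ : W)).left = m.left := by
      funext y
      show m.left y * 1 = m.left y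
      rw [mul_one]
    rw [nu2 a' m ha', nu2 a _ ha, hR, hL]

/-- GLUING over an intersection which meets every orbit of the first family at most once -/
theorem glue_trans {A : Type} [Finite A] (r : A → A → Prop) (hr : IsTour r) (X1 X2 : Set A)
    (F1 F2 : Set (Set (A × A))) (h1 : Extendable r X1 F1) (h2 : Extendable r X2 F2)
    (hT : ∀ z ∈ X1 ∩ X2, ∀ z' ∈ X1 ∩ X2,
      Relation.EqvGen (fun x y => ∃ φ ∈ F1, (x, y) ∈ φ) z z' → z = z') :
    Extendable r (X1 ∪ X2) (F1 ∪ F2 ∪ Small r (X1 ∪ X2)) := by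
  classical
  obtain ⟨B1, hB1, s1, hs1, e1, he1, hr1, hφ1⟩ := h1
  obtain ⟨B2, hB2, s2, hs2, e2, he2, hr2, hφ2⟩ := h2
  let A' := {a // a ∈ X1 ∪ X2}
  let r' : A' → A' → Prop := fun a b => r a.1 b.1
  have hr' : IsTour r' := ⟨fun a => hr.1 a.1, fun a b hab => hr.2 a.1 b.1 (fun h => hab (Subtype.ext h))⟩
  let Y1 : Set A' := {a | a.1 ∈ X1}
  let Y2 : Set A' := {a | a.1 ∈ X2}
  let ι1 : A' → Option B1 := fun a => if h : a.1 ∈ X1 then some (e1 ⟨a.1, h⟩) else none
  let ι2 : A' → Option B2 := fun a => if h : a.1 ∈ X2 then some (e2 ⟨a.1, h⟩) else none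
  have hi1 : ∀ (a : A') (h : a.1 ∈ X1), ι1 a = some (e1 ⟨a.1, h⟩) := fun a h => by
    simp only [ι1, dif_pos h]
  have hi2 : ∀ (a : A') (h : a.1 ∈ X2), ι2 a = some (e2 ⟨a.1, h⟩) := fun a h => by
    simp only [ι2, dif_pos h]
  let R : A → A → Prop := Relation.EqvGen (fun x y => ∃ φ ∈ F1, (x, y) ∈ φ)
  let col : A' → Option A' := fun a =>
    if h : ∃ z : A', (z ∈ Y1 ∧ z ∈ Y2) ∧ R z.1 a.1 then some h.choose else none
  have col1 : ∀ z ∈ Y1, z ∈ Y2 → col z = some z := by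
    intro z h1 h2
    have h : ∃ z' : A', (z' ∈ Y1 ∧ z' ∈ Y2) ∧ R z'.1 z.1 :=
      ⟨z, ⟨h1, h2⟩, Relation.EqvGen.refl _⟩
    simp only [col, dif_pos h]
    congr 1
    exact Subtype.ext (hT _ h.choose_spec.1 _ ⟨h1, h2⟩ h.choose_spec.2)
  have col2 : ∀ a z, col a = some z → z ∈ Y1 ∧ z ∈ Y2 := by
    intro a z haz
    by_cases h : ∃ z : A', (z ∈ Y1 ∧ z ∈ Y2) ∧ R z.1 a.1
    · simp only [col, dif_pos h] at haz
      rw [← Option.some_injective _ haz]
      exact h.choose_spec.1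
    · simp only [col, dif_neg h] at haz
      exact absurd haz (by simp)
  have col3 : ∀ a a' : A', R a.1 a'.1 → col a = col a' := by
    intro a a' hR
    by_cases h : ∃ z : A', (z ∈ Y1 ∧ z ∈ Y2) ∧ R z.1 a.1
    · have h' : ∃ z : A', (z ∈ Y1 ∧ z ∈ Y2) ∧ R z.1 a'.1 := by
        obtain ⟨z, hz, hz'⟩ := h
        exact ⟨z, hz, hz'.trans _ _ _ hR⟩
      simp only [col, dif_pos h, dif_pos h']
      congr 1
      refine Subtype.ext (hT _ h.choose_spec.1 _ h'.choose_spec.1 ?_)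
      exact (h.choose_spec.2.trans _ _ _ hR).trans _ _ _ (h'.choose_spec.2.symm _ _)
    · have h' : ¬ ∃ z : A', (z ∈ Y1 ∧ z ∈ Y2) ∧ R z.1 a'.1 := by
        rintro ⟨z, hz, hz'⟩
        exact h ⟨z, hz, hz'.trans _ _ _ (hR.symm _ _)⟩
      simp only [col, dif_neg h, dif_neg h']
  have hc1 : IsTour (cone s1) := cone_tour hs1
  have hc2 : IsTour (cone s2) := cone_tour hs2
  obtain ⟨q, hqf, p, hq4, hp, hp1, hp2⟩ := trans_coords r' hr' Y1 Y2
    (fun a => a.2) (Option B1) (Option B2) (cone s1) (cone s2)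
    hc1 hc2 ι1 ι2 (by
      intro a ha b hb hab
      rw [hi1 a ha, hi1 b hb]
      exact (hr1 ⟨a.1, ha⟩ ⟨b.1, hb⟩).mp hab) (by
      intro a ha b hb hab
      rw [hi2 a ha, hi2 b hb]
      exact (hr2 ⟨a.1, ha⟩ ⟨b.1, hb⟩).mp hab) col col1 col2
  have : Finite (Aut (cone s1)) := inferInstance
  have : Finite (Aut (cone s2)) := inferInstance
  refine ext_of_coords r hr (X1 ∪ X2) q hq4
    (RegularWreathProduct (Aut (cone s1)) (Aut (cone s2)))
    (wreath_odd _ _ hc1 hc2) p (fun a b hab => hp a b hab) (F1 ∪ F2) ?_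
  rintro φ (hφ | hφ)
  · obtain ⟨σ, hσ, hD⟩ := hφ1 φ hφ
    obtain ⟨k, hk⟩ := hp1 ⟨_, cone_aut σ hσ⟩
    refine ⟨k, fun _ => 1, fun _ => 0, fun _ => Sq.one, ?_⟩
    intro x y hxy
    obtain ⟨hx, hy, he⟩ := hD x y hxy
    refine ⟨Or.inl hx, Or.inl hy, hk ⟨x, Or.inl hx⟩ hx ⟨y, Or.inl hy⟩ hy
      (col3 _ _ (Relation.EqvGen.rel _ _ ⟨φ, hφ, hxy⟩)) ?_⟩
    rw [hi1 _ hy, hi1 _ hx]
    show some (e1 ⟨y, hy⟩) = some (σ (e1 ⟨x, hx⟩))
    rw [he]
  · obtain ⟨σ, hσ, hD⟩ := hφ2 φ hφ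
    obtain ⟨k, hk⟩ := hp2 ⟨_, cone_aut σ hσ⟩
    refine ⟨k, fun _ => 1, fun _ => 0, fun _ => Sq.one, ?_⟩
    intro x y hxy
    obtain ⟨hx, hy, he⟩ := hD x y hxy
    refine ⟨Or.inr hx, Or.inr hy, hk ⟨x, Or.inr hx⟩ hx ⟨y, Or.inr hy⟩ hy ?_⟩
    rw [hi2 _ hy, hi2 _ hx]
    show some (e2 ⟨y, hy⟩) = some (σ (e2 ⟨x, hx⟩))
    rw [he]

end Pool.Agent.Lib.MP_4e105e_co_forest
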